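import Pool.Agent.Helper20.OP.Defs

/-!
# Block OP-W3: the classes are definable

Proof.  `κ.Is` for each kind: a first-order sentence, use the closure lemmas of `Def` (`Def.all`, `Def.and`, `Def.imp`, `Def.not`,
`Def.or`, `Def.rel`, `Def.eq`).  `¬ Emb P R`: the negation of `∃ f : Fin s → V, Injective f ∧ ∀ r x y, P r x y ↔ R r (f x) (f y)`:
`Def.exTuple`, `Def.all_fin`, `Def.eq`, `Def.rel`, `Def.const` (compare the proof of `Def.exactly`).
-/

set_option autoImplicit false

namespace Pool.Agent.Helper20.OP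

open FirstOrder FirstOrder.Language Pool.Agent.Helper20.Spectra

theorem def_emb {b s : ℕ} (P : Str b (Fin s)) : Def0 b (fun _ R => Emb P R) := by
  unfold Def0 Emb
  refine Def.exTuple s (P := fun _ R _ f => Function.Injective f ∧
    ∀ r x y, P r x y ↔ R r (f x) (f y)) ?_
  refine Def.and ?_ (Def.all_fin (fun r => Def.all_fin (fun x => Def.all_fin (fun y =>
    Def.iff (Def.const _) (Def.rel _ _ _)))))
  refine (Def.all_fin (γ := Fin s) (P := fun i V R v => ∀ j : Fin s,
    v (Fin.natAdd 0 i) = v (Fin.natAdd 0 j) → i = j) (fun i => Def.all_fin (fun j =>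
    (Def.eq _ _).imp (Def.const _)))).congr (fun V R v => ?_)
  exact Iff.rfl

private lemma def_lin53 {b : ℕ} (s : Fin b) : Def b 0 (fun _ R _ => StrictLin (R s)) := by
  unfold StrictLin
  refine Def.and ?_ (Def.and ?_ ?_)
  · exact Def.all (Def.rel s _ _).not
  · exact Def.all (Def.all (Def.all (Def.imp (Def.rel s _ _) (Def.imp (Def.rel s _ _)
      (Def.rel s _ _)))))
  · exact Def.all (Def.all (Def.or (Def.rel s _ _) (Def.or (Def.eq _ _) (Def.rel s _ _))))

private lemma def_trans53 {b : ℕ} (s : Fin b) : Def b 0 (fun _ R _ =>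
    ∀ x y z, R s x y → R s y z → R s x z) :=
  Def.all (Def.all (Def.all (Def.imp (Def.rel s _ _) (Def.imp (Def.rel s _ _)
      (Def.rel s _ _)))))

theorem def_is (κ : Kind) : Def0 κ.rels (fun _ R => κ.Is R) := by
  cases κ with
  | graph =>
    exact Def.and (Def.all (Def.rel (0 : Fin 1) _ _).not)
      (Def.all (Def.all (Def.imp (Def.rel (0 : Fin 1) _ _) (Def.rel (0 : Fin 1) _ _))))
  | poset =>
    exact Def.and (Def.all (Def.rel (0 : Fin 1) _ _).not) (def_trans53 (0 : Fin 1))
  | quasi =>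
    exact Def.and (Def.all (Def.rel (0 : Fin 1) _ _)) (def_trans53 (0 : Fin 1))
  | perm =>
    exact Def.and (def_lin53 (0 : Fin 2)) (def_lin53 (1 : Fin 2))

/-- the class of the structures of kind `κ` omitting `P` -/
def Omit (κ : Kind) {s : ℕ} (P : Str κ.rels (Fin s)) : ∀ V : Type, Str κ.rels V → Prop :=
  fun _ R => κ.Is R ∧ ¬ Emb P R

lemma Emb.trans {b : ℕ} {U V W : Type} {Q : Str b U} {R : Str b V} {S : Str b W} (h : Emb Q R)
    (h' : Emb R S) : Emb Q S := by
  obtain ⟨f, hf, h⟩ := h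
  obtain ⟨g, hg, h'⟩ := h'
  exact ⟨g ∘ f, hg.comp hf, fun r x y => (h r x y).trans (h' r _ _)⟩

theorem def_omit (κ : Kind) {s : ℕ} (P : Str κ.rels (Fin s)) : Def0 κ.rels (Omit κ P) := by
  exact Def.and (def_is κ) (def_emb P).not

end Pool.Agent.Helper20.OP
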