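import Pool.Agent.Helper20.OP.Defs

/-!
# Block OP-T1: back-and-forth equivalence and first-order formulas

`EFq q R S a c`: the `q` round Ehrenfeucht-Fraisse equivalence of `(R, a)` and `(S, c)` (for tuples `a`, `c`
of the same length).

Proof of `EFq.realize`: induction on the formula.  `falsum`: `q = 0`.  `equal t t'`: the vocabulary has no
function symbols, so `t`, `t'` are variables `Sum.inr i`, `Sum.inr j` (there are no free variables of
type `Empty`) and `q = 0` works by the clause on equality.  `rel`: a relation symbol of `binLang b` of arity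
`l` is `⟨s, h⟩` with `h : 2 = l`; `subst`, the terms are variables, `q = 0`.  `imp`: the maximum of the two numbers,
with `EFq.mono`.  `all`: `q + 1`, using `Fin.snoc`.
-/

set_option autoImplicit false

namespace Pool.Agent.Helper20.OP

open FirstOrder FirstOrder.Language Pool.Agent.Helper20.Spectra

/-- the atomic types agree -/
def AtEq {b : ℕ} {V W : Type} (R : Str b V) (S : Str b W) {m : ℕ} (a : Fin m → V)
    (c : Fin m → W) : Prop :=
  (∀ i j, a i = a j ↔ c i = c j) ∧ ∀ r i j, R r (a i) (a j) ↔ S r (c i) (c j)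

/-- `q` round equivalence -/
def EFq {b : ℕ} : (q : ℕ) → {V W : Type} → Str b V → Str b W → {m : ℕ} → (Fin m → V) →
    (Fin m → W) → Prop
  | 0, _, _, R, S, _, a, c => AtEq R S a c
  | q + 1, _, _, R, S, _, a, c => AtEq R S a c ∧
      (∀ x, ∃ y, EFq q R S (Fin.snoc a x) (Fin.snoc c y)) ∧
      ∀ y, ∃ x, EFq q R S (Fin.snoc a x) (Fin.snoc c y)

variable {b : ℕ} {V W : Type} {R : Str b V} {S : Str b W}

lemma AtEq.of_snoc {m : ℕ} {a : Fin m → V} {c : Fin m → W} {x : V} {y : W}
    (h : AtEq R S (Fin.snoc a x : Fin (m + 1) → V) (Fin.snoc c y)) : AtEq R S a c := by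
  refine ⟨fun i j => ?_, fun r i j => ?_⟩
  · have h1 := h.1 i.castSucc j.castSucc
    rwa [Fin.snoc_castSucc, Fin.snoc_castSucc, Fin.snoc_castSucc, Fin.snoc_castSucc] at h1
  · have h1 := h.2 r i.castSucc j.castSucc
    rwa [Fin.snoc_castSucc, Fin.snoc_castSucc, Fin.snoc_castSucc, Fin.snoc_castSucc] at h1

private lemma EFq_succ_h26 {q : ℕ} : ∀ {m : ℕ} {a : Fin m → V} {c : Fin m → W},
    EFq (q + 1) R S a c → EFq q R S a c := by
  induction q with
  | zero => exact fun h => h.1
  | succ q ih =>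
    intro m a c h
    refine ⟨h.1, fun x => ?_, fun y => ?_⟩
    · obtain ⟨y, hy⟩ := h.2.1 x
      exact ⟨y, ih hy⟩
    · obtain ⟨x, hx⟩ := h.2.2 y
      exact ⟨x, ih hx⟩

private lemma EFq_at_h26 {q : ℕ} {m : ℕ} {a : Fin m → V} {c : Fin m → W}
    (h : EFq q R S a c) : AtEq R S a c := by
  cases q with
  | zero => exact h
  | succ q => exact h.1

lemma EFq.mono {q q' : ℕ} (hq : q ≤ q') {m : ℕ} {a : Fin m → V} {c : Fin m → W}
    (h : EFq q' R S a c) : EFq q R S a c := by
  induction hq with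
  | refl => exact h
  | step _ ih => exact ih (EFq_succ_h26 h)

private lemma term_var_h26 {b : ℕ} {m : ℕ} (t : (binLang b).Term (Empty ⊕ Fin m)) :
    ∃ i : Fin m, t = Term.var (Sum.inr i) := by
  cases t with
  | var v =>
    rcases v with v | v
    · exact v.elim
    · exact ⟨v, rfl⟩
  | func f _ => exact f.elim

theorem EFq.realize {m : ℕ} (φ : (binLang b).BoundedFormula Empty m) :
    ∃ q : ℕ, ∀ (V W : Type) (R : Str b V) (S : Str b W) (a : Fin m → V) (c : Fin m → W),
      EFq q R S a c → (@BoundedFormula.Realize _ V (toStr R) _ _ φ default a ↔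
        @BoundedFormula.Realize _ W (toStr S) _ _ φ default c) := by
  induction φ with
  | falsum => exact ⟨0, fun V W R S a c _ => Iff.rfl⟩
  | equal t₁ t₂ =>
    obtain ⟨i, rfl⟩ := term_var_h26 t₁
    obtain ⟨j, rfl⟩ := term_var_h26 t₂
    exact ⟨0, fun V W R S a c h => h.1 i j⟩
  | @rel m l ρ ts =>
    obtain ⟨s, hs⟩ := ρ
    subst hs
    obtain ⟨i, hi⟩ := term_var_h26 (ts 0)
    obtain ⟨j, hj⟩ := term_var_h26 (ts 1)
    refine ⟨0, fun V W R S a c h => ?_⟩
    have h2 := h.2 s i j
    let _ := toStr R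
    let _ := toStr S
    have e1 : ∀ (k : Fin 2) (i : Fin m), ts k = Term.var (Sum.inr i) →
        @Term.realize _ V (toStr R) _ (Sum.elim default a) (ts k) = a i := by
      intro k i h; rw [h]; rfl
    have e2 : ∀ (k : Fin 2) (i : Fin m), ts k = Term.var (Sum.inr i) →
        @Term.realize _ W (toStr S) _ (Sum.elim default c) (ts k) = c i := by
      intro k i h; rw [h]; rfl
    have h3 := e1 0 i hi
    have h4 := e1 1 j hj
    have h5 := e2 0 i hi
    have h6 := e2 1 j hj
    show R s (Term.realize (Sum.elim default a) (ts 0)) (Term.realize (Sum.elim default a) (ts 1)) ↔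
      S s (Term.realize (Sum.elim default c) (ts 0)) (Term.realize (Sum.elim default c) (ts 1))
    rw [h3, h4, h5, h6]
    exact h2
  | imp φ ψ ih₁ ih₂ =>
    obtain ⟨q₁, h₁⟩ := ih₁
    obtain ⟨q₂, h₂⟩ := ih₂
    refine ⟨max q₁ q₂, fun V W R S a c h => ?_⟩
    have h3 := h₁ V W R S a c (EFq.mono (le_max_left _ _) h)
    have h4 := h₂ V W R S a c (EFq.mono (le_max_right _ _) h)
    exact imp_congr h3 h4
  | all φ ih =>
    obtain ⟨q, hq⟩ := ih
    refine ⟨q + 1, fun V W R S a c h => ⟨fun h1 y => ?_, fun h1 x => ?_⟩⟩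
    · obtain ⟨x, hx⟩ := h.2.2 y
      exact (hq V W R S _ _ hx).1 (h1 x)
    · obtain ⟨y, hy⟩ := h.2.1 x
      exact (hq V W R S _ _ hy).2 (h1 y)

end Pool.Agent.Helper20.OP
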