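import Pool.Agent.Helper20.OP.Defs

/-!
# Block OP-W1: definable interpretations and isomorphism invariance

`Def.interp`: if the relations of the structure `τ V R` (on the same universe) are definable in `(V, R)`, then the
truth in `τ V R` of a formula is definable in `(V, R)`.

Proof of `Def.interp_formula`: induction on the formula: `falsum`: `Def.const`; `equal`: terms are variables (the
vocabulary has no function symbols and there are no free variables of type `Empty`), `Def.eq`; `rel`: a relation symbol of
arity `l` is `⟨s, h⟩` with `h : 2 = l`, `subst h`, the terms are variables, use the hypothesis on `τ` and `Def2.app`; `imp`: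
`Def.imp`; `all`: `Def.all` (the tuple `fun i => v i.castSucc` extended by `v (Fin.last _)` is `v`).
`Def.interp` follows by `congr`.
`Def0.iso`: invariance of the truth of formulas under isomorphisms: either by induction on formulas, or use Mathlib's
`FirstOrder.Language.Equiv` (see `FD.transport` in `Pool/Agent/Helper20/Spectra/FD.lean`).
-/

set_option autoImplicit false

namespace Pool.Agent.Helper20.OP

open FirstOrder FirstOrder.Language Pool.Agent.Helper20.Spectra

private lemma term_var80 {b m : ℕ} (t : (binLang b).Term (Empty ⊕ Fin m)) :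
    ∃ i : Fin m, t = Term.var (Sum.inr i) := by
  cases t with
  | var x =>
    rcases x with x | i
    · exact x.elim
    · exact ⟨i, rfl⟩
  | func f _ => exact Empty.elim f

theorem Def.interp_formula {b b' : ℕ} (τ : ∀ V : Type, Str b' V → Str b V)
    (hτ : ∀ r : Fin b, Def2 b' (fun V R x y => τ V R r x y)) {m : ℕ}
    (φ : (binLang b).BoundedFormula Empty m) :
    Def b' m (fun V R v => @BoundedFormula.Realize _ V (toStr (τ V R)) _ _ φ default v) := by
  induction φ with
  | falsum => exact (Def.const False).congr fun V R v => Iff.rfl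
  | equal t₁ t₂ =>
    obtain ⟨i, rfl⟩ := term_var80 t₁
    obtain ⟨j, rfl⟩ := term_var80 t₂
    exact (Def.eq i j).congr fun V R v => Iff.rfl
  | rel ρ ts =>
    obtain ⟨s, hs⟩ := ρ
    subst hs
    obtain ⟨i, hi⟩ := term_var80 (ts 0)
    obtain ⟨j, hj⟩ := term_var80 (ts 1)
    refine ((hτ s).app i j).congr fun V R v => ?_
    let _ := toStr (τ V R)
    show τ V R s ((ts 0).realize (Sum.elim default v)) ((ts 1).realize (Sum.elim default v)) ↔ _
    rw [hi, hj]
    exact Iff.rfl
  | imp φ ψ ih₁ ih₂ => exact (ih₁.imp ih₂).congr fun V R v => Iff.rfl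
  | @all m φ ih =>
    have h1 : Def b' m (fun V R v => ∀ x : V,
        @BoundedFormula.Realize _ V (toStr (τ V R)) _ _ φ default (Fin.snoc v x)) := by
      apply Def.all
      refine ih.congr fun V R v => ?_
      have h2 : (Fin.snoc (fun i : Fin m => v i.castSucc) (v (Fin.last m)) : Fin (m + 1) → V) = v :=
        Fin.snoc_init_self v
      rw [h2]
    exact h1.congr fun V R v => Iff.rfl

theorem Def0.interp {b b' : ℕ} (τ : ∀ V : Type, Str b' V → Str b V)
    (hτ : ∀ r : Fin b, Def2 b' (fun V R x y => τ V R r x y))
    {P : ∀ V : Type, Str b V → Prop} (hP : Def0 b P) : Def0 b' (fun V R => P V (τ V R)) := by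
  obtain ⟨φ, hφ⟩ := hP
  exact (Def.interp_formula τ hτ φ).congr (fun V R v => by
    have : v = default := Subsingleton.elim _ _
    rw [this]
    exact (hφ V (τ V R) default).symm)

theorem Def0.iso {b : ℕ} {P : ∀ V : Type, Str b V → Prop} (hP : Def0 b P) {V W : Type} (e : V ≃ W)
    (R : Str b V) : P V R ↔ P W (fun r x y => R r (e.symm x) (e.symm y)) := by
  obtain ⟨φ, hφ⟩ := hP
  refine Iff.trans (hφ V R default).symm (Iff.trans ?_ (hφ W _ default))
  let _ := toStr R
  let _ := toStr (fun (r : Fin b) (x y : W) => R r (e.symm x) (e.symm y))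
  let E : V ≃[binLang b] W :=
    { e with
      map_fun' := fun f => Empty.elim f
      map_rel' := by
        intro n r x
        obtain ⟨s, hs⟩ := r
        subst hs
        show R s (e.symm (e (x 0))) (e.symm (e (x 1))) ↔ R s (x 0) (x 1)
        rw [e.symm_apply_apply, e.symm_apply_apply] }
  have h1 := StrongHomClass.realize_boundedFormula E φ (v := default) (xs := (default : Fin 0 → V))
  have h2 : (E ∘ (default : Empty → V)) = default := Subsingleton.elim _ _
  have h3 : (E ∘ (default : Fin 0 → V)) = default := Subsingleton.elim _ _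
  rw [h2, h3] at h1
  exact h1.symm

end Pool.Agent.Helper20.OP
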