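import Pool.Agent.Helper20.OP.Def

/-!
# One forbidden pattern: definitions

The classes of finite graphs, partial orders, quasi-orders and permutations which omit one given
pattern, and the spectra of first-order sentences over these classes.
-/

set_option autoImplicit false

namespace Pool.Agent.Helper20.OP

open FirstOrder FirstOrder.Language Pool.Agent.Helper20.Spectra

/-- the four kinds of structures -/
inductive Kind
  /-- graphs: one irreflexive symmetric relation -/
  | graph
  /-- partial orders: one irreflexive transitive relation -/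
  | poset
  /-- quasi-orders: one reflexive transitive relation -/
  | quasi
  /-- permutations: two strict linear orders -/
  | perm

/-- the number of relations -/
def Kind.rels : Kind → ℕ
  | .graph => 1
  | .poset => 1
  | .quasi => 1
  | .perm => 2

/-- `r` is a strict linear order -/
def StrictLin {V : Type} (r : V → V → Prop) : Prop :=
  (∀ x, ¬ r x x) ∧ (∀ x y z, r x y → r y z → r x z) ∧ ∀ x y, r x y ∨ x = y ∨ r y x

/-- the structures of each kind -/
def Kind.Is : (κ : Kind) → {V : Type} → Str κ.rels V → Prop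
  | .graph, _, R => (∀ x, ¬ R (0 : Fin 1) x x) ∧ ∀ x y, R (0 : Fin 1) x y → R (0 : Fin 1) y x
  | .poset, _, R => (∀ x, ¬ R (0 : Fin 1) x x) ∧
      ∀ x y z, R (0 : Fin 1) x y → R (0 : Fin 1) y z → R (0 : Fin 1) x z
  | .quasi, _, R => (∀ x, R (0 : Fin 1) x x) ∧
      ∀ x y z, R (0 : Fin 1) x y → R (0 : Fin 1) y z → R (0 : Fin 1) x z
  | .perm, _, R => StrictLin (R (0 : Fin 2)) ∧ StrictLin (R (1 : Fin 2))

/-- `(V, R)` embeds into `(W, S)` as an (induced) substructure -/
def Emb {b : ℕ} {V W : Type} (R : Str b V) (S : Str b W) : Prop :=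
  ∃ f : V → W, Function.Injective f ∧ ∀ r x y, R r x y ↔ S r (f x) (f y)

/-- The critical structures (all with four elements): the path `P₄` among the graphs; the poset `N`
(with the relations `0 < 2`, `1 < 2`, `1 < 3`) among the partial orders, and among the
quasi-orders; the two permutations `2413` and `3142`. -/
def Critical : (κ : Kind) → Str κ.rels (Fin 4) → Prop
  | .graph, R => ∀ x y : Fin 4, R (0 : Fin 1) x y ↔ (x.1 + 1 = y.1 ∨ y.1 + 1 = x.1)
  | .poset, R => ∀ x y : Fin 4, R (0 : Fin 1) x y ↔ ((x, y) = (0, 2) ∨ (x, y) = (1, 2) ∨ (x, y) = (1, 3))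
  | .quasi, R => ∀ x y : Fin 4, R (0 : Fin 1) x y ↔
      (x = y ∨ (x, y) = (0, 2) ∨ (x, y) = (1, 2) ∨ (x, y) = (1, 3))
  | .perm, R => (∀ x y : Fin 4, R (0 : Fin 2) x y ↔ x < y) ∧
      ((∀ x y : Fin 4, R (1 : Fin 2) x y ↔ (![2, 4, 1, 3] : Fin 4 → ℕ) x < ![2, 4, 1, 3] y) ∨
       (∀ x y : Fin 4, R (1 : Fin 2) x y ↔ (![3, 1, 4, 2] : Fin 4 → ℕ) x < ![3, 1, 4, 2] y))

/-- `A` is a spectrum over the structures of kind `κ` which omit the pattern `P` (a structure with
`s` elements): for some first-order sentence `φ`, `A` is the set of the numbers `n ≥ 1` such that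
some structure with `n` elements of kind `κ` which omits `P` satisfies `φ`. -/
def SpectrumOmitting (κ : Kind) {s : ℕ} (P : Str κ.rels (Fin s)) (A : Set ℕ) : Prop :=
  ∃ φ : (binLang κ.rels).Sentence, ∀ n : ℕ, n ∈ A ↔
    (1 ≤ n ∧ ∃ R : Str κ.rels (Fin n), κ.Is R ∧ ¬ Emb P R ∧ Models R φ)

/-- ultimately periodic sets -/
def UltPeriodic (A : Set ℕ) : Prop :=
  ∃ p N : ℕ, 1 ≤ p ∧ ∀ n, N ≤ n → (n ∈ A ↔ n + p ∈ A)

/-! ### Spectra over classes of structures -/

/-- the sizes of the models of `φ` in the class `K` -/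
def sizes {b : ℕ} (K : ∀ V : Type, Str b V → Prop) (φ : (binLang b).Sentence) : Set ℕ :=
  {n : ℕ | 1 ≤ n ∧ ∃ R : Str b (Fin n), K _ R ∧ Models R φ}

/-- closed under isomorphism -/
def IsoClosed {b : ℕ} (K : ∀ V : Type, Str b V → Prop) : Prop :=
  ∀ (V W : Type) (e : V ≃ W) (R : Str b V), K V R → K W (fun r x y => R r (e.symm x) (e.symm y))

end Pool.Agent.Helper20.OP
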