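import Pool.Agent.Helper20.OP.Defs
import Pool.Agent.Helper20.Pfx.Final

/-!
# Codings of square tilings, and the conclusion for the wild classes

`Coding b C`: for every tiling system `W` there are a definable condition `P` on structures with `b` binary
relations and a polynomial `p` such that the finite structures with `P` have `p(N)` elements for some
`N ≥ 2` with an `N × N` tiling, and conversely for each such `N` there is a structure with `P` and `p(N)` elements
which moreover satisfies `C`.
-/

set_option autoImplicit false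

namespace Pool.Agent.Helper20.OP

open FirstOrder FirstOrder.Language Pool.Agent.Helper20.Spectra Pool.Agent.Helper29.Prefix

/-- coding of square tilings in the class `C` -/
def Coding (b : ℕ) (C : ∀ V : Type, Str b V → Prop) : Prop :=
  ∀ (Γ : Type) (_ : Finite Γ) (W : Wang Γ), ∃ (P : ∀ V : Type, Str b V → Prop) (p : Polynomial ℕ),
    Def0 b P ∧ StrictMono (fun n : ℕ => p.eval n) ∧
    (∀ (V : Type) (_ : Finite V) (R : Str b V), P V R →
      ∃ N, 2 ≤ N ∧ Nat.card V = p.eval N ∧ Tiles W N) ∧
    (∀ N, 2 ≤ N → Tiles W N → ∃ (V : Type) (_ : Finite V) (R : Str b V),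
      Nat.card V = p.eval N ∧ C V R ∧ P V R)

/-- `A` is the set of the sizes of the models of a sentence in the class `K` -/
def SpecOver {b : ℕ} (K : ∀ V : Type, Str b V → Prop) (A : Set ℕ) : Prop :=
  ∃ φ : (binLang b).Sentence, A = sizes K φ

/-- the conclusion for the wild classes -/
def Wild {b : ℕ} (K : ∀ V : Type, Str b V → Prop) : Prop :=
  (∃ U : Set ℕ, SpecOver K U ∧ ∀ A : Set ℕ, IsSpectrum A ↔
    ∃ h : Polynomial ℕ, A = {n : ℕ | 1 ≤ n ∧ h.eval n ∈ U}) ∧
  ((∀ A : Set ℕ, SpecOver K A → IsRudimentary A) ↔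
    ∀ A : Set ℕ, IsSpectrum A ↔ (IsRudimentary A ∧ 0 ∉ A))

end Pool.Agent.Helper20.OP
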