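import Pool.Agent.Helper20.OP.Coding
import Pool.Agent.Helper20.OP.Interp

/-!
# Block OP-W2: codings give universal spectra

Proof of `exists_universal_two`.  As `exists_universal_pos` (in `Pool/Agent/Helper20/Pfx/Final.lean`): the same
polynomial `((X ^ (k + 1) + C (2 + t)) ^ 2 + C t) ^ (k₀ + 1)` is `≥ 4` everywhere.

Proof of `SpecOver.isSpectrum`: `K ∧ φ` is a definable condition, given by a sentence `ψ` of `binLang b`; so `A = spec ψ`
(transport of structures to `Fin n`: `Def0.iso`; a `(binLang b).Structure` is `toStr R` for an `R`, see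
`structure_eq` in `Spectra/FD.lean`), and `binLang b` is a finite vocabulary.

Proof of `wild_of_coding`.  Let `Θ₀` be from `exists_universal_two`, `W := blockWang Θ₀`, and `P`, `p` from `hC`.
`φ`: a sentence (`Def0.exists_sentence`) for the definable condition `P V (τ V R)` (`Def0.interp`), and `U := sizes K φ`.
Claim (*): for `N ≥ 2`, `p.eval N ∈ U` if and only if `N ∈ squareSizes Θ₀`.  By `mem_squareSizes_iff`, `N ∈ squareSizes Θ₀` is
`Tiles W N`.  If: take `(V, R)` with `C`, `P` and `p(N)` elements, `R'` with `K V R'`, `τ V R' = R`; transport to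
`Fin (p.eval N)` with `Def0.iso` for the conditions `K` and `P V (τ V R)` (`1 ≤ p.eval N`: `p.eval` is strictly monotone and
`N ≥ 1`).  Only if: `R'` on `Fin (p.eval N)`, `P` holds for `τ R'`; so there is `N' ≥ 2` with `p.eval N = p.eval N'`, so `N = N'`, and
`Tiles W N`.
Universality: for a spectrum `A = {n | 1 ≤ n ∧ g.eval n ∈ squareSizes Θ₀}`, `g.eval n ≥ 2`, put `h := p.comp g`:
`A = {n | 1 ≤ n ∧ h.eval n ∈ U}`.  Conversely `{n | 1 ≤ n ∧ h.eval n ∈ U}` is a spectrum by `IsSpectrum.preimage`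
(`Pfx/Final.lean`).
The equivalence: if all `SpecOver K` sets are rudimentary, then `U` is, so every spectrum is rudimentary
(`IsRudimentary.preimage`); the rudimentary sets without `0` are spectra (unconditional: look how
`Pool/Agent/Helper20/Pfx/Main.lean`, `q1_of_universal`, gets it).  Conversely `SpecOver.isSpectrum`.
-/

set_option autoImplicit false

namespace Pool.Agent.Helper20.OP

open FirstOrder FirstOrder.Language Pool.Agent.Helper20.Spectra Pool.Agent.Helper29.Prefix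

theorem exists_universal_two :
    ∃ Θ₀ : Finset (ℕ × ℕ × ℕ × ℕ), ∀ A : Set ℕ, IsSpectrum A →
        ∃ g : Polynomial ℕ, (∀ n, 2 ≤ g.eval n) ∧
          A = {n : ℕ | 1 ≤ n ∧ g.eval n ∈ squareSizes Θ₀} := by
  obtain ⟨k₀, Θ₀, hΘ₀⟩ := spectrum_blocks univSizes_spectrum
  refine ⟨Θ₀, ?_⟩
  intro A hA
  obtain ⟨k, Θ, hΘ⟩ := spectrum_blocks hA
  obtain ⟨t, rfl⟩ := exists_blk Θ
  have hev : ∀ n : ℕ, (((Polynomial.X ^ (k + 1) + Polynomial.C (2 + t)) ^ 2 +
      Polynomial.C t) ^ (k₀ + 1) : Polynomial ℕ).eval n =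
      ((n ^ (k + 1) + 2 + t) ^ 2 + t) ^ (k₀ + 1) := by
    intro n
    simp [add_assoc]
  have htwo : ∀ n : ℕ, 2 ≤ (n ^ (k + 1) + 2 + t) ^ 2 + t := by
    intro n
    have : 2 ^ 2 ≤ (n ^ (k + 1) + 2 + t) ^ 2 := Nat.pow_le_pow_left (by omega) 2
    omega
  refine ⟨((Polynomial.X ^ (k + 1) + Polynomial.C (2 + t)) ^ 2 + Polynomial.C t) ^ (k₀ + 1),
    fun n => ?_, ?_⟩
  · rw [hev]
    exact (htwo n).trans (Nat.le_self_pow (Nat.succ_ne_zero k₀) _)
  ext n
  have hpos : ∀ n ∈ A, 1 ≤ n := fun n hn => hA.pos hn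
  have hone : ∀ n : ℕ, 1 ≤ (n ^ (k + 1) + 2 + t) ^ 2 + t := fun n => by
    have := htwo n
    omega
  simp only [Set.mem_ofPred_eq, hev]
  constructor
  · intro hn
    have h1 := hpos n hn
    refine ⟨h1, ?_⟩
    rw [← hΘ₀ _ (hone n), mem_univSizes, ← hΘ n h1]
    exact hn
  · rintro ⟨h1, h2⟩
    rw [← hΘ₀ _ (hone n), mem_univSizes, ← hΘ n h1] at h2
    exact h2

theorem SpecOver.isSpectrum {b : ℕ} {K : ∀ V : Type, Str b V → Prop} (hK : Def0 b K) {A : Set ℕ}
    (h : SpecOver K A) : IsSpectrum A := by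
  obtain ⟨φ, rfl⟩ := h
  have hD : Def0 b (fun V R => K V R ∧ Models R φ) := hK.and (Def0.models φ)
  obtain ⟨ψ, hψ⟩ := hD.exists_sentence
  refine ⟨binLang b, inferInstance, inferInstance, ψ, ?_⟩
  ext n
  constructor
  · rintro ⟨hn, R, h1, h2⟩
    exact ⟨hn, Fin n, toStr R, inferInstance, by simp, (hψ _ R).2 ⟨h1, h2⟩⟩
  · rintro ⟨hn, M, T, _, hc, hr⟩
    let R : Str b M := fun r x y => T.RelMap (⟨r, rfl⟩ : (binLang b).Relations 2) ![x, y]
    have hT : T = toStr R := by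
      refine (structure_eq T).trans ?_
      unfold toStr
      congr 1
      funext s v
      have : v = ![v 0, v 1] := by
        funext i
        fin_cases i <;> rfl
      exact congrArg _ this
    have h1 : K M R ∧ Models R φ := (hψ M R).1 (by rw [hT] at hr; exact hr)
    let e : M ≃ Fin n := (Fintype.equivFin M).trans (finCongr hc)
    have h2 := (Def0.iso hD e R).1 h1
    exact ⟨hn, _, h2.1, h2.2⟩

theorem wild_of_coding {b b' : ℕ} {C : ∀ V : Type, Str b V → Prop} (hC : Coding b C)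
    {K : ∀ V : Type, Str b' V → Prop} (hK : Def0 b' K) (τ : ∀ V : Type, Str b' V → Str b V)
    (hτ : ∀ r : Fin b, Def2 b' (fun V R x y => τ V R r x y))
    (h : ∀ (V : Type) (_ : Finite V) (R : Str b V), C V R → ∃ R' : Str b' V, K V R' ∧ τ V R' = R) :
    Wild K := by
  obtain ⟨Θ₀, hΘ₀⟩ := exists_universal_two
  obtain ⟨P, p, hP, hp, hdec, henc⟩ := hC _ inferInstance (blockWang Θ₀)
  have hPτ : Def0 b' (fun V R => P V (τ V R)) := Def0.interp τ hτ hP
  obtain ⟨φ, hφ⟩ := hPτ.exists_sentence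
  have hpos : ∀ N, 1 ≤ N → 1 ≤ p.eval N := fun N hN => by
    have h1 : p.eval 0 < p.eval N := hp hN
    omega
  have key : ∀ N, 2 ≤ N → (p.eval N ∈ sizes K φ ↔ N ∈ squareSizes Θ₀) := by
    intro N hN
    rw [mem_squareSizes_iff Θ₀ (by omega)]
    constructor
    · rintro ⟨-, R', _, h2⟩
      obtain ⟨N', _, hc, ht⟩ := hdec _ inferInstance _ ((hφ _ R').1 h2)
      rw [Nat.card_fin] at hc
      have : N = N' := hp.injective hc
      rw [this]
      exact ht
    · intro ht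
      obtain ⟨V, hV, R, hc, hCR, hPR⟩ := henc N hN ht
      obtain ⟨R', hKR, rfl⟩ := h V hV R hCR
      let e : V ≃ Fin (p.eval N) := (Finite.equivFin V).trans (finCongr hc)
      exact ⟨hpos N (by omega), _, (Def0.iso hK e R').1 hKR,
        (hφ _ _).2 ((Def0.iso hPτ e R').1 hPR)⟩
  have huniv : ∀ A : Set ℕ, IsSpectrum A →
      ∃ h : Polynomial ℕ, A = {n : ℕ | 1 ≤ n ∧ h.eval n ∈ sizes K φ} := by
    intro A hA
    obtain ⟨g, hg2, hg⟩ := hΘ₀ A hA
    refine ⟨p.comp g, ?_⟩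
    rw [hg]
    ext n
    simp only [Set.mem_ofPred_eq, Polynomial.eval_comp]
    exact and_congr_right (fun _ => (key _ (hg2 n)).symm)
  have hU : SpecOver K (sizes K φ) := ⟨φ, rfl⟩
  refine ⟨⟨sizes K φ, hU, fun A => ⟨huniv A, ?_⟩⟩, ?_⟩
  · rintro ⟨h, rfl⟩
    exact (hU.isSpectrum hK).preimage h
  · constructor
    · intro hr A
      refine ⟨fun hA => ⟨?_, hA.zero_notMem⟩, fun hA => hA.1.isSpectrum hA.2⟩
      obtain ⟨g, hg⟩ := huniv A hA
      rw [hg]
      exact (hr _ hU).preimage g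
    · intro hq A hA
      exact ((hq A).1 (hA.isSpectrum hK)).1

end Pool.Agent.Helper20.OP
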