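import Pool.Agent.Helper20.OP.Seinsche
import Pool.Agent.Helper20.OP.Defs

/-!
# Block OP-T11: an induced path on four vertices gives a critical structure

* graphs: `a, b, c, d` itself, `f = ![a, b, c, d]`.
* partial orders, `lt a b` or `lt b a`, etc.  If `lt a b`: then `lt c b` (`lt b c` would give `lt a c`), then `lt c d`
  (`lt d c` would give `lt d b`).  The four elements `![a, c, b, d]` form `N` (`a < b`, `c < b`, `c < d`; all other
  pairs are not related, as the path is induced and `lt` is irreflexive).  If `lt b a`: `lt b c`, `lt d c`, and `![d, b, c, a]`.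
* quasi-orders with `G x y := x ≠ y ∧ (le x y ∨ le y x)`: the same with `le`; no two adjacent vertices
  of the path are equivalent (if `le a b` and `le b a` then `c`, comparable to `b`, is comparable to `a`; etc.).
-/

set_option autoImplicit false

namespace Pool.Agent.Helper20.OP

private lemma inj4_93 {V : Type} {a b c d : V} (hab : a ≠ b) (hac : a ≠ c) (had : a ≠ d)
    (hbc : b ≠ c) (hbd : b ≠ d) (hcd : c ≠ d) : Function.Injective ![a, b, c, d] := by
  intro x y hxy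
  fin_cases x <;> fin_cases y <;>
    simp [hab, hac, had, hbc, hbd, hcd, hab.symm, hac.symm, had.symm, hbc.symm, hbd.symm,
      hcd.symm] at hxy ⊢

theorem crit_graph {V : Type} (R : Str Kind.graph.rels V) (h : Kind.graph.Is R)
    (h4 : HasP4 (R (0 : Fin 1))) : ∃ Q, Critical Kind.graph Q ∧ Emb Q R := by
  obtain ⟨a, b, c, d, hab, hac, had, hbc, hbd, hcd, gab, gbc, gcd, gac, gad, gbd⟩ := h4
  obtain ⟨hi, hs⟩ := h
  refine ⟨fun r x y => R r (![a, b, c, d] x) (![a, b, c, d] y), ?_, ![a, b, c, d],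
    inj4_93 hab hac had hbc hbd hcd, fun _ _ _ => Iff.rfl⟩
  have gba := hs _ _ gab
  have gcb := hs _ _ gbc
  have gdc := hs _ _ gcd
  have gca : ¬ R (0 : Fin 1) c a := fun h => gac (hs _ _ h)
  have gda : ¬ R (0 : Fin 1) d a := fun h => gad (hs _ _ h)
  have gdb : ¬ R (0 : Fin 1) d b := fun h => gbd (hs _ _ h)
  have ha := hi a
  have hb := hi b
  have hc := hi c
  have hd := hi d
  intro x y
  show R (0 : Fin 1) (![a, b, c, d] x) (![a, b, c, d] y) ↔ _
  fin_cases x <;> fin_cases y <;>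
    simp [gab, gbc, gcd, gac, gad, gbd, gba, gcb, gdc, gca, gda, gdb, ha, hb, hc, hd]

private lemma poset_core_93 {V : Type} (R : Str Kind.poset.rels V) (h : Kind.poset.Is R)
    {a b c d : V} (hab : a ≠ b) (hac : a ≠ c) (had : a ≠ d) (hbc : b ≠ c) (hbd : b ≠ d)
    (hcd : c ≠ d) (gab : R (0 : Fin 1) a b) (gbc : R (0 : Fin 1) b c ∨ R (0 : Fin 1) c b)
    (gcd : R (0 : Fin 1) c d ∨ R (0 : Fin 1) d c)
    (gac : ¬ (R (0 : Fin 1) a c ∨ R (0 : Fin 1) c a))
    (gad : ¬ (R (0 : Fin 1) a d ∨ R (0 : Fin 1) d a))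
    (gbd : ¬ (R (0 : Fin 1) b d ∨ R (0 : Fin 1) d b)) :
    ∃ Q, Critical Kind.poset Q ∧ Emb Q R := by
  obtain ⟨hi, ht⟩ := h
  obtain ⟨gac, gca⟩ := not_or.1 gac
  obtain ⟨gad, gda⟩ := not_or.1 gad
  obtain ⟨gbd, gdb⟩ := not_or.1 gbd
  have gbc' : ¬ R (0 : Fin 1) b c := fun h => gac (ht _ _ _ gab h)
  have gcb : R (0 : Fin 1) c b := gbc.resolve_left gbc'
  have gdc' : ¬ R (0 : Fin 1) d c := fun h => gdb (ht _ _ _ h gcb)
  have gcd' : R (0 : Fin 1) c d := gcd.resolve_right gdc'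
  have gba : ¬ R (0 : Fin 1) b a := fun h => gca (ht _ _ _ gcb h)
  have ha := hi a
  have hb := hi b
  have hc := hi c
  have hd := hi d
  refine ⟨fun r x y => R r (![a, c, b, d] x) (![a, c, b, d] y), ?_, ![a, c, b, d],
    inj4_93 hac hab had hbc.symm hcd hbd, fun _ _ _ => Iff.rfl⟩
  intro x y
  show R (0 : Fin 1) (![a, c, b, d] x) (![a, c, b, d] y) ↔ _
  fin_cases x <;> fin_cases y <;>
    simp [gab, gbc', gcd', gac, gad, gbd, gba, gcb, gdc', gca, gda, gdb, ha, hb, hc, hd]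

theorem crit_poset {V : Type} (R : Str Kind.poset.rels V) (h : Kind.poset.Is R)
    (h4 : HasP4 (fun x y => R (0 : Fin 1) x y ∨ R (0 : Fin 1) y x)) :
    ∃ Q, Critical Kind.poset Q ∧ Emb Q R := by
  obtain ⟨a, b, c, d, hab, hac, had, hbc, hbd, hcd, gab, gbc, gcd, gac, gad, gbd⟩ := h4
  rcases gab with gab | gba
  · exact poset_core_93 R h hab hac had hbc hbd hcd gab gbc gcd gac gad gbd
  · have ht := h.2
    have gcb' : ¬ R (0 : Fin 1) c b := fun h' => gac (Or.inr (ht _ _ _ h' gba))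
    have gbc' : R (0 : Fin 1) b c := gbc.resolve_right gcb'
    have gcd' : ¬ R (0 : Fin 1) c d := fun h' => gbd (Or.inl (ht _ _ _ gbc' h'))
    have gdc' : R (0 : Fin 1) d c := gcd.resolve_left gcd'
    exact poset_core_93 R h hcd.symm hbd.symm had.symm hbc.symm hac.symm hab.symm gdc'
      (Or.inr gbc') (Or.inl gba) (fun h' => gbd h'.symm) (fun h' => gad h'.symm)
      (fun h' => gac h'.symm)

private lemma quasi_core_93 {V : Type} (R : Str Kind.quasi.rels V) (h : Kind.quasi.Is R)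
    {a b c d : V} (hab : a ≠ b) (hac : a ≠ c) (had : a ≠ d) (hbc : b ≠ c) (hbd : b ≠ d)
    (hcd : c ≠ d) (gab : R (0 : Fin 1) a b) (gbc : R (0 : Fin 1) b c ∨ R (0 : Fin 1) c b)
    (gcd : R (0 : Fin 1) c d ∨ R (0 : Fin 1) d c)
    (gac : ¬ (R (0 : Fin 1) a c ∨ R (0 : Fin 1) c a))
    (gad : ¬ (R (0 : Fin 1) a d ∨ R (0 : Fin 1) d a))
    (gbd : ¬ (R (0 : Fin 1) b d ∨ R (0 : Fin 1) d b)) :
    ∃ Q, Critical Kind.quasi Q ∧ Emb Q R := by
  obtain ⟨hi, ht⟩ := h
  obtain ⟨gac, gca⟩ := not_or.1 gac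
  obtain ⟨gad, gda⟩ := not_or.1 gad
  obtain ⟨gbd, gdb⟩ := not_or.1 gbd
  have gbc' : ¬ R (0 : Fin 1) b c := fun h => gac (ht _ _ _ gab h)
  have gcb : R (0 : Fin 1) c b := gbc.resolve_left gbc'
  have gdc' : ¬ R (0 : Fin 1) d c := fun h => gdb (ht _ _ _ h gcb)
  have gcd' : R (0 : Fin 1) c d := gcd.resolve_right gdc'
  have gba : ¬ R (0 : Fin 1) b a := fun h => gca (ht _ _ _ gcb h)
  have ha := hi a
  have hb := hi b
  have hc := hi c
  have hd := hi d
  refine ⟨fun r x y => R r (![a, c, b, d] x) (![a, c, b, d] y), ?_, ![a, c, b, d],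
    inj4_93 hac hab had hbc.symm hcd hbd, fun _ _ _ => Iff.rfl⟩
  intro x y
  show R (0 : Fin 1) (![a, c, b, d] x) (![a, c, b, d] y) ↔ _
  fin_cases x <;> fin_cases y <;>
    simp [gab, gbc', gcd', gac, gad, gbd, gba, gcb, gdc', gca, gda, gdb, ha, hb, hc, hd]

theorem crit_quasi {V : Type} (R : Str Kind.quasi.rels V) (h : Kind.quasi.Is R)
    (h4 : HasP4 (fun x y => x ≠ y ∧ (R (0 : Fin 1) x y ∨ R (0 : Fin 1) y x))) :
    ∃ Q, Critical Kind.quasi Q ∧ Emb Q R := by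
  obtain ⟨a, b, c, d, hab, hac, had, hbc, hbd, hcd, gab, gbc, gcd, gac, gad, gbd⟩ := h4
  replace gab := gab.2
  replace gbc := gbc.2
  replace gcd := gcd.2
  replace gac : ¬ (R (0 : Fin 1) a c ∨ R (0 : Fin 1) c a) := fun h' => gac ⟨hac, h'⟩
  replace gad : ¬ (R (0 : Fin 1) a d ∨ R (0 : Fin 1) d a) := fun h' => gad ⟨had, h'⟩
  replace gbd : ¬ (R (0 : Fin 1) b d ∨ R (0 : Fin 1) d b) := fun h' => gbd ⟨hbd, h'⟩
  rcases gab with gab | gba
  · exact quasi_core_93 R h hab hac had hbc hbd hcd gab gbc gcd gac gad gbd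
  · have ht := h.2
    have gcb' : ¬ R (0 : Fin 1) c b := fun h' => gac (Or.inr (ht _ _ _ h' gba))
    have gbc' : R (0 : Fin 1) b c := gbc.resolve_right gcb'
    have gcd' : ¬ R (0 : Fin 1) c d := fun h' => gbd (Or.inl (ht _ _ _ gbc' h'))
    have gdc' : R (0 : Fin 1) d c := gcd.resolve_left gcd'
    exact quasi_core_93 R h hcd.symm hbd.symm had.symm hbc.symm hac.symm hab.symm gdc'
      (Or.inr gbc') (Or.inl gba) (fun h' => gbd h'.symm) (fun h' => gad h'.symm)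
      (fun h' => gac h'.symm)

end Pool.Agent.Helper20.OP
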