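import Pool.Agent.Helper20.OP.Seinsche
import Pool.Agent.Helper20.OP.Defs

/-!
# Block OP-T12: an induced path on four vertices in the inversion graph gives a critical permutation

* permutations: by exchanging the names (`a ↔ d`, `b ↔ c`) or not...: `a, b` inverted.  If `r₀ a b`, `r₁ b a`: then
  `r₀ c b`, `r₁ b c` (otherwise `a, c` inverted), then `r₀ c d`, `r₁ d c` (otherwise `b, d` inverted).  `a, c` are not
  inverted.  If `a` is below `c` (both orders): `r₀ : a < c < b`, `c < d`, so `r₀ a d`, so `r₁ a d`, so `r₁ : b < a < d < c`, so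
  `r₁ b d`, so `r₀ b d`: `r₀ : a < c < b < d`, `r₁ : b < a < d < c`: this is `2413` with `![a, c, b, d]`.  If `c` is below `a`:
  `r₁ : b < c < a`, `d < c`, so `r₁ d a`, so `r₀ d a`: `r₀ : c < d < a < b`, so `r₀ d b`, so `r₁ d b`: `r₁ : d < b < c < a`: this
  is `3142` with `![c, d, a, b]`.  If `r₀ b a`, `r₁ a b`: the same with `r₀` and `r₁` exchanged: if `a` is below `c` then
  `r₁ : a < c < b < d`, `r₀ : b < a < d < c`, that is `3142` with `![b, a, d, c]`; if `c` is below `a` then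
  `r₁ : c < d < a < b`, `r₀ : d < b < c < a`, that is `2413` with `![d, b, c, a]`.
-/

set_option autoImplicit false

namespace Pool.Agent.Helper20.OP

/-- The 16 values of a strict linear order on a chain of four elements. -/
private lemma lin4 {V : Type} {r : V → V → Prop} (h : StrictLin r) {w x y z : V} (h1 : r w x)
    (h2 : r x y) (h3 : r y z) :
    r w y ∧ r w z ∧ r x z ∧ ¬ r x w ∧ ¬ r y w ∧ ¬ r z w ∧ ¬ r y x ∧ ¬ r z x ∧ ¬ r z y ∧
      ¬ r w w ∧ ¬ r x x ∧ ¬ r y y ∧ ¬ r z z := by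
  obtain ⟨hi, ht, -⟩ := h
  have h4 := ht _ _ _ h1 h2
  have h5 := ht _ _ _ h2 h3
  have h6 := ht _ _ _ h4 h3
  refine ⟨h4, h6, h5, ?_, ?_, ?_, ?_, ?_, ?_, hi _, hi _, hi _, hi _⟩
  · exact fun h => hi _ (ht _ _ _ h1 h)
  · exact fun h => hi _ (ht _ _ _ h4 h)
  · exact fun h => hi _ (ht _ _ _ h6 h)
  · exact fun h => hi _ (ht _ _ _ h2 h)
  · exact fun h => hi _ (ht _ _ _ h5 h)
  · exact fun h => hi _ (ht _ _ _ h3 h)

private lemma inj4 {V : Type} {r : V → V → Prop} (h : StrictLin r) {w x y z : V} (h1 : r w x)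
    (h2 : r x y) (h3 : r y z) : Function.Injective (![w, x, y, z] : Fin 4 → V) := by
  obtain ⟨a1, a2, a3, b1, b2, b3, b4, b5, b6, c1, c2, c3, c4⟩ := lin4 h h1 h2 h3
  have e1 : w ≠ x := by rintro rfl; exact c1 h1
  have e2 : w ≠ y := by rintro rfl; exact c1 a1
  have e3 : w ≠ z := by rintro rfl; exact c1 a2
  have e4 : x ≠ y := by rintro rfl; exact c2 h2
  have e5 : x ≠ z := by rintro rfl; exact c2 a3
  have e6 : y ≠ z := by rintro rfl; exact c3 h3
  intro i j hij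
  fin_cases i <;> fin_cases j <;> simp_all [e1.symm, e2.symm, e3.symm, e4.symm, e5.symm, e6.symm]

private lemma ord4 {V : Type} {r : V → V → Prop} (h : StrictLin r) {w x y z : V} (h1 : r w x)
    (h2 : r x y) (h3 : r y z) (i j : Fin 4) :
    r ((![w, x, y, z] : Fin 4 → V) i) ((![w, x, y, z] : Fin 4 → V) j) ↔ i < j := by
  obtain ⟨a1, a2, a3, b1, b2, b3, b4, b5, b6, c1, c2, c3, c4⟩ := lin4 h h1 h2 h3
  fin_cases i <;> fin_cases j <;> simp_all

private lemma ordA {V : Type} {r : V → V → Prop} (h : StrictLin r) {w x y z : V} (h1 : r y w)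
    (h2 : r w z) (h3 : r z x) (i j : Fin 4) :
    r ((![w, x, y, z] : Fin 4 → V) i) ((![w, x, y, z] : Fin 4 → V) j) ↔
      (![2, 4, 1, 3] : Fin 4 → ℕ) i < ![2, 4, 1, 3] j := by
  obtain ⟨a1, a2, a3, b1, b2, b3, b4, b5, b6, c1, c2, c3, c4⟩ := lin4 h h1 h2 h3
  fin_cases i <;> fin_cases j <;> simp_all

private lemma ordB {V : Type} {r : V → V → Prop} (h : StrictLin r) {w x y z : V} (h1 : r x z)
    (h2 : r z w) (h3 : r w y) (i j : Fin 4) :
    r ((![w, x, y, z] : Fin 4 → V) i) ((![w, x, y, z] : Fin 4 → V) j) ↔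
      (![3, 1, 4, 2] : Fin 4 → ℕ) i < ![3, 1, 4, 2] j := by
  obtain ⟨a1, a2, a3, b1, b2, b3, b4, b5, b6, c1, c2, c3, c4⟩ := lin4 h h1 h2 h3
  fin_cases i <;> fin_cases j <;> simp_all

private lemma buildA {V : Type} (R : Str Kind.perm.rels V) (h : Kind.perm.Is R) {w x y z : V}
    (a1 : R (0 : Fin 2) w x) (a2 : R (0 : Fin 2) x y) (a3 : R (0 : Fin 2) y z)
    (b1 : R (1 : Fin 2) y w) (b2 : R (1 : Fin 2) w z) (b3 : R (1 : Fin 2) z x) :
    ∃ Q, Critical Kind.perm Q ∧ Emb Q R :=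
  ⟨fun r i j => R r ((![w, x, y, z] : Fin 4 → V) i) ((![w, x, y, z] : Fin 4 → V) j),
    ⟨ord4 h.1 a1 a2 a3, Or.inl (ordA h.2 b1 b2 b3)⟩,
    ⟨![w, x, y, z], inj4 h.1 a1 a2 a3, fun _ _ _ => Iff.rfl⟩⟩

private lemma buildB {V : Type} (R : Str Kind.perm.rels V) (h : Kind.perm.Is R) {w x y z : V}
    (a1 : R (0 : Fin 2) w x) (a2 : R (0 : Fin 2) x y) (a3 : R (0 : Fin 2) y z)
    (b1 : R (1 : Fin 2) x z) (b2 : R (1 : Fin 2) z w) (b3 : R (1 : Fin 2) w y) :
    ∃ Q, Critical Kind.perm Q ∧ Emb Q R :=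
  ⟨fun r i j => R r ((![w, x, y, z] : Fin 4 → V) i) ((![w, x, y, z] : Fin 4 → V) j),
    ⟨ord4 h.1 a1 a2 a3, Or.inr (ordB h.2 b1 b2 b3)⟩,
    ⟨![w, x, y, z], inj4 h.1 a1 a2 a3, fun _ _ _ => Iff.rfl⟩⟩

/-- The combinatorial core. -/
private lemma core {V : Type} {p q : V → V → Prop} (hp : StrictLin p) (hq : StrictLin q)
    {a b c d : V} (hac : a ≠ c) (had : a ≠ d) (hbd : b ≠ d)
    (ab : p a b ∧ q b a) (bc : (p b c ∧ q c b) ∨ (p c b ∧ q b c))
    (cd : (p c d ∧ q d c) ∨ (p d c ∧ q c d)) (nac : ¬ ((p a c ∧ q c a) ∨ (p c a ∧ q a c)))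
    (nad : ¬ ((p a d ∧ q d a) ∨ (p d a ∧ q a d)))
    (nbd : ¬ ((p b d ∧ q d b) ∨ (p d b ∧ q b d))) :
    (p a c ∧ p c b ∧ p b d ∧ q b a ∧ q a d ∧ q d c) ∨
      (p c d ∧ p d a ∧ p a b ∧ q d b ∧ q b c ∧ q c a) := by
  obtain ⟨-, tp, lp⟩ := hp
  obtain ⟨-, tq, lq⟩ := hq
  push Not at nac nad nbd
  obtain ⟨h1, h2⟩ := ab
  have h3 : p c b ∧ q b c := by
    rcases bc with h | h
    · exact absurd (tq _ _ _ h.2 h2) (nac.1 (tp _ _ _ h1 h.1))
    · exact h
  have h4 : p c d ∧ q d c := by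
    rcases cd with h | h
    · exact h
    · exact absurd (tq _ _ _ h3.2 h.2) (nbd.2 (tp _ _ _ h.1 h3.1))
  rcases lp a c with h5 | h5 | h5
  · left
    have h6 : q a c := by
      rcases lq a c with h | h | h
      · exact h
      · exact absurd h hac
      · exact absurd h (nac.1 h5)
    have h7 : p a d := tp _ _ _ h5 h4.1
    have h8 : q a d := by
      rcases lq a d with h | h | h
      · exact h
      · exact absurd h had
      · exact absurd h (nad.1 h7)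
    have h9 : q b d := tq _ _ _ h2 h8
    have h10 : p b d := by
      rcases lp b d with h | h | h
      · exact h
      · exact absurd h hbd
      · exact absurd h9 (nbd.2 h)
    exact ⟨h5, h3.1, h10, h2, h8, h4.2⟩
  · exact absurd h5 hac
  · right
    have h6 : q c a := by
      rcases lq a c with h | h | h
      · exact absurd h (nac.2 h5)
      · exact absurd h hac
      · exact h
    have h7 : q d a := tq _ _ _ h4.2 h6
    have h8 : p d a := by
      rcases lp a d with h | h | h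
      · exact absurd h7 (nad.1 h)
      · exact absurd h had
      · exact h
    have h9 : p d b := tp _ _ _ h8 h1
    have h10 : q d b := by
      rcases lq b d with h | h | h
      · exact absurd h (nbd.2 h9)
      · exact absurd h hbd
      · exact h
    exact ⟨h4.1, h8, h1, h10, h3.2, h6⟩

theorem crit_perm {V : Type} (R : Str Kind.perm.rels V) (h : Kind.perm.Is R)
    (h4 : HasP4 (fun x y => (R (0 : Fin 2) x y ∧ R (1 : Fin 2) y x) ∨
      (R (0 : Fin 2) y x ∧ R (1 : Fin 2) x y))) : ∃ Q, Critical Kind.perm Q ∧ Emb Q R := by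
  obtain ⟨a, b, c, d, -, hac, had, -, hbd, -, ab, bc, cd, nac, nad, nbd⟩ := h4
  rcases ab with ab | ab
  · rcases core h.1 h.2 hac had hbd ab bc cd nac nad nbd with
      ⟨h1, h2, h3, h4, h5, h6⟩ | ⟨h1, h2, h3, h4, h5, h6⟩
    · exact buildA R h h1 h2 h3 h4 h5 h6
    · exact buildB R h h1 h2 h3 h4 h5 h6
  · rcases core h.2 h.1 hac had hbd ⟨ab.2, ab.1⟩ (bc.elim (fun h => Or.inr ⟨h.2, h.1⟩)
      fun h => Or.inl ⟨h.2, h.1⟩) (cd.elim (fun h => Or.inr ⟨h.2, h.1⟩)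
      fun h => Or.inl ⟨h.2, h.1⟩) (fun h => nac (h.elim (fun h => Or.inr ⟨h.2, h.1⟩)
      fun h => Or.inl ⟨h.2, h.1⟩)) (fun h => nad (h.elim (fun h => Or.inr ⟨h.2, h.1⟩)
      fun h => Or.inl ⟨h.2, h.1⟩)) (fun h => nbd (h.elim (fun h => Or.inr ⟨h.2, h.1⟩)
      fun h => Or.inl ⟨h.2, h.1⟩)) with
      ⟨h1, h2, h3, h4, h5, h6⟩ | ⟨h1, h2, h3, h4, h5, h6⟩
    · exact buildB R h h4 h5 h6 h1 h2 h3
    · exact buildA R h h4 h5 h6 h1 h2 h3

end Pool.Agent.Helper20.OP
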