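import Pool.Agent.Helper20.OP.Gen

/-!
# Block OP-T8: hereditary classes in which every structure splits

Proof.  Strong induction on `Nat.card V`.  One element: `Gen.one`.  Otherwise there are `x ≠ y`; take the set `A` and
`c`, `d` of the hypothesis.  The restrictions of `R` to the subtypes `A` and `Aᶜ` are in `K` and smaller, so in `Gen`;
the uniform sum with `c`, `d` is in `Gen`, and `Equiv.Set.sumCompl A` (or `Equiv.sumCompl (· ∈ A)`) is an isomorphism
to `(V, R)` (the structure obtained from `Gen.iso` is equal to `R`, by function extensionality and cases).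
-/

set_option autoImplicit false

namespace Pool.Agent.Helper20.OP

/-- the restriction to a subset -/
def restr {b : ℕ} {V : Type} (R : Str b V) (A : Set V) : Str b A := fun r x y => R r x.1 y.1

theorem gen_of_split {b : ℕ} (K : ∀ V : Type, Str b V → Prop)
    (hsub : ∀ (V : Type) (R : Str b V) (A : Set V), K V R → K A (restr R A))
    (hsplit : ∀ (V : Type) (_ : Finite V) (R : Str b V), K V R → (∃ x y : V, x ≠ y) →
      ∃ A : Set V, A.Nonempty ∧ Aᶜ.Nonempty ∧ ∃ c d : Fin b → Prop,
        ∀ r, ∀ x ∈ A, ∀ y ∈ Aᶜ, (R r x y ↔ c r) ∧ (R r y x ↔ d r))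
    (V : Type) [Finite V] [Nonempty V] (R : Str b V) (h : K V R) : Gen b V R := by
  induction hn : Nat.card V using Nat.strong_induction_on generalizing V with
  | _ n ih =>
    by_cases hxy : ∃ x y : V, x ≠ y
    · obtain ⟨A, hA, hA', c, d, hcd⟩ := hsplit V inferInstance R h hxy
      obtain ⟨a, ha⟩ := hA
      obtain ⟨a', ha'⟩ := hA'
      have fA : Finite A := inferInstance
      have fA' : Finite (Aᶜ : Set V) := inferInstance
      have nA : Nonempty A := ⟨⟨a, ha⟩⟩
      have nA' : Nonempty (Aᶜ : Set V) := ⟨⟨a', ha'⟩⟩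
      have hlt : ∀ B : Set V, (∃ z, z ∉ B) → Nat.card B < n := by
        intro B hB
        obtain ⟨z, hz⟩ := hB
        rw [← hn, Nat.card_coe_set_eq, ← Set.ncard_univ]
        apply Set.ncard_lt_ncard _ (Set.toFinite _)
        refine ⟨Set.subset_univ _, fun hh => hz (hh (Set.mem_univ z))⟩
      have h1 : Gen b A (restr R A) :=
        ih (Nat.card A) (hlt A ⟨a', ha'⟩) A (restr R A) (hsub V R A h) rfl
      have h2 : Gen b (Aᶜ : Set V) (restr R Aᶜ) :=
        ih (Nat.card (Aᶜ : Set V)) (hlt Aᶜ ⟨a, fun hh => hh ha⟩) (Aᶜ : Set V) (restr R Aᶜ)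
          (hsub V R Aᶜ h) rfl
      have h3 := Gen.sum A (Aᶜ : Set V) _ _ c d h1 h2
      classical
      have h4 := Gen.iso _ V (Equiv.Set.sumCompl A) _ h3
      have e : (fun r (x y : V) => usum c d (restr R A) (restr R Aᶜ) r
          ((Equiv.Set.sumCompl A).symm x) ((Equiv.Set.sumCompl A).symm y)) = R := by
        funext r x y
        apply propext
        by_cases hx : x ∈ A
        · by_cases hy : y ∈ A
          · rw [Equiv.Set.sumCompl_symm_apply_of_mem hx, Equiv.Set.sumCompl_symm_apply_of_mem hy]
            exact Iff.rfl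
          · rw [Equiv.Set.sumCompl_symm_apply_of_mem hx, Equiv.Set.sumCompl_symm_apply_of_notMem hy]
            exact (hcd r x hx y hy).1.symm
        · by_cases hy : y ∈ A
          · rw [Equiv.Set.sumCompl_symm_apply_of_notMem hx, Equiv.Set.sumCompl_symm_apply_of_mem hy]
            exact (hcd r y hy x hx).2.symm
          · rw [Equiv.Set.sumCompl_symm_apply_of_notMem hx,
              Equiv.Set.sumCompl_symm_apply_of_notMem hy]
            exact Iff.rfl
      rw [e] at h4
      exact h4
    · push Not at hxy
      apply Gen.one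
      have : Subsingleton V := ⟨hxy⟩
      exact Nat.card_unique

end Pool.Agent.Helper20.OP
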