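import Pool.Agent.Helper20.OP.Seinsche
import Pool.Agent.Helper20.OP.Defs

/-!
# Block OP-T9: quasi-orders without `N` split

`le`: a quasi-order (reflexive, transitive) on a finite set with at least two elements, such that the graph
`G x y := x ≠ y ∧ (le x y ∨ le y x)` has no induced path on four vertices.

Proof.  Apply `seinsche` to `G`.
(1) There are no `G`-edges between `A` and `Aᶜ`: then `c = d = False`.
(2) All pairs between `A` and `Aᶜ` are in `G`.  Let `H x y := x ≠ y ∧ ¬ le x y ∧ ¬ le y x` (incomparable).  `V` is finite,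
so there is an `x₀` with `∀ z, le z x₀ → le x₀ z` (minimal; e.g. minimise the number of elements below).  Let `C` be the
set of the `y` with `Relation.ReflTransGen H x₀ y`.  `C ≠ V`, as there are no `H`-edges between `A` and `Aᶜ`
(so `C ⊆ A` or `C ⊆ Aᶜ`).  Let `z ∉ C`: `z` is comparable to all `y ∈ C`.  If `y, y' ∈ C` and `H y y'`, then `le y z ↔ le y' z`
(if `le y z` and not `le y' z` then `le z y'`, so `le y y'`, a contradiction); so for all `y ∈ C`: `le y z ↔ le x₀ z`; and
`le x₀ z` holds, as `z` is comparable to `x₀`, and `le z x₀ → le x₀ z`.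
 (2a) `C` has two elements: for `y ∈ C` there is `y' ∈ C` with `H y y'` (the first step of a path in `C` from `y` to another
 element).  If `le z y` for a `z ∉ C` then `le y' z`, `le z y`, so `le y' y`, a contradiction.  So `A := C`, `c = True`, `d = False`.
 (2b) `C = {x₀}`.  Let `E := {z | le z x₀}` (all its elements are equivalent to `x₀`).  If `E ≠ V`: `A := E`, `c = True`,
 `d = False` (for `y ∈ E`, `z ∉ E`: `le y x₀`, `le x₀ z`; `le z y` would give `le z x₀`).  If `E = V`: all elements are equivalent,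
 `A := {x₀}`, `c = d = True`.

The statement for partial orders follows (block at the end of this file): for a strict order `lt` use
`le x y := x = y ∨ lt x y`; then `lt x y ↔ le x y` for `x ≠ y`.
-/

set_option autoImplicit false

namespace Pool.Agent.Helper20.OP

theorem split_quasi {V : Type} [Finite V] (le : V → V → Prop) (hr : ∀ x, le x x)
    (ht : ∀ x y z, le x y → le y z → le x z)
    (h4 : ¬ HasP4 (fun x y => x ≠ y ∧ (le x y ∨ le y x))) (h2 : ∃ x y : V, x ≠ y) :
    ∃ A : Set V, A.Nonempty ∧ Aᶜ.Nonempty ∧ ∃ c d : Prop,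
      ∀ x ∈ A, ∀ y ∈ Aᶜ, (le x y ↔ c) ∧ (le y x ↔ d) := by
  classical
  obtain ⟨A, hA, hA', hG⟩ := seinsche (fun x y => x ≠ y ∧ (le x y ∨ le y x))
    (fun x y h => ⟨h.1.symm, h.2.symm⟩) h4 h2
  have hne : ∀ x ∈ A, ∀ y ∈ Aᶜ, x ≠ y := fun x hx y hy e => hy (e ▸ hx)
  rcases hG with hG | hG
  · refine ⟨A, hA, hA', False, False, fun x hx y hy => ⟨?_, ?_⟩⟩
    · rw [iff_false]
      exact fun h => hG x hx y hy ⟨hne x hx y hy, Or.inl h⟩
    · rw [iff_false]
      exact fun h => hG x hx y hy ⟨hne x hx y hy, Or.inr h⟩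
  · -- a minimal element
    obtain ⟨x₀, hx₀⟩ : ∃ x₀, ∀ z, le z x₀ → le x₀ z := by
      have := Fintype.ofFinite V
      obtain ⟨x₀, -, h⟩ := Finset.exists_min_image Finset.univ
        (fun x => (Finset.univ.filter (fun z => le z x)).card) ⟨h2.choose, Finset.mem_univ _⟩
      refine ⟨x₀, fun z hz => ?_⟩
      by_contra hn
      have hsub : Finset.univ.filter (fun w => le w z) ⊂
          Finset.univ.filter (fun w => le w x₀) := by
        rw [Finset.ssubset_iff_of_subset]
        · refine ⟨x₀, ?_, ?_⟩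
          · rw [Finset.mem_filter]
            exact ⟨Finset.mem_univ _, hr x₀⟩
          · rw [Finset.mem_filter]
            exact fun h => hn h.2
        · intro w hw
          rw [Finset.mem_filter] at hw ⊢
          exact ⟨Finset.mem_univ _, ht _ _ _ hw.2 hz⟩
      exact absurd (Finset.card_lt_card hsub) (not_lt.mpr (h z (Finset.mem_univ _)))
    let H : V → V → Prop := fun x y => ¬ le x y ∧ ¬ le y x
    have hHs : ∀ x y, H x y → H y x := fun x y h => ⟨h.2, h.1⟩
    let C : Set V := {y | Relation.ReflTransGen H x₀ y}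
    have hx₀C : x₀ ∈ C := Relation.ReflTransGen.refl
    have hcross : ∀ y y', H y y' → (y ∈ A ↔ y' ∈ A) := by
      intro y y' h
      constructor
      · intro hy
        by_contra hy'
        rcases (hG y hy y' hy').2 with h3 | h3
        · exact h.1 h3
        · exact h.2 h3
      · intro hy'
        by_contra hy
        rcases (hG y' hy' y hy).2 with h3 | h3
        · exact h.2 h3
        · exact h.1 h3
    have hside : ∀ y ∈ C, (x₀ ∈ A ↔ y ∈ A) := by
      intro y hy
      induction hy with
      | refl => exact Iff.rfl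
      | tail _ h ih => exact ih.trans (hcross _ _ h)
    have hCne : Cᶜ.Nonempty := by
      by_cases hx : x₀ ∈ A
      · obtain ⟨z, hz⟩ := hA'
        exact ⟨z, fun hzC => hz ((hside z hzC).mp hx)⟩
      · obtain ⟨z, hz⟩ := hA
        exact ⟨z, fun hzC => hx ((hside z hzC).mpr hz)⟩
    have hcomp : ∀ y ∈ C, ∀ z ∉ C, le y z ∨ le z y := by
      intro y hy z hz
      by_contra hn
      rw [not_or] at hn
      exact hz (Relation.ReflTransGen.tail hy ⟨hn.1, hn.2⟩)
    have hle : ∀ z ∉ C, ∀ y ∈ C, le y z := by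
      intro z hz y hy
      induction hy with
      | refl =>
        rcases hcomp x₀ hx₀C z hz with h | h
        · exact h
        · exact hx₀ z h
      | @tail y y' hy h ih =>
        rcases hcomp y' (Relation.ReflTransGen.tail hy h) z hz with h3 | h3
        · exact h3
        · exact absurd (ht _ _ _ ih h3) h.1
    by_cases hC : ∃ y ∈ C, y ≠ x₀
    · have hnb : ∀ y ∈ C, ∃ y' ∈ C, H y y' := by
        intro y hy
        by_cases hyx : y = x₀
        · obtain ⟨y1, hy1, hne1⟩ := hC
          rcases Relation.ReflTransGen.cases_head hy1 with h | ⟨c, hc, -⟩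
          · exact absurd h.symm hne1
          · exact ⟨c, Relation.ReflTransGen.single hc, hyx ▸ hc⟩
        · rcases Relation.ReflTransGen.cases_tail hy with h | ⟨c, hc, hcy⟩
          · exact absurd h hyx
          · exact ⟨c, hc, hHs _ _ hcy⟩
      refine ⟨C, ⟨x₀, hx₀C⟩, hCne, True, False, fun y hy z hz => ⟨?_, ?_⟩⟩
      · rw [iff_true]
        exact hle z hz y hy
      · rw [iff_false]
        intro h
        obtain ⟨y', hy', hyy'⟩ := hnb y hy
        exact hyy'.2 (ht _ _ _ (hle z hz y' hy') h)
    · push Not at hC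
      have hmin : ∀ z, le x₀ z := by
        intro z
        by_cases hz : z = x₀
        · rw [hz]
          exact hr x₀
        · exact hle z (fun h => hz (hC z h)) x₀ hx₀C
      by_cases hE : ∃ w, ¬ le w x₀
      · refine ⟨{z | le z x₀}, ⟨x₀, hr x₀⟩, hE, True, False, fun y hy z hz => ⟨?_, ?_⟩⟩
        · rw [iff_true]
          exact ht _ _ _ hy (hmin z)
        · rw [iff_false]
          intro h
          exact hz (ht _ _ _ h hy)
      · push Not at hE
        refine ⟨{x₀}, ⟨x₀, rfl⟩, ?_, True, True, fun y hy z hz => ⟨?_, ?_⟩⟩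
        · obtain ⟨a, b, hab⟩ := h2
          by_cases ha : a = x₀
          · exact ⟨b, fun hb => hab (ha.trans (Set.mem_singleton_iff.mp hb).symm)⟩
          · exact ⟨a, fun h => ha (Set.mem_singleton_iff.mp h)⟩
        · rw [iff_true, Set.mem_singleton_iff.mp hy]
          exact hmin z
        · rw [iff_true, Set.mem_singleton_iff.mp hy]
          exact hE z

theorem split_poset {V : Type} [Finite V] (lt : V → V → Prop) (hi : ∀ x, ¬ lt x x)
    (ht : ∀ x y z, lt x y → lt y z → lt x z)
    (h4 : ¬ HasP4 (fun x y => lt x y ∨ lt y x)) (h2 : ∃ x y : V, x ≠ y) :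
    ∃ A : Set V, A.Nonempty ∧ Aᶜ.Nonempty ∧ ∃ c d : Prop,
      ∀ x ∈ A, ∀ y ∈ Aᶜ, (lt x y ↔ c) ∧ (lt y x ↔ d) := by
  have hne : ∀ x y, lt x y → x ≠ y := fun x y h e => hi y (by rwa [e] at h)
  have e : (fun x y : V => x ≠ y ∧ ((x = y ∨ lt x y) ∨ (y = x ∨ lt y x))) =
      (fun x y => lt x y ∨ lt y x) := by
    funext x y
    apply propext
    constructor
    · rintro ⟨h, (h3 | h3) | (h3 | h3)⟩
      · exact absurd h3 h
      · exact Or.inl h3
      · exact absurd h3.symm h
      · exact Or.inr h3
    · rintro (h | h)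
      · exact ⟨hne _ _ h, Or.inl (Or.inr h)⟩
      · exact ⟨(hne _ _ h).symm, Or.inr (Or.inr h)⟩
  obtain ⟨A, hA, hA', c, d, h⟩ := split_quasi (fun x y => x = y ∨ lt x y) (fun x => Or.inl rfl)
    (by
      rintro x y z (rfl | h) (rfl | h')
      · exact Or.inl rfl
      · exact Or.inr h'
      · exact Or.inr h
      · exact Or.inr (ht _ _ _ h h')) (by rw [e]; exact h4) h2
  refine ⟨A, hA, hA', c, d, fun x hx y hy => ?_⟩
  have hxy : x ≠ y := fun e => hy (e ▸ hx)
  have h1 := h x hx y hy
  constructor
  · rw [← h1.1]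
    exact ⟨fun h => Or.inr h, fun h => h.resolve_left hxy⟩
  · rw [← h1.2]
    exact ⟨fun h => Or.inr h, fun h => h.resolve_left hxy.symm⟩

end Pool.Agent.Helper20.OP
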