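import Pool.Agent.Helper20.OP.Seinsche
import Pool.Agent.Helper20.OP.Defs

/-!
# Block OP-T10: separable permutations split

`r₀`, `r₁`: two strict linear orders on a finite set with at least two elements, such that the inversion graph
`G x y := (r₀ x y ∧ r₁ y x) ∨ (r₀ y x ∧ r₁ x y)` has no induced path on four vertices.

Proof.  Apply `seinsche` to `G`.
(1) There are no `G`-edges between `A` and `Aᶜ`.  Let `x₀` be the `r₀`-least element and `C` the set of the `y` with
`Relation.ReflTransGen G x₀ y`.  `C ≠ V` (`C ⊆ A` or `C ⊆ Aᶜ`).  Let `z ∉ C`; `z` forms no inversion with any `y ∈ C`, so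
`(r₀ y z ∧ r₁ y z)` or `(r₀ z y ∧ r₁ z y)`.  If `y, y' ∈ C`, `G y y'` and `y` is below `z` in both orders, `y'` above `z` in both
orders, then `y` is below `y'` in both orders, a contradiction.  So all `y ∈ C` are on the same side of `z` as `x₀`,
which is below.  So `A := C`, all `c r = True`, all `d r = False`.
(2) All pairs between `A` and `Aᶜ` are in `G`: apply (1) to the orders `r₀` and the reverse of `r₁` (the inversion
graph of which is the complement of `G` on pairs `x ≠ y`; a split without edges between the parts).  So `A := C`,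
`r₀ y z`, `r₁ z y` for all `y ∈ C`, `z ∉ C`.
(Prove first a lemma for (1) with the hypothesis that there is a nonempty proper `A` without `G`-edges to `Aᶜ`.)
-/

set_option autoImplicit false

namespace Pool.Agent.Helper20.OP

/-- case (1) of the proof -/
private lemma split_aux {V : Type} [Finite V] (r0 r1 : V → V → Prop) (h0 : StrictLin r0) (h1 : StrictLin r1)
    (A : Set V) (hA : A.Nonempty) (hA' : Aᶜ.Nonempty)
    (hE : ∀ x ∈ A, ∀ y ∈ Aᶜ, ¬ ((r0 x y ∧ r1 y x) ∨ (r0 y x ∧ r1 x y))) :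
    ∃ C : Set V, C.Nonempty ∧ Cᶜ.Nonempty ∧ ∀ y ∈ C, ∀ z ∈ Cᶜ, r0 y z ∧ r1 y z := by
  obtain ⟨i0, t0, l0⟩ := h0
  obtain ⟨i1, t1, l1⟩ := h1
  have hwf : WellFounded r0 := by
    haveI : IsTrans V r0 := ⟨t0⟩
    haveI : Std.Irrefl r0 := ⟨i0⟩
    exact Finite.wellFounded_of_trans_of_irrefl r0
  have hne : (Set.univ : Set V).Nonempty := ⟨hA.some, trivial⟩
  obtain ⟨x0, hx0⟩ : ∃ x0 : V, ∀ y, y ≠ x0 → r0 x0 y := by
    refine ⟨hwf.min Set.univ hne, fun y hy => ?_⟩
    rcases l0 (hwf.min Set.univ hne) y with h | h | h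
    · exact h
    · exact absurd h.symm hy
    · exact absurd h (hwf.not_lt_min Set.univ (Set.mem_univ y))
  have hsymE : ∀ x ∈ Aᶜ, ∀ y ∈ A, ¬ ((r0 x y ∧ r1 y x) ∨ (r0 y x ∧ r1 x y)) := by
    intro x hx y hy h
    exact hE y hy x hx (h.symm)
  have hstay : ∀ S : Set V, x0 ∈ S →
      (∀ x ∈ S, ∀ y ∈ Sᶜ, ¬ ((r0 x y ∧ r1 y x) ∨ (r0 y x ∧ r1 x y))) →
      ∀ y, Relation.ReflTransGen (fun x y => (r0 x y ∧ r1 y x) ∨ (r0 y x ∧ r1 x y)) x0 y → y ∈ S := by
    intro S hS hSE y hy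
    induction hy with
    | refl => exact hS
    | tail _ hbc ih =>
      by_contra hc
      exact hSE _ ih _ hc hbc
  refine ⟨{y | Relation.ReflTransGen (fun x y => (r0 x y ∧ r1 y x) ∨ (r0 y x ∧ r1 x y)) x0 y},
    ⟨x0, Relation.ReflTransGen.refl⟩, ?_, ?_⟩
  · by_cases hx : x0 ∈ A
    · obtain ⟨w, hw⟩ := hA'
      exact ⟨w, fun h => hw (hstay A hx hE w h)⟩
    · obtain ⟨w, hw⟩ := hA
      refine ⟨w, fun h => ?_⟩
      exact (hstay Aᶜ hx (fun x hx y hy => hsymE x hx y (by simpa using hy)) w h) hw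
  · intro y hy z hz
    have key : ∀ y, Relation.ReflTransGen (fun x y => (r0 x y ∧ r1 y x) ∨ (r0 y x ∧ r1 x y)) x0 y →
        r0 y z ∧ r1 y z := by
      have dich : ∀ y, Relation.ReflTransGen (fun x y => (r0 x y ∧ r1 y x) ∨ (r0 y x ∧ r1 x y)) x0 y →
          (r0 y z ∧ r1 y z) ∨ (r0 z y ∧ r1 z y) := by
        intro y hy
        have hng : ¬ ((r0 y z ∧ r1 z y) ∨ (r0 z y ∧ r1 y z)) := fun h => hz (hy.tail h)
        have hne : y ≠ z := fun h => hz (h ▸ hy)
        rcases l0 y z with h | h | h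
        · rcases l1 y z with h' | h' | h'
          · exact Or.inl ⟨h, h'⟩
          · exact absurd h' hne
          · exact absurd (Or.inl ⟨h, h'⟩) hng
        · exact absurd h hne
        · rcases l1 y z with h' | h' | h'
          · exact absurd (Or.inr ⟨h, h'⟩) hng
          · exact absurd h' hne
          · exact Or.inr ⟨h, h'⟩
      intro y hy
      induction hy with
      | refl =>
        have hzx : z ≠ x0 := fun h => hz (h ▸ Relation.ReflTransGen.refl)
        have h := hx0 z hzx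
        rcases dich x0 Relation.ReflTransGen.refl with h' | h'
        · exact h'
        · exact absurd (t0 _ _ _ h h'.1) (i0 _)
      | @tail b c hb hbc ih =>
        rcases dich c (hb.tail hbc) with h' | h'
        · exact h'
        · have e0 : r0 b c := t0 _ _ _ ih.1 h'.1
          have e1 : r1 b c := t1 _ _ _ ih.2 h'.2
          rcases hbc with h | h
          · exact absurd (t1 _ _ _ e1 h.2) (i1 _)
          · exact absurd (t0 _ _ _ e0 h.1) (i0 _)
    exact key y hy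

theorem split_perm {V : Type} [Finite V] (R : Str 2 V) (h0 : StrictLin (R 0)) (h1 : StrictLin (R 1))
    (h4 : ¬ HasP4 (fun x y => (R 0 x y ∧ R 1 y x) ∨ (R 0 y x ∧ R 1 x y)))
    (h2 : ∃ x y : V, x ≠ y) :
    ∃ A : Set V, A.Nonempty ∧ Aᶜ.Nonempty ∧ ∃ c d : Fin 2 → Prop,
      ∀ r, ∀ x ∈ A, ∀ y ∈ Aᶜ, (R r x y ↔ c r) ∧ (R r y x ↔ d r) := by
  have hG : ∀ x y : V, ((R 0 x y ∧ R 1 y x) ∨ (R 0 y x ∧ R 1 x y)) →
      ((R 0 y x ∧ R 1 x y) ∨ (R 0 x y ∧ R 1 y x)) := fun x y h => h.symm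
  have as0 : ∀ x y, R 0 x y → ¬ R 0 y x := fun x y h h' => h0.1 _ (h0.2.1 _ _ _ h h')
  have as1 : ∀ x y, R 1 x y → ¬ R 1 y x := fun x y h h' => h1.1 _ (h1.2.1 _ _ _ h h')
  obtain ⟨A, hA, hA', hcase⟩ := seinsche _ hG h4 h2
  rcases hcase with hno | hall
  · obtain ⟨C, hC, hC', hCE⟩ := split_aux (R 0) (R 1) h0 h1 A hA hA' hno
    refine ⟨C, hC, hC', fun _ => True, fun _ => False, ?_⟩
    intro r x hx y hy
    obtain ⟨e0, e1⟩ := hCE x hx y hy
    fin_cases r
    · exact ⟨iff_of_true e0 trivial, iff_of_false (as0 _ _ e0) id⟩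
    · exact ⟨iff_of_true e1 trivial, iff_of_false (as1 _ _ e1) id⟩
  · have h1' : StrictLin (fun x y => R 1 y x) := by
      refine ⟨h1.1, fun x y z h h' => h1.2.1 _ _ _ h' h, fun x y => ?_⟩
      rcases h1.2.2 x y with h | h | h
      · exact Or.inr (Or.inr h)
      · exact Or.inr (Or.inl h)
      · exact Or.inl h
    obtain ⟨C, hC, hC', hCE⟩ := split_aux (R 0) (fun x y => R 1 y x) h0 h1' A hA hA' (by
      intro x hx y hy h
      rcases hall x hx y hy with g | g <;> rcases h with h | h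
      · exact as1 _ _ g.2 h.2
      · exact as0 _ _ g.1 h.1
      · exact as0 _ _ g.1 h.1
      · exact as1 _ _ g.2 h.2)
    refine ⟨C, hC, hC', fun r => r = 0, fun r => r = 1, ?_⟩
    intro r x hx y hy
    obtain ⟨e0, e1⟩ := hCE x hx y hy
    fin_cases r
    · exact ⟨iff_of_true e0 rfl, iff_of_false (as0 _ _ e0) (by decide)⟩
    · exact ⟨iff_of_false (as1 _ _ e1) (by decide), iff_of_true e1 rfl⟩

end Pool.Agent.Helper20.OP
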