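import Pool.Agent.Helper20.OP.H.Avoid

/-!
# Block OP-P3: permutation patterns

A pair `P` of strict linear orders on `Fin s` which does not embed into both 2413 and 3142 contains
one of the patterns 123, 321, 2143, 3412, 2413, 3142.

Proof.  Suppose that `P` contains neither 123 nor 321.  Then `s ≤ 4` (a sequence of five different numbers has a monotone
subsequence of length three; for five elements this is a finite check over the 120 permutations, or Erdos-Szekeres).
Sort the elements by the first order: `P` is isomorphic to `patt σ` for a permutation `σ` of `Fin s`.  `s = 4`: the permutations of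
length four without 123 and 321 are 2143, 2413, 3142, 3412.  `s ≤ 3`: the permutations of length `≤ 3` other than 123, 321
embed into 2413 and into 3142 (2413: `1`, `12 = 24`, `21 = 21`, `132 = 243`, `213 = 213`, `231 = 241`, `312 = 413`;
3142: `12 = 34`, `21 = 31`, `132 = 142`, `213 = 314`, `231 = 342`, `312 = 312`), a contradiction.
-/

set_option autoImplicit false

namespace Pool.Agent.Helper20.OP

private lemma exists_sorted {V : Type} [Fintype V] {s : ℕ} (hc : Fintype.card V = s)
    (r : V → V → Prop) (h : StrictLin r) : ∃ x : Fin s ≃ V, ∀ i j, r (x i) (x j) ↔ i < j := by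
  classical
  have : IsStrictTotalOrder V r :=
    { irrefl := h.1
      trans := h.2.1
      trichotomous := fun a b h1 h2 => by
        rcases h.2.2 a b with h3 | h3 | h3
        · exact absurd h3 h1
        · exact h3
        · exact absurd h3 h2 }
  let _ : LinearOrder V := linearOrderOfSTO r
  refine ⟨(Fintype.orderIsoFinOfCardEq V hc).toEquiv, fun i j => ?_⟩
  have := (Fintype.orderIsoFinOfCardEq V hc).lt_iff_lt (x := i) (y := j)
  exact this

/-- an increasing sequence for the first order with the second order known on increasing pairs -/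
private lemma emb_of_seq {V : Type} (R : Str 2 V) (h0 : StrictLin (R 0)) (h1 : StrictLin (R 1))
    {k : ℕ} (τ : Fin k → ℕ) (hτ : ∀ i j, i < j → τ i ≠ τ j) (f : Fin k → V)
    (hf : ∀ i j, i < j → R 0 (f i) (f j)) (hg : ∀ i j, i < j → (R 1 (f i) (f j) ↔ τ i < τ j)) :
    Emb (patt τ) R := by
  have hinj : Function.Injective f := by
    intro i j hij
    rcases lt_trichotomy i j with h | h | h
    · exact absurd (hf i j h) (by rw [hij]; exact h0.1 _)
    · exact h
    · exact absurd (hf j i h) (by rw [hij]; exact h0.1 _)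
  refine ⟨f, hinj, ?_⟩
  intro r i j
  have hr : r = 0 ∨ r = 1 := by omega
  rcases hr with rfl | rfl
  · simp only [patt, if_true]
    constructor
    · exact hf i j
    · intro h
      rcases lt_trichotomy i j with h' | h' | h'
      · exact h'
      · subst h'; exact absurd h (h0.1 _)
      · exact absurd (h0.2.1 _ _ _ h (hf j i h')) (h0.1 _)
  · simp only [patt, if_neg (show ¬ (1 : Fin 2) = 0 by decide)]
    rcases lt_trichotomy i j with h' | h' | h'
    · exact (hg i j h').symm
    · subst h'
      exact ⟨fun h => absurd h (lt_irrefl _), fun h => absurd h (h1.1 _)⟩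
    · have h2 := hg j i h'
      have h3 := hτ j i h'
      constructor
      · intro h4
        rcases h1.2.2 (f i) (f j) with h5 | h5 | h5
        · exact h5
        · exact absurd (hinj h5).symm (ne_of_lt h')
        · have := h2.1 h5
          omega
      · intro h4
        by_contra h5
        have : τ j < τ i := by omega
        exact h1.1 _ (h1.2.1 _ _ _ h4 (h2.2 this))

private lemma emb_into {s : ℕ} (P : Str 2 (Fin s)) (h1 : StrictLin (P 1))
    (x : Fin s ≃ Fin s) (hx : ∀ i j, P 0 (x i) (x j) ↔ i < j) (Q : Str 2 (Fin 4)) (τ : Fin 4 → ℕ)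
    (hτ : Function.Injective τ) (hQ0 : ∀ a b, Q 0 a b ↔ a < b)
    (hQ1 : ∀ a b, Q 1 a b ↔ τ a < τ b) (f : Fin s → Fin 4) (hf : StrictMono f)
    (hg : ∀ i j, i < j → (P 1 (x i) (x j) ↔ τ (f i) < τ (f j))) : Emb P Q := by
  refine ⟨fun a => f (x.symm a), hf.injective.comp x.symm.injective, ?_⟩
  intro r a b
  obtain ⟨i, rfl⟩ := x.surjective a
  obtain ⟨j, rfl⟩ := x.surjective b
  simp only [Equiv.symm_apply_apply]
  have hr : r = 0 ∨ r = 1 := by omega
  rcases hr with rfl | rfl
  · rw [hx, hQ0]
    exact hf.lt_iff_lt.symm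
  · rw [hQ1]
    rcases lt_trichotomy i j with h' | h' | h'
    · exact hg i j h'
    · subst h'
      exact ⟨fun h => absurd h (h1.1 _), fun h => absurd h (lt_irrefl _)⟩
    · have h2 := hg j i h'
      have h3 : τ (f j) ≠ τ (f i) := fun h => (ne_of_lt h') (hf.injective (hτ h))
      constructor
      · intro h4
        by_contra h5
        have : τ (f j) < τ (f i) := by omega
        exact h1.1 _ (h1.2.1 _ _ _ h4 (h2.2 this))
      · intro h4
        rcases h1.2.2 (x i) (x j) with h5 | h5 | h5
        · exact h5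
        · exact absurd (x.injective h5).symm (ne_of_lt h')
        · have := h2.1 h5
          omega

/-- the pairs `(0, 1, 2)` -/
private lemma no_mono {s : ℕ} (P : Str 2 (Fin s)) (h0 : StrictLin (P 0)) (h1 : StrictLin (P 1))
    (x : Fin s ≃ Fin s) (hx : ∀ i j, P 0 (x i) (x j) ↔ i < j)
    (hA : ¬ Emb (patt ![1, 2, 3]) P) (hB : ¬ Emb (patt ![3, 2, 1]) P) (i j k : Fin s)
    (hij : i < j) (hjk : j < k) : (P 1 (x i) (x j) ↔ ¬ P 1 (x j) (x k)) := by
  have hik := hij.trans hjk
  constructor
  · intro h2 h3
    apply hA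
    refine emb_of_seq P h0 h1 _ ?_ ![x i, x j, x k] ?_ ?_
    · decide
    · intro a b hab
      fin_cases a <;> fin_cases b <;> simp_all
    · intro a b hab
      have := h1.2.1 _ _ _ h2 h3
      fin_cases a <;> fin_cases b <;> simp_all
  · intro h2
    by_contra h3
    apply hB
    have anti : ∀ a b : Fin s, a < b → ¬ P 1 (x a) (x b) → P 1 (x b) (x a) := by
      intro a b hab h
      rcases h1.2.2 (x a) (x b) with h5 | h5 | h5
      · exact absurd h5 h
      · exact absurd (x.injective h5) (ne_of_lt hab)
      · exact h5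
    have h4 := h1.2.1 _ _ _ (anti _ _ hjk h2) (anti _ _ hij h3)
    have h5 : ¬ P 1 (x i) (x k) := fun h => h1.1 _ (h1.2.1 _ _ _ h h4)
    refine emb_of_seq P h0 h1 _ ?_ ![x i, x j, x k] ?_ ?_
    · decide
    · intro a b hab
      fin_cases a <;> fin_cases b <;> simp_all
    · intro a b hab
      fin_cases a <;> fin_cases b <;> simp_all

private lemma crit_dest {Q : Str 2 (Fin 4)} (hQ : Critical Kind.perm Q) :
    (∀ a b, Q 0 a b ↔ a < b) ∧ ∃ τ : Fin 4 → ℕ, (τ = ![2, 4, 1, 3] ∨ τ = ![3, 1, 4, 2]) ∧
      ∀ a b, Q 1 a b ↔ τ a < τ b := by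
  refine ⟨hQ.1, ?_⟩
  rcases hQ.2 with h | h
  · exact ⟨_, Or.inl rfl, h⟩
  · exact ⟨_, Or.inr rfl, h⟩

theorem pat_perm {s : ℕ} (P : Str Kind.perm.rels (Fin s)) (h : Kind.perm.Is P)
    (hP : ¬ ∀ Q, Critical Kind.perm Q → Emb P Q) :
    Emb (patt ![1, 2, 3]) P ∨ Emb (patt ![3, 2, 1]) P ∨ Emb (patt ![2, 1, 4, 3]) P ∨
      Emb (patt ![3, 4, 1, 2]) P ∨ Emb (patt ![2, 4, 1, 3]) P ∨ Emb (patt ![3, 1, 4, 2]) P := by
  change Str 2 (Fin s) at P
  by_cases hA : Emb (patt ![1, 2, 3]) P
  · exact Or.inl hA
  by_cases hB : Emb (patt ![3, 2, 1]) P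
  · exact Or.inr (Or.inl hB)
  right; right
  have h0 : StrictLin (P 0) := h.1
  have h1 : StrictLin (P 1) := h.2
  obtain ⟨x, hx⟩ := exists_sorted (s := s) (by simp) (P 0) h0
  have key := no_mono P h0 h1 x hx hA hB
  by_cases hs : 4 ≤ s
  · set x0 := x ⟨0, by omega⟩ with hx0
    set x1 := x ⟨1, by omega⟩ with hx1
    set x2 := x ⟨2, by omega⟩ with hx2
    set x3 := x ⟨3, by omega⟩ with hx3
    have k012 := key ⟨0, by omega⟩ ⟨1, by omega⟩ ⟨2, by omega⟩ (by simp [Fin.lt_def]) (by simp [Fin.lt_def])
    have k013 := key ⟨0, by omega⟩ ⟨1, by omega⟩ ⟨3, by omega⟩ (by simp [Fin.lt_def]) (by simp [Fin.lt_def])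
    have k123 := key ⟨1, by omega⟩ ⟨2, by omega⟩ ⟨3, by omega⟩ (by simp [Fin.lt_def]) (by simp [Fin.lt_def])
    have k023 := key ⟨0, by omega⟩ ⟨2, by omega⟩ ⟨3, by omega⟩ (by simp [Fin.lt_def]) (by simp [Fin.lt_def])
    rw [← hx0, ← hx1, ← hx2] at k012
    rw [← hx0, ← hx1, ← hx3] at k013
    rw [← hx1, ← hx2, ← hx3] at k123
    rw [← hx0, ← hx2, ← hx3] at k023
    have r01 : P 0 x0 x1 := (hx _ _).2 (by simp [Fin.lt_def])
    have r02 : P 0 x0 x2 := (hx _ _).2 (by simp [Fin.lt_def])
    have r03 : P 0 x0 x3 := (hx _ _).2 (by simp [Fin.lt_def])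
    have r12 : P 0 x1 x2 := (hx _ _).2 (by simp [Fin.lt_def])
    have r13 : P 0 x1 x3 := (hx _ _).2 (by simp [Fin.lt_def])
    have r23 : P 0 x2 x3 := (hx _ _).2 (by simp [Fin.lt_def])
    clear_value x0 x1 x2 x3
    by_cases c01 : P 1 x0 x1
    · have c12 : ¬ P 1 x1 x2 := k012.1 c01
      have c13 : ¬ P 1 x1 x3 := k013.1 c01
      have c23 : P 1 x2 x3 := by tauto
      have c02 : ¬ P 1 x0 x2 := by tauto
      by_cases c03 : P 1 x0 x3
      · right; right; left
        refine emb_of_seq P h0 h1 _ (by decide) ![x0, x1, x2, x3] ?_ ?_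
        · intro a b hab
          fin_cases a <;> fin_cases b <;> simp_all
        · intro a b hab
          fin_cases a <;> fin_cases b <;> simp_all
      · right; left
        refine emb_of_seq P h0 h1 _ (by decide) ![x0, x1, x2, x3] ?_ ?_
        · intro a b hab
          fin_cases a <;> fin_cases b <;> simp_all
        · intro a b hab
          fin_cases a <;> fin_cases b <;> simp_all
    · have c12 : P 1 x1 x2 := by tauto
      have c13 : P 1 x1 x3 := by tauto
      have c23 : ¬ P 1 x2 x3 := by tauto
      have c02 : P 1 x0 x2 := by tauto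
      by_cases c03 : P 1 x0 x3
      · left
        refine emb_of_seq P h0 h1 _ (by decide) ![x0, x1, x2, x3] ?_ ?_
        · intro a b hab
          fin_cases a <;> fin_cases b <;> simp_all
        · intro a b hab
          fin_cases a <;> fin_cases b <;> simp_all
      · right; right; right
        refine emb_of_seq P h0 h1 _ (by decide) ![x0, x1, x2, x3] ?_ ?_
        · intro a b hab
          fin_cases a <;> fin_cases b <;> simp_all
        · intro a b hab
          fin_cases a <;> fin_cases b <;> simp_all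
  · exfalso
    apply hP
    intro Q hQ
    obtain ⟨hQ0, τ, hτ, hQ1⟩ := crit_dest hQ
    have hτi : Function.Injective τ := by
      rcases hτ with rfl | rfl <;> decide
    have hs' : s = 0 ∨ s = 1 ∨ s = 2 ∨ s = 3 := by omega
    rcases hs' with rfl | rfl | rfl | rfl
    · exact emb_into P h1 x hx Q τ hτi hQ0 hQ1 (fun i => i.elim0) (fun i => i.elim0)
        (fun i => i.elim0)
    · exact emb_into P h1 x hx Q τ hτi hQ0 hQ1 (fun i => 0)
        (fun i j hij => by omega) (fun i j hij => by omega)
    · by_cases c : P 1 (x 0) (x 1)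
      · rcases hτ with rfl | rfl
        · exact emb_into P h1 x hx Q _ hτi hQ0 hQ1 ![0, 1] (by decide)
            (fun i j hij => by fin_cases i <;> fin_cases j <;> simp_all)
        · exact emb_into P h1 x hx Q _ hτi hQ0 hQ1 ![0, 2] (by decide)
            (fun i j hij => by fin_cases i <;> fin_cases j <;> simp_all)
      · rcases hτ with rfl | rfl
        · exact emb_into P h1 x hx Q _ hτi hQ0 hQ1 ![0, 2] (by decide)
            (fun i j hij => by fin_cases i <;> fin_cases j <;> simp_all)
        · exact emb_into P h1 x hx Q _ hτi hQ0 hQ1 ![0, 1] (by decide)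
            (fun i j hij => by fin_cases i <;> fin_cases j <;> simp_all)
    · have k012 := key 0 1 2 (by decide) (by decide)
      by_cases c : P 1 (x 0) (x 1)
      · have c' : ¬ P 1 (x 1) (x 2) := k012.1 c
        by_cases d : P 1 (x 0) (x 2)
        · rcases hτ with rfl | rfl
          · exact emb_into P h1 x hx Q _ hτi hQ0 hQ1 ![0, 1, 3] (by decide)
              (fun i j hij => by fin_cases i <;> fin_cases j <;> simp_all)
          · exact emb_into P h1 x hx Q _ hτi hQ0 hQ1 ![1, 2, 3] (by decide)
              (fun i j hij => by fin_cases i <;> fin_cases j <;> simp_all)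
        · rcases hτ with rfl | rfl
          · exact emb_into P h1 x hx Q _ hτi hQ0 hQ1 ![0, 1, 2] (by decide)
              (fun i j hij => by fin_cases i <;> fin_cases j <;> simp_all)
          · exact emb_into P h1 x hx Q _ hτi hQ0 hQ1 ![0, 2, 3] (by decide)
              (fun i j hij => by fin_cases i <;> fin_cases j <;> simp_all)
      · have c' : P 1 (x 1) (x 2) := by tauto
        by_cases d : P 1 (x 0) (x 2)
        · rcases hτ with rfl | rfl
          · exact emb_into P h1 x hx Q _ hτi hQ0 hQ1 ![0, 2, 3] (by decide)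
              (fun i j hij => by fin_cases i <;> fin_cases j <;> simp_all)
          · exact emb_into P h1 x hx Q _ hτi hQ0 hQ1 ![0, 1, 2] (by decide)
              (fun i j hij => by fin_cases i <;> fin_cases j <;> simp_all)
        · rcases hτ with rfl | rfl
          · exact emb_into P h1 x hx Q _ hτi hQ0 hQ1 ![1, 2, 3] (by decide)
              (fun i j hij => by fin_cases i <;> fin_cases j <;> simp_all)
          · exact emb_into P h1 x hx Q _ hτi hQ0 hQ1 ![0, 1, 3] (by decide)
              (fun i j hij => by fin_cases i <;> fin_cases j <;> simp_all)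

end Pool.Agent.Helper20.OP
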