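import Pool.Agent.Helper20.OP.WildOf
import Pool.Agent.Helper20.OP.DefKind
import Pool.Agent.Helper20.OP.PatPerm
import Pool.Agent.Helper20.OP.W.Dim

/-!
# Block OP-W6: permutations

Each time `wild_of_coding` with the class `K = Omit κ P` (definable by `def_omit`) and a definable `τ`.

Permutations (`pat_perm`): 321: `C = WidthTwo`, `τ V R = fun _ x y => R 0 x y ∧ R 1 x y`, `R' = (L₁, L₂)`: a pattern 321 in `R'` is three pairwise
incomparable elements.  123: `τ V R = fun _ x y => R 0 x y ∧ R 1 y x`, `R' = (L₁, L₂ reversed)`.  2143, 3412, 2413: `C = Spiral`, `τ = id`.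
3142: `C = Spiral`, `τ V R = ` (`R 0` reversed, `R 1`), `R' = τ R`: a pattern 3142 in `R'` is a pattern 2413 in `R`.
(`Emb` is transitive, `Emb.trans`: if a pattern embeds in `P` and `P` in `R'` then it embeds in `R'`.)
-/

set_option autoImplicit false

namespace Pool.Agent.Helper20.OP

private lemma rev56 {V : Type} {r : V → V → Prop} (h : StrictLin r) :
    StrictLin (fun x y => r y x) := by
  refine ⟨h.1, fun x y z h1 h2 => h.2.1 _ _ _ h2 h1, fun x y => ?_⟩
  rcases h.2.2 x y with h1 | h1 | h1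
  · exact Or.inr (Or.inr h1)
  · exact Or.inr (Or.inl h1)
  · exact Or.inl h1

private lemma asymm56 {V : Type} {r : V → V → Prop} (h : StrictLin r) {x y : V} (h1 : r x y) :
    ¬ r y x := fun h2 => h.1 x (h.2.1 _ _ _ h1 h2)

private lemma anti56 {V : Type} {R : Str 1 V} {L₁ L₂ : V → V → Prop} (h1 : StrictLin L₁)
    (h2 : StrictLin L₂) (hR : ∀ x y, R 0 x y ↔ L₁ x y ∧ L₂ x y)
    (hw : ∀ x y z : V, x = y ∨ y = z ∨ x = z ∨ R 0 x y ∨ R 0 y x ∨ R 0 y z ∨ R 0 z y ∨
      R 0 x z ∨ R 0 z x) (f : Fin 3 → V) (hf : Function.Injective f)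
    (h : ∀ x y : Fin 3, x < y → L₁ (f x) (f y) ∧ L₂ (f y) (f x)) : False := by
  have key : ∀ x y : Fin 3, x < y → ¬ R 0 (f x) (f y) ∧ ¬ R 0 (f y) (f x) := by
    intro x y hxy
    obtain ⟨h3, h4⟩ := h x y hxy
    refine ⟨fun h5 => ?_, fun h5 => ?_⟩
    · exact asymm56 h2 h4 ((hR _ _).1 h5).2
    · exact asymm56 h1 h3 ((hR _ _).1 h5).1
  have k01 := key 0 1 (by decide)
  have k12 := key 1 2 (by decide)
  have k02 := key 0 2 (by decide)
  rcases hw (f 0) (f 1) (f 2) with h3 | h3 | h3 | h3 | h3 | h3 | h3 | h3 | h3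
  · exact absurd (hf h3) (by decide)
  · exact absurd (hf h3) (by decide)
  · exact absurd (hf h3) (by decide)
  · exact k01.1 h3
  · exact k01.2 h3
  · exact k12.1 h3
  · exact k12.2 h3
  · exact k02.1 h3
  · exact k02.2 h3

/-- the pattern 3142 becomes 2413 if the first order is reversed -/
private lemma emb_rev56 {V : Type} {R R' : Str 2 V} (h0 : ∀ x y, R' 0 x y ↔ R 0 y x)
    (h1 : ∀ x y, R' 1 x y ↔ R 1 x y) (h : Emb (patt ![3, 1, 4, 2]) R') :
    Emb (patt ![2, 4, 1, 3]) R := by
  obtain ⟨f, hf, hr⟩ := h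
  refine ⟨fun i => f (Fin.rev i), fun i j hij => Fin.rev_injective (hf hij), ?_⟩
  intro r x y
  have e : r = 0 ∨ r = 1 := by
    fin_cases r
    · exact Or.inl rfl
    · exact Or.inr rfl
  rcases e with rfl | rfl
  · have h2 := hr 0 (Fin.rev y) (Fin.rev x)
    rw [h0] at h2
    rw [← h2]
    simp [patt]
  · have h2 := hr 1 (Fin.rev x) (Fin.rev y)
    rw [h1] at h2
    rw [← h2]
    simp only [patt, one_ne_zero, if_false]
    fin_cases x <;> fin_cases y <;> decide

private lemma wild_id56 (hH : Coding 2 Spiral) {s : ℕ} (P : Str Kind.perm.rels (Fin s))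
    (h : ∀ (V : Type) (R : Str 2 V), Spiral V R → ¬ Emb P R) : Wild (Omit Kind.perm P) := by
  refine wild_of_coding (b' := 2) hH (def_omit Kind.perm P) (fun _ R => R) (fun r => ?_) ?_
  · exact Def.rel r 0 1
  · intro V _ R hR
    exact ⟨R, ⟨⟨hR.1, hR.2.1⟩, h V R hR⟩, rfl⟩

theorem wild_perm (hW : Coding 1 WidthTwo) (hH : Coding 2 Spiral)
    {s : ℕ} (P : Str Kind.perm.rels (Fin s))
    (h : Kind.perm.Is P) (hP : ¬ ∀ Q, Critical Kind.perm Q → Emb P Q) :
    Wild (Omit Kind.perm P) := by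
  rcases pat_perm P h hP with h1 | h1 | h1 | h1 | h1 | h1
  · refine wild_of_coding (b := 1) (b' := 2) hW (def_omit Kind.perm P)
      (fun _ R => fun _ x y => R 0 x y ∧ R 1 y x) (fun r => ?_) ?_
    · exact (Def.rel 0 0 1).and (Def.rel 1 1 0)
    · rintro V _ R ⟨-, -, hw, L₁, L₂, hL₁, hL₂, hR⟩
      refine ⟨fun r x y => if r = 0 then L₁ x y else L₂ y x, ⟨⟨?_, ?_⟩, ?_⟩, ?_⟩
      · exact hL₁
      · exact rev56 hL₂
      · intro h2
        obtain ⟨f, hf, hr⟩ := h1.trans h2
        refine anti56 hL₁ hL₂ hR hw f hf fun x y hxy => ⟨?_, ?_⟩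
        · exact (hr 0 x y).1 hxy
        · refine (hr 1 x y).1 ?_
          change (![1, 2, 3] : Fin 3 → ℕ) x < ![1, 2, 3] y
          revert hxy
          fin_cases x <;> fin_cases y <;> decide
      · funext r x y
        have hr : r = 0 := Subsingleton.elim _ _
        subst hr
        exact propext (hR x y).symm
  · refine wild_of_coding (b := 1) (b' := 2) hW (def_omit Kind.perm P)
      (fun _ R => fun _ x y => R 0 x y ∧ R 1 x y) (fun r => ?_) ?_
    · exact (Def.rel 0 0 1).and (Def.rel 1 0 1)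
    · rintro V _ R ⟨-, -, hw, L₁, L₂, hL₁, hL₂, hR⟩
      refine ⟨fun r x y => if r = 0 then L₁ x y else L₂ x y, ⟨⟨?_, ?_⟩, ?_⟩, ?_⟩
      · exact hL₁
      · exact hL₂
      · intro h2
        obtain ⟨f, hf, hr⟩ := h1.trans h2
        refine anti56 hL₁ hL₂ hR hw f hf fun x y hxy => ⟨?_, ?_⟩
        · exact (hr 0 x y).1 hxy
        · refine (hr 1 y x).1 ?_
          change (![3, 2, 1] : Fin 3 → ℕ) y < ![3, 2, 1] x
          revert hxy
          fin_cases x <;> fin_cases y <;> decide
      · funext r x y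
        have hr : r = 0 := Subsingleton.elim _ _
        subst hr
        exact propext (hR x y).symm
  · exact wild_id56 hH P fun V R hR h2 => hR.2.2.1 (h1.trans h2)
  · exact wild_id56 hH P fun V R hR h2 => hR.2.2.2.1 (h1.trans h2)
  · exact wild_id56 hH P fun V R hR h2 => hR.2.2.2.2 (h1.trans h2)
  · refine wild_of_coding (b := 2) (b' := 2) hH (def_omit Kind.perm P)
      (fun _ R => fun r x y => if r = 0 then R 0 y x else R 1 x y) (fun r => ?_) ?_
    · have e : r = 0 ∨ r = 1 := by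
        fin_cases r
        · exact Or.inl rfl
        · exact Or.inr rfl
      rcases e with rfl | rfl
      · exact Def.rel 0 1 0
      · exact Def.rel 1 0 1
    · intro V _ R hR
      refine ⟨fun r x y => if r = 0 then R 0 y x else R 1 x y, ⟨⟨?_, ?_⟩, ?_⟩, ?_⟩
      · exact rev56 hR.1
      · exact hR.2.1
      · intro h2
        have h3 : Emb (patt ![3, 1, 4, 2]) (fun r x y => if r = 0 then R 0 y x else R 1 x y) :=
          h1.trans h2
        exact hR.2.2.2.2 (emb_rev56 (R := R)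
          (R' := fun r x y => if r = 0 then R 0 y x else R 1 x y)
          (fun _ _ => Iff.rfl) (fun _ _ => Iff.rfl) h3)
      · funext r x y
        have e : r = 0 ∨ r = 1 := by
          fin_cases r
          · exact Or.inl rfl
          · exact Or.inr rfl
        rcases e with rfl | rfl
        · rfl
        · rfl

end Pool.Agent.Helper20.OP
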