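import Pool.Agent.Helper20.OP.Defs

/-!
# Block OP-P2: patterns of partial orders and quasi-orders

`BadPoset lt`: `lt` has a chain of three elements, or three pairwise incomparable elements, or `a < b`, `c < d` with neither
`a < d` nor `c < b`, or two elements below two others.

A partial order `lt` on `Fin s` which is not bad embeds into `N` (`0 < 2`, `1 < 2`, `1 < 3`):

Proof.  Let `A` be the set of the minimal elements and `B` the set of the others.  `A` is an antichain, so `|A| ≤ 2`; `B` is an antichain (a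
relation in `B` would give a chain of three elements), so `|B| ≤ 2`; every `b ∈ B` is above some `a ∈ A`.
`B = ∅`: `A ↦ {0, 1}`.  `B = {b}`: `A = {a}`: `a ↦ 0`, `b ↦ 2`; `A = {a, a'}`, both below `b`: `a, a', b ↦ 0, 1, 2`; only `a` below `b`:
`a, a', b ↦ 1, 0, 3`.  `B = {b, b'}`: `A = {a}`: `a, b, b' ↦ 1, 2, 3`; `A = {a, a'}`: if `a` is below no element of `B`, then `a, b, b'`
is an antichain; so both are below some; all four relations: bad; the two relations `a < b`, `a' < b'` only: bad (`a < b`, `a' < b'`);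
three relations: `N`.
For quasi-orders: either there are `a ≠ b` with `P a b`, `P b a`; or the strict part `x ≠ y ∧ P x y` is a partial order, and an
embedding of it into `N` gives an embedding of `P` into the critical quasi-order.
-/

set_option autoImplicit false

namespace Pool.Agent.Helper20.OP

/-- the four obstructions -/
def BadPoset {V : Type} (lt : V → V → Prop) : Prop :=
  (∃ a b c, lt a b ∧ lt b c) ∨
  (∃ a b c, a ≠ b ∧ b ≠ c ∧ a ≠ c ∧ ¬ lt a b ∧ ¬ lt b a ∧ ¬ lt b c ∧ ¬ lt c b ∧ ¬ lt a c ∧ ¬ lt c a) ∨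
  (∃ a b c d, lt a b ∧ lt c d ∧ ¬ lt a d ∧ ¬ lt c b) ∨
  ∃ a b c d, a ≠ b ∧ c ≠ d ∧ lt a c ∧ lt a d ∧ lt b c ∧ lt b d

private lemma inj2 {V : Type} {a b : V} (h1 : a ≠ b) : Function.Injective ![a, b] := by
  intro u v huv
  fin_cases u <;> fin_cases v <;> simp_all [ne_comm]

private lemma inj3 {V : Type} {a b c : V} (h1 : a ≠ b) (h2 : a ≠ c) (h3 : b ≠ c) :
    Function.Injective ![a, b, c] := by
  intro u v huv
  fin_cases u <;> fin_cases v <;> simp_all [ne_comm]

private lemma inj4 {V : Type} {a b c d : V} (h1 : a ≠ b) (h2 : a ≠ c) (h3 : a ≠ d) (h4 : b ≠ c)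
    (h5 : b ≠ d) (h6 : c ≠ d) : Function.Injective ![a, b, c, d] := by
  intro u v huv
  fin_cases u <;> fin_cases v <;> simp_all [ne_comm]

private lemma glue {m s : ℕ} {lt : Fin s → Fin s → Prop} (g : Fin m → Fin s)
    (_hg : Function.Injective g) (hs : ∀ x, ∃ u, g u = x) (e : Fin m → Fin 4)
    (he : Function.Injective e)
    (H : ∀ u v, lt (g u) (g v) ↔ ((e u, e v) = (0, 2) ∨ (e u, e v) = (1, 2) ∨ (e u, e v) = (1, 3))) :
    ∃ f : Fin s → Fin 4, Function.Injective f ∧
      ∀ x y, lt x y ↔ ((f x, f y) = (0, 2) ∨ (f x, f y) = (1, 2) ∨ (f x, f y) = (1, 3)) := by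
  choose G hG using hs
  refine ⟨fun x => e (G x), ?_, ?_⟩
  · intro x y hxy
    have h1 := he hxy
    rw [← hG x, ← hG y, h1]
  · intro x y
    rw [← H, hG, hG]

/-- a partial order which is not bad embeds into `N` -/
theorem emb_of_not_bad {s : ℕ} (lt : Fin s → Fin s → Prop) (hi : ∀ x, ¬ lt x x)
    (ht : ∀ x y z, lt x y → lt y z → lt x z) (h : ¬ BadPoset lt) :
    ∃ f : Fin s → Fin 4, Function.Injective f ∧
      ∀ x y, lt x y ↔ ((f x, f y) = (0, 2) ∨ (f x, f y) = (1, 2) ∨ (f x, f y) = (1, 3)) := by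
  classical
  have c3 : ∀ a b c, lt a b → ¬ lt b c := fun a b c h1 h2 => h (Or.inl ⟨a, b, c, h1, h2⟩)
  have a3 : ∀ a b c, a ≠ b → b ≠ c → a ≠ c → ¬ lt a b → ¬ lt b a → ¬ lt b c → ¬ lt c b →
      ¬ lt a c → lt c a := by
    intro a b c h1 h2 h3 h4 h5 h6 h7 h8
    by_contra h9
    exact h (Or.inr (Or.inl ⟨a, b, c, h1, h2, h3, h4, h5, h6, h7, h8, h9⟩))
  have m2 : ∀ a b c d, lt a b → lt c d → ¬ lt a d → lt c b := by
    intro a b c d h1 h2 h3
    by_contra h4
    exact h (Or.inr (Or.inr (Or.inl ⟨a, b, c, d, h1, h2, h3, h4⟩)))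
  have k2 : ∀ a b c d, a ≠ b → c ≠ d → lt a c → lt a d → lt b c → ¬ lt b d := by
    intro a b c d h1 h2 h3 h4 h5 h6
    exact h (Or.inr (Or.inr (Or.inr ⟨a, b, c, d, h1, h2, h3, h4, h5, h6⟩)))
  by_cases h0 : ∀ x y, ¬ lt x y
  · have hs : s ≤ 2 := by
      by_contra hs
      push Not at hs
      have h1 := a3 ⟨0, by omega⟩ ⟨1, by omega⟩ ⟨2, by omega⟩ (by simp) (by simp) (by simp)
        (h0 _ _) (h0 _ _) (h0 _ _) (h0 _ _) (h0 _ _)
      exact h0 _ _ h1
    refine ⟨fun x => if x.1 = 0 then 0 else 1, ?_, ?_⟩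
    · intro x y hxy
      have hx := x.2
      have hy := y.2
      apply Fin.ext
      by_cases h1 : x.1 = 0 <;> by_cases h2 : y.1 = 0 <;> simp [h1, h2] at hxy ⊢
      omega
    · intro x y
      have := h0 x y
      by_cases h1 : x.1 = 0 <;> by_cases h2 : y.1 = 0 <;> simp [h1, h2, this]
  push Not at h0
  obtain ⟨a, b, hab⟩ := h0
  have hA : ∀ x, ¬ lt x a := fun x hx => c3 x a b hx hab
  have hB : ∀ y, ¬ lt b y := fun y hy => c3 a b y hab hy
  have hne : a ≠ b := by rintro rfl; exact hi _ hab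
  -- the minimal elements
  have covA : ∀ a', a' ≠ a → (∀ x, ¬ lt x a') → ∀ x, (∀ y, ¬ lt y x) → x = a ∨ x = a' := by
    intro a' h1 h2 x hx
    by_contra h3
    push Not at h3
    exact hA _ (a3 a a' x h1.symm (Ne.symm h3.2) (Ne.symm h3.1) (h2 _) (hA _) (hx _) (h2 _) (hx _))
  have covB : ∀ b', b' ≠ b → (∃ z, lt z b') → ∀ x, (∃ z, lt z x) → x = b ∨ x = b' := by
    rintro b' h1 ⟨z, hz⟩ x ⟨w, hw⟩
    have hB' : ∀ y, ¬ lt b' y := fun y hy => c3 z b' y hz hy
    have hx : ∀ y, ¬ lt x y := fun y hy => c3 w x y hw hy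
    by_contra h3
    push Not at h3
    exact hx _ (a3 b b' x h1.symm (Ne.symm h3.2) (Ne.symm h3.1) (hB _) (hB' _) (hB' _) (hx _) (hB _))
  by_cases hA2 : ∃ a', a' ≠ a ∧ ∀ x, ¬ lt x a'
  · obtain ⟨a', ha', hA'⟩ := hA2
    have hba' : b ≠ a' := by rintro rfl; exact hA' _ hab
    by_cases hB2 : ∃ b', b' ≠ b ∧ ∃ z, lt z b'
    · obtain ⟨b', hb', z, hz⟩ := hB2
      have hB' : ∀ y, ¬ lt b' y := fun y hy => c3 z b' y hz hy
      have hb'a : b' ≠ a := by rintro rfl; exact hA _ hz
      have hb'a' : b' ≠ a' := by rintro rfl; exact hA' _ hz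
      have cov : ∀ x, x = a ∨ x = a' ∨ x = b ∨ x = b' := by
        intro x
        by_cases hx : ∀ y, ¬ lt y x
        · rcases covA a' ha' hA' x hx with h1 | h1
          · exact Or.inl h1
          · exact Or.inr (Or.inl h1)
        · push Not at hx
          rcases covB b' hb' ⟨z, hz⟩ x hx with h1 | h1
          · exact Or.inr (Or.inr (Or.inl h1))
          · exact Or.inr (Or.inr (Or.inr h1))
      have hza : z = a ∨ z = a' := covA a' ha' hA' z (fun y hy => c3 y z b' hy hz)
      have g1 : lt a' b ∨ lt a' b' := by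
        by_contra h1
        push Not at h1
        exact hB' _ (a3 a' b b' hba'.symm hb'.symm hb'a'.symm h1.1 (hB _) (hB _) (hB' _) h1.2)
      have g2 : lt a b' ∨ lt a' b' := by
        rcases hza with rfl | rfl
        · exact Or.inl hz
        · exact Or.inr hz
      have inj : Function.Injective ![a, a', b, b'] :=
        inj4 ha'.symm hne hb'a.symm hba'.symm hb'a'.symm hb'.symm
      have sur : ∀ x, ∃ u, ![a, a', b, b'] u = x := by
        intro x
        rcases cov x with rfl | rfl | rfl | rfl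
        · exact ⟨0, rfl⟩
        · exact ⟨1, rfl⟩
        · exact ⟨2, rfl⟩
        · exact ⟨3, rfl⟩
      by_cases q : lt a' b'
      · by_cases q2 : lt a b'
        · have q3 : ¬ lt a' b := fun q3 => k2 a a' b b' ha'.symm hb'.symm hab q2 q3 q
          refine glue ![a, a', b, b'] inj sur ![1, 0, 3, 2] (by decide) ?_
          intro u v
          fin_cases u <;> fin_cases v <;> simp [hA, hA', hB, hB', hab, q, q2, q3]
        · have q3 : lt a' b := m2 a b a' b' hab q q2
          refine glue ![a, a', b, b'] inj sur ![0, 1, 2, 3] (by decide) ?_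
          intro u v
          fin_cases u <;> fin_cases v <;> simp [hA, hA', hB, hB', hab, q, q2, q3]
      · have q2 := g2.resolve_right q
        have q3 := g1.resolve_right q
        refine glue ![a, a', b, b'] inj sur ![1, 0, 2, 3] (by decide) ?_
        intro u v
        fin_cases u <;> fin_cases v <;> simp [hA, hA', hB, hB', hab, q, q2, q3]
    · push Not at hB2
      have cov : ∀ x, x = a ∨ x = a' ∨ x = b := by
        intro x
        by_cases hx : ∀ y, ¬ lt y x
        · rcases covA a' ha' hA' x hx with h1 | h1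
          · exact Or.inl h1
          · exact Or.inr (Or.inl h1)
        · push Not at hx
          obtain ⟨z, hz⟩ := hx
          by_contra h1
          push Not at h1
          exact hB2 x h1.2.2 z hz
      have inj : Function.Injective ![a, a', b] := inj3 ha'.symm hne hba'.symm
      have sur : ∀ x, ∃ u, ![a, a', b] u = x := by
        intro x
        rcases cov x with rfl | rfl | rfl
        · exact ⟨0, rfl⟩
        · exact ⟨1, rfl⟩
        · exact ⟨2, rfl⟩
      by_cases q : lt a' b
      · refine glue ![a, a', b] inj sur ![0, 1, 2] (by decide) ?_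
        intro u v
        fin_cases u <;> fin_cases v <;> simp [hA, hA', hB, hab, q]
      · refine glue ![a, a', b] inj sur ![1, 0, 3] (by decide) ?_
        intro u v
        fin_cases u <;> fin_cases v <;> simp [hA, hA', hB, hab, q]
  · push Not at hA2
    by_cases hB2 : ∃ b', b' ≠ b ∧ ∃ z, lt z b'
    · obtain ⟨b', hb', z, hz⟩ := hB2
      have hB' : ∀ y, ¬ lt b' y := fun y hy => c3 z b' y hz hy
      have hb'a : b' ≠ a := by rintro rfl; exact hA _ hz
      have hza : z = a := by
        by_contra h1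
        obtain ⟨x, hx⟩ := hA2 z h1
        exact c3 x z b' hx hz
      rw [hza] at hz
      have cov : ∀ x, x = a ∨ x = b ∨ x = b' := by
        intro x
        by_cases hx : ∀ y, ¬ lt y x
        · left
          by_contra h1
          obtain ⟨y, hy⟩ := hA2 x h1
          exact hx y hy
        · push Not at hx
          rcases covB b' hb' ⟨a, hz⟩ x hx with h1 | h1
          · exact Or.inr (Or.inl h1)
          · exact Or.inr (Or.inr h1)
      have inj : Function.Injective ![a, b, b'] := inj3 hne hb'a.symm hb'.symm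
      have sur : ∀ x, ∃ u, ![a, b, b'] u = x := by
        intro x
        rcases cov x with rfl | rfl | rfl
        · exact ⟨0, rfl⟩
        · exact ⟨1, rfl⟩
        · exact ⟨2, rfl⟩
      refine glue ![a, b, b'] inj sur ![1, 2, 3] (by decide) ?_
      intro u v
      fin_cases u <;> fin_cases v <;> simp [hA, hB, hB', hab, hz]
    · push Not at hB2
      have cov : ∀ x, x = a ∨ x = b := by
        intro x
        by_cases hx : ∀ y, ¬ lt y x
        · left
          by_contra h1
          obtain ⟨y, hy⟩ := hA2 x h1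
          exact hx y hy
        · push Not at hx
          obtain ⟨z, hz⟩ := hx
          right
          by_contra h1
          exact hB2 x h1 z hz
      have inj : Function.Injective ![a, b] := inj2 hne
      have sur : ∀ x, ∃ u, ![a, b] u = x := by
        intro x
        rcases cov x with rfl | rfl
        · exact ⟨0, rfl⟩
        · exact ⟨1, rfl⟩
      refine glue ![a, b] inj sur ![1, 3] (by decide) ?_
      intro u v
      fin_cases u <;> fin_cases v <;> simp [hA, hB, hab]

theorem pat_poset {s : ℕ} (P : Str Kind.poset.rels (Fin s)) (h : Kind.poset.Is P)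
    (hP : ¬ ∀ Q, Critical Kind.poset Q → Emb P Q) : BadPoset (P (0 : Fin 1)) := by
  by_contra hb
  apply hP
  obtain ⟨h1, h2⟩ := h
  obtain ⟨f, hf, hf'⟩ := emb_of_not_bad (P (0 : Fin 1)) h1 h2 hb
  intro Q hQ
  refine ⟨f, hf, fun r x y => ?_⟩
  have hr : r = (0 : Fin 1) := Subsingleton.elim (α := Fin 1) _ _
  subst hr
  exact (hf' x y).trans (hQ (f x) (f y)).symm

theorem pat_quasi {s : ℕ} (P : Str Kind.quasi.rels (Fin s)) (h : Kind.quasi.Is P)
    (hP : ¬ ∀ Q, Critical Kind.quasi Q → Emb P Q) :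
    (∃ a b, a ≠ b ∧ P (0 : Fin 1) a b ∧ P (0 : Fin 1) b a) ∨
      BadPoset (fun x y => x ≠ y ∧ P (0 : Fin 1) x y) := by
  by_contra hb
  rw [not_or] at hb
  obtain ⟨hb1, hb2⟩ := hb
  apply hP
  obtain ⟨h1, h2⟩ := h
  obtain ⟨f, hf, hf'⟩ := emb_of_not_bad (fun x y => x ≠ y ∧ P (0 : Fin 1) x y)
    (fun x hx => hx.1 rfl) (fun x y z hxy hyz => ⟨by
      rintro rfl
      exact hb1 ⟨x, y, hxy.1, hxy.2, hyz.2⟩, h2 x y z hxy.2 hyz.2⟩) hb2
  intro Q hQ
  refine ⟨f, hf, fun r x y => ?_⟩
  have hr : r = (0 : Fin 1) := Subsingleton.elim (α := Fin 1) _ _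
  subst hr
  refine Iff.trans ?_ (hQ (f x) (f y)).symm
  by_cases hxy : x = y
  · subst hxy
    exact ⟨fun _ => Or.inl rfl, fun _ => h1 x⟩
  · have h3 := hf' x y
    constructor
    · intro h4
      exact Or.inr (h3.mp ⟨hxy, h4⟩)
    · rintro (h4 | h4)
      · exact absurd (hf h4) hxy
      · exact (h3.mpr h4).2

end Pool.Agent.Helper20.OP
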