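import Pool.Agent.Helper20.OP.WildOf
import Pool.Agent.Helper20.OP.DefKind
import Pool.Agent.Helper20.OP.PatPoset
import Pool.Agent.Helper20.OP.W.Dim
import Pool.Agent.Helper20.OP.G.Model
import Pool.Agent.Helper20.OP.I.Model

/-!
# Block OP-W5: partial orders and quasi-orders

Each time `wild_of_coding` with the class `K = Omit κ P` (definable by `def_omit`) and a definable `τ`.

Partial orders (`pat_poset`): chain of three elements or `a, b < c, d`: `C = BipSix`, `τ V R = fun _ x y => R 0 x y ∨ R 0 y x`,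
`R' x y = R 0 x y ∧ side x = false` (then `side y = true`): a partial order of height two with `τ R' = R`; two elements below
two others would be a cycle of length 4.  Three incomparable elements: `C = WidthTwo`, `τ = id`.  `a < b`, `c < d`, not `a < d`, not `c < b`:
`C = Interval`, `τ = id` (`r a < l b`, `r c < l d`, `l d ≤ r a`, so `r c < l b`).

Quasi-orders (`pat_quasi`): two equivalent elements: `C = WidthTwo`, `τ V R = fun _ x y => x ≠ y ∧ R 0 x y`,
`R' x y = (x = y ∨ R 0 x y)`.  Otherwise as for partial orders, with the strict part.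

(It may be convenient to prove first a lemma for the three obstructions for a general `b' = 1` class `K` containing all
`R'` of the three types, and use it for both kinds.)
-/

set_option autoImplicit false

namespace Pool.Agent.Helper20.OP

/-- the three types of obstructions -/
theorem wild_bad (hG : Coding 1 G.BipSix) (hW : Coding 1 WidthTwo) (hI : Coding 1 I.Interval)
    {s : ℕ} (P : Fin s → Fin s → Prop) (hP : BadPoset P) {K : ∀ V : Type, Str 1 V → Prop}
    (hK : Def0 1 K) (st : ∀ V : Type, Str 1 V → Str 1 V)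
    (hst : Def2 1 (fun V R x y => st V R 0 x y))
    (h : ∀ (V : Type) (R : Str 1 V), (∀ x, ¬ R 0 x x) → (∀ x y z, R 0 x y → R 0 y z → R 0 x z) →
      (¬ ∃ f : Fin s → V, Function.Injective f ∧ ∀ x y, P x y ↔ R 0 (f x) (f y)) →
      ∃ R' : Str 1 V, K V R' ∧ st V R' = R) : Wild K := by
  have e0 : ∀ r : Fin 1, r = 0 := fun r => Subsingleton.elim _ _
  -- graphs
  have hgr : (∀ (V : Type) (R : Str 1 V), (∀ x y, R 0 x y → R 0 y x) →
      ∀ side : V → Bool, (∀ x y, R 0 x y → side x ≠ side y) →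
      (∀ a b c d, R 0 a b → R 0 b c → R 0 c d → R 0 d a → a = c ∨ b = d) →
      ¬ ∃ f : Fin s → V, Function.Injective f ∧
        ∀ x y, P x y ↔ (R 0 (f x) (f y) ∧ side (f x) = false)) → Wild K := by
    intro hno
    refine wild_of_coding hG hK (fun V R => fun _ x y => st V R 0 x y ∨ st V R 0 y x)
      (fun r => Def.or (hst.app 0 1) (hst.app 1 0)) ?_
    intro V _ R hR
    obtain ⟨hs, ⟨side, hside⟩, h4⟩ := hR
    obtain ⟨R', hR', h5⟩ := h V (fun _ x y => R 0 x y ∧ side x = false)
      (fun x hx => hside x x hx.1 rfl)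
      (fun x y z hx hy => absurd (hx.2.trans hy.2.symm) (hside x y hx.1))
      (hno V R hs side hside h4)
    refine ⟨R', hR', ?_⟩
    funext r x y
    rw [e0 r]
    simp only [h5]
    apply propext
    constructor
    · rintro (h6 | h6)
      · exact h6.1
      · exact hs _ _ h6.1
    · intro h6
      have h7 := hside x y h6
      cases hx : side x
      · exact Or.inl ⟨h6, rfl⟩
      · cases hy : side y
        · exact Or.inr ⟨hs _ _ h6, rfl⟩
        · rw [hx, hy] at h7
          exact absurd rfl h7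
  have hst' : ∀ r : Fin 1, Def2 1 (fun V R x y => st V R r x y) := by
    intro r
    rw [e0 r]
    exact hst
  rcases hP with ⟨a, b, c, hab, hbc⟩ | ⟨a, b, c, h1, h2, h3, h4⟩ | ⟨a, b, c, d, h1, h2, h3, h4⟩ |
    ⟨a, b, c, d, hab, hcd, h1, h2, h3, h4⟩
  · refine hgr (fun V R hs side hside h4 => ?_)
    rintro ⟨f, hf, hPf⟩
    have h5 := (hPf a b).1 hab
    have h6 := (hPf b c).1 hbc
    exact hside _ _ h5.1 (h5.2.trans h6.2.symm)
  · refine wild_of_coding hW hK st hst' ?_
    intro V _ R hR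
    obtain ⟨hirr, htr, h3', -⟩ := hR
    refine h V R hirr htr ?_
    rintro ⟨f, hf, hPf⟩
    have h5 := h3' (f a) (f b) (f c)
    simp only [← hPf] at h5
    rcases h5 with h5 | h5 | h5 | h5
    · exact h1 (hf h5)
    · exact h2 (hf h5)
    · exact h3 (hf h5)
    · tauto
  · refine wild_of_coding hI hK st hst' ?_
    intro V _ R hR
    obtain ⟨l, r, hlr, hR⟩ := hR
    refine h V R (fun x hx => ?_) (fun x y z hx hy => ?_) ?_
    · have := (hR x x).1 hx
      have := hlr x
      omega
    · have h5 := (hR x y).1 hx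
      have h6 := (hR y z).1 hy
      have := hlr y
      exact (hR x z).2 (by omega)
    · rintro ⟨f, hf, hPf⟩
      have h5 := (hR _ _).1 ((hPf a b).1 h1)
      have h6 := (hR _ _).1 ((hPf c d).1 h2)
      have h7 : ¬ r (f a) < l (f d) := fun h => h3 ((hPf a d).2 ((hR _ _).2 h))
      have h8 : ¬ r (f c) < l (f b) := fun h => h4 ((hPf c b).2 ((hR _ _).2 h))
      omega
  · refine hgr (fun V R hs side hside h4' => ?_)
    rintro ⟨f, hf, hPf⟩
    have g1 := ((hPf a c).1 h1).1
    have g2 := ((hPf a d).1 h2).1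
    have g3 := ((hPf b c).1 h3).1
    have g4 := ((hPf b d).1 h4).1
    rcases h4' _ _ _ _ g1 (hs _ _ g3) g4 (hs _ _ g2) with h | h
    · exact hab (hf h)
    · exact hcd (hf h)

theorem wild_poset (hG : Coding 1 G.BipSix) (hW : Coding 1 WidthTwo) (hI : Coding 1 I.Interval)
    {s : ℕ} (P : Str Kind.poset.rels (Fin s))
    (h : Kind.poset.Is P) (hP : ¬ ∀ Q, Critical Kind.poset Q → Emb P Q) :
    Wild (Omit Kind.poset P) := by
  refine wild_bad hG hW hI (P (0 : Fin 1)) (pat_poset P h hP) (def_omit Kind.poset P)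
    (fun _ R => R) (Def.rel 0 0 1) ?_
  intro V R hirr htr hno
  refine ⟨R, ⟨⟨hirr, htr⟩, ?_⟩, rfl⟩
  rintro ⟨f, hf, hPf⟩
  exact hno ⟨f, hf, hPf (0 : Fin 1)⟩

theorem wild_quasi (hG : Coding 1 G.BipSix) (hW : Coding 1 WidthTwo) (hI : Coding 1 I.Interval)
    {s : ℕ} (P : Str Kind.quasi.rels (Fin s))
    (h : Kind.quasi.Is P) (hP : ¬ ∀ Q, Critical Kind.quasi Q → Emb P Q) :
    Wild (Omit Kind.quasi P) := by
  have hst : Def2 1 (fun V (R : Str 1 V) x y => x ≠ y ∧ R 0 x y) :=
    Def.and (Def.not (Def.eq 0 1)) (Def.rel 0 0 1)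
  have hmk : ∀ (V : Type) (R : Str 1 V), (∀ x, ¬ R 0 x x) →
      (fun (_ : Fin 1) (x y : V) => x ≠ y ∧ (x = y ∨ R 0 x y)) = R := by
    intro V R hirr
    funext r x y
    have hr : r = 0 := Subsingleton.elim _ _
    rw [hr]
    apply propext
    constructor
    · rintro ⟨h1, h2 | h2⟩
      · exact absurd h2 h1
      · exact h2
    · intro h1
      exact ⟨fun e => hirr y (e ▸ h1), Or.inr h1⟩
  have hq : ∀ (V : Type) (R : Str 1 V), (∀ x y z, R 0 x y → R 0 y z → R 0 x z) →
      Kind.quasi.Is (V := V) (fun (_ : Fin 1) (x y : V) => x = y ∨ R 0 x y) := by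
    intro V R htr
    refine ⟨fun x => Or.inl rfl, fun x y z h1 h2 => ?_⟩
    rcases h1 with rfl | h1
    · exact h2
    · rcases h2 with rfl | h2
      · exact Or.inr h1
      · exact Or.inr (htr _ _ _ h1 h2)
  rcases pat_quasi P h hP with ⟨a, b, hab, h1, h2⟩ | hbad
  · refine wild_of_coding hW (def_omit Kind.quasi P) (fun V R => fun _ x y => x ≠ y ∧ R (0 : Fin 1) x y)
      (fun _ => hst) ?_
    intro V _ R hR
    obtain ⟨hirr, htr, -⟩ := hR
    refine ⟨fun _ x y => x = y ∨ R 0 x y, ⟨hq V R htr, ?_⟩, hmk V R hirr⟩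
    rintro ⟨f, hf, hPf⟩
    have h3 := (hPf (0 : Fin 1) a b).1 h1
    have h4 := (hPf (0 : Fin 1) b a).1 h2
    rcases h3 with h3 | h3
    · exact hab (hf h3)
    · rcases h4 with h4 | h4
      · exact hab (hf h4.symm)
      · exact hirr _ (htr _ _ _ h3 h4)
  · refine wild_bad hG hW hI _ hbad (def_omit Kind.quasi P)
      (fun V R => fun _ x y => x ≠ y ∧ R (0 : Fin 1) x y) hst ?_
    intro V R hirr htr hno
    refine ⟨fun _ x y => x = y ∨ R 0 x y, ⟨hq V R htr, ?_⟩, hmk V R hirr⟩
    rintro ⟨f, hf, hPf⟩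
    refine hno ⟨f, hf, fun x y => ?_⟩
    have h3 := hPf (0 : Fin 1) x y
    constructor
    · rintro ⟨h4, h5⟩
      rcases h3.1 h5 with h6 | h6
      · exact absurd (hf h6) h4
      · exact h6
    · intro h4
      exact ⟨fun e => hirr (f y) (by rw [e] at h4; exact h4), h3.2 (Or.inr h4)⟩

end Pool.Agent.Helper20.OP
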