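import Pool.Agent.Helper20.OP.WildGraph
import Pool.Agent.Helper20.OP.WildPoset
import Pool.Agent.Helper20.OP.WildPerm

/-!
# The wild classes of each kind: summary of imports
-/
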