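import Pool.Agent.Helper20.OP.Codings
import Pool.Agent.Helper20.OP.WildKind
import Pool.Agent.Helper20.OP.Split
import Pool.Agent.Helper20.OP.SplitOrd
import Pool.Agent.Helper20.OP.SplitPerm
import Pool.Agent.Helper20.OP.Crit
import Pool.Agent.Helper20.OP.CritPerm

/-!
# One forbidden pattern: assembly
-/

set_option autoImplicit false

namespace Pool.Agent.Helper20.OP

open FirstOrder FirstOrder.Language Pool.Agent.Helper20.Spectra Pool.Agent.Helper29.Prefix

theorem wild_main (κ : Kind) {s : ℕ} (P : Str κ.rels (Fin s)) (h : κ.Is P)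
    (hP : ¬ ∀ Q, Critical κ Q → Emb P Q) : Wild (Omit κ P) := by
  cases κ with
  | graph => exact wild_graph coding_graph P h hP
  | poset => exact wild_poset coding_graph coding_width coding_interval P h hP
  | quasi => exact wild_quasi coding_graph coding_width coding_interval P h hP
  | perm => exact wild_perm coding_width coding_spiral P h hP

/-- if `P` embeds into all critical structures, then a structure omitting `P` omits them -/
lemma omit_critical {κ : Kind} {s : ℕ} {P : Str κ.rels (Fin s)}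
    (hP : ∀ Q, Critical κ Q → Emb P Q) {V : Type} {R : Str κ.rels V} (hR : ¬ Emb P R) :
    ¬ ∃ Q, Critical κ Q ∧ Emb Q R := by
  rintro ⟨Q, hQ, h⟩
  exact hR ((hP Q hQ).trans h)

theorem tame_gen (κ : Kind) {s : ℕ} (P : Str κ.rels (Fin s))
    (hP : ∀ Q, Critical κ Q → Emb P Q) (V : Type) [Finite V] [Nonempty V] (R : Str κ.rels V)
    (h : Omit κ P V R) : Gen κ.rels V R := by
  have hsub : ∀ (V : Type) (R : Str κ.rels V) (A : Set V), Omit κ P V R →
      Omit κ P A (restr R A) := by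
    intro V R A h
    refine ⟨?_, fun he => h.2 (he.trans ⟨Subtype.val, Subtype.val_injective, fun _ _ _ => Iff.rfl⟩)⟩
    obtain ⟨h1, -⟩ := h
    cases κ with
    | graph => exact ⟨fun x => h1.1 x.1, fun x y => h1.2 x.1 y.1⟩
    | poset => exact ⟨fun x => h1.1 x.1, fun x y z => h1.2 x.1 y.1 z.1⟩
    | quasi => exact ⟨fun x => h1.1 x.1, fun x y z => h1.2 x.1 y.1 z.1⟩
    | perm =>
      refine ⟨⟨fun x => h1.1.1 x.1, fun x y z => h1.1.2.1 x.1 y.1 z.1, fun x y => ?_⟩,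
        ⟨fun x => h1.2.1 x.1, fun x y z => h1.2.2.1 x.1 y.1 z.1, fun x y => ?_⟩⟩
      · rcases h1.1.2.2 x.1 y.1 with h | h | h
        · exact Or.inl h
        · exact Or.inr (Or.inl (Subtype.ext h))
        · exact Or.inr (Or.inr h)
      · rcases h1.2.2.2 x.1 y.1 with h | h | h
        · exact Or.inl h
        · exact Or.inr (Or.inl (Subtype.ext h))
        · exact Or.inr (Or.inr h)
  refine gen_of_split (Omit κ P) hsub ?_ V R h
  clear h hsub
  intro V _ R h h2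
  obtain ⟨h1, h3⟩ := h
  have h4 := omit_critical hP h3
  cases κ with
  | graph =>
    have h5 : ¬ HasP4 (R (0 : Fin 1)) := fun h => h4 (crit_graph R h1 h)
    obtain ⟨A, hA, hA', h6⟩ := seinsche (R (0 : Fin 1)) h1.2 h5 h2
    refine ⟨A, hA, hA', ?_⟩
    rcases h6 with h6 | h6
    · refine ⟨fun _ => False, fun _ => False, fun r x hx y hy => ?_⟩
      have hr : r = (0 : Fin 1) := Subsingleton.elim (α := Fin 1) r 0
      subst hr
      have h7 := h6 x hx y hy
      exact ⟨iff_false_intro h7, iff_false_intro (fun h => h7 (h1.2 _ _ h))⟩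
    · refine ⟨fun _ => True, fun _ => True, fun r x hx y hy => ?_⟩
      have hr : r = (0 : Fin 1) := Subsingleton.elim (α := Fin 1) r 0
      subst hr
      have h7 := h6 x hx y hy
      exact ⟨iff_true_intro h7, iff_true_intro (h1.2 _ _ h7)⟩
  | poset =>
    obtain ⟨A, hA, hA', c, d, h6⟩ := split_poset (R (0 : Fin 1)) h1.1 h1.2
      (fun h => h4 (crit_poset R h1 h)) h2
    refine ⟨A, hA, hA', fun _ => c, fun _ => d, fun r x hx y hy => ?_⟩
    have hr : r = (0 : Fin 1) := Subsingleton.elim (α := Fin 1) r 0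
    subst hr
    exact h6 x hx y hy
  | quasi =>
    obtain ⟨A, hA, hA', c, d, h6⟩ := split_quasi (R (0 : Fin 1)) h1.1 h1.2
      (fun h => h4 (crit_quasi R h1 h)) h2
    refine ⟨A, hA, hA', fun _ => c, fun _ => d, fun r x hx y hy => ?_⟩
    have hr : r = (0 : Fin 1) := Subsingleton.elim (α := Fin 1) r 0
    subst hr
    exact h6 x hx y hy
  | perm =>
    exact split_perm R h1.1 h1.2 (fun h => h4 (crit_perm R h1 h)) h2

theorem tame_main (κ : Kind) {s : ℕ} (P : Str κ.rels (Fin s))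
    (hP : ∀ Q, Critical κ Q → Emb P Q) (A : Set ℕ) (hA : SpecOver (Omit κ P) A) :
    UltPeriodic A := by
  obtain ⟨φ, rfl⟩ := hA
  obtain ⟨ψ, hψ⟩ := (show Def0 κ.rels (fun V R => Omit κ P V R ∧ Models R φ) from
    (def_omit κ P).and (Def0.models φ)).exists_sentence
  have e : sizes (Omit κ P) φ = sizes (fun V R => Gen κ.rels V R) ψ := by
    ext n
    constructor
    · rintro ⟨hn, R, h1, h2⟩
      have : Nonempty (Fin n) := ⟨⟨0, hn⟩⟩
      exact ⟨hn, R, tame_gen κ P hP _ R h1, (hψ _ R).2 ⟨h1, h2⟩⟩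
    · rintro ⟨hn, R, _, h2⟩
      have h3 := (hψ _ R).1 h2
      exact ⟨hn, R, h3.1, h3.2⟩
  rw [e]
  exact gen_ultPeriodic κ.rels ψ

lemma spectrumOmitting_iff (κ : Kind) {s : ℕ} (P : Str κ.rels (Fin s)) (A : Set ℕ) :
    SpectrumOmitting κ P A ↔ SpecOver (Omit κ P) A := by
  constructor
  · rintro ⟨φ, h⟩
    refine ⟨φ, ?_⟩
    ext n
    rw [h]
    exact ⟨fun ⟨h1, R, h2, h3, h4⟩ => ⟨h1, R, ⟨h2, h3⟩, h4⟩,
      fun ⟨h1, R, ⟨h2, h3⟩, h4⟩ => ⟨h1, R, h2, h3, h4⟩⟩
  · rintro ⟨φ, rfl⟩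
    exact ⟨φ, fun n => ⟨fun ⟨h1, R, ⟨h2, h3⟩, h4⟩ => ⟨h1, R, h2, h3, h4⟩,
      fun ⟨h1, R, h2, h3, h4⟩ => ⟨h1, R, ⟨h2, h3⟩, h4⟩⟩⟩

/-- the classification -/
theorem pattern_final (κ : Kind) (s : ℕ) (P : Str κ.rels (Fin s)) (h : κ.Is P) :
    ((∀ Q, Critical κ Q → Emb P Q) → ∀ A, SpectrumOmitting κ P A → UltPeriodic A) ∧
    ((¬ ∀ Q, Critical κ Q → Emb P Q) →
      (∃ U : Set ℕ, SpectrumOmitting κ P U ∧ ∀ A : Set ℕ, IsSpectrum A ↔
        ∃ h : Polynomial ℕ, A = {n : ℕ | 1 ≤ n ∧ h.eval n ∈ U}) ∧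
      ((∀ A : Set ℕ, SpectrumOmitting κ P A → IsRudimentary A) ↔
        ∀ A : Set ℕ, IsSpectrum A ↔ (IsRudimentary A ∧ 0 ∉ A))) := by
  simp only [spectrumOmitting_iff]
  exact ⟨fun hP A hA => tame_main κ P hP A hA, fun hP => wild_main κ P h hP⟩

end Pool.Agent.Helper20.OP
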