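import Pool.Agent.Helper20.Spectra.FD

/-!
# Structures with binary relations and first-order definability

`Str b V`: structures with universe `V` and `b` binary relations.  `Def b r P`: the condition
`P V R v` on a structure `(V, R)` and a tuple `v` of `r` elements is definable by one first-order
formula, for all structures at the same time.
-/

set_option autoImplicit false

namespace Pool.Agent.Helper20.OP

open FirstOrder FirstOrder.Language Pool.Agent.Helper20.Spectra

/-- structures with universe `V` and `b` binary relations -/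
abbrev Str (b : ℕ) (V : Type) := Fin b → V → V → Prop

/-- the vocabulary with `b` binary relation symbols -/
abbrev binLang (b : ℕ) : FirstOrder.Language.{0, 0} := RelLang (Fin b) (fun _ => 2)

/-- the first-order structure `(V, R)` -/
@[reducible] def toStr {b : ℕ} {V : Type} (R : Str b V) : (binLang b).Structure V :=
  mkS (fun r v => R r (v 0) (v 1))

/-- the sentence `φ` holds in `(V, R)` -/
def Models {b : ℕ} {V : Type} (R : Str b V) (φ : (binLang b).Sentence) : Prop :=
  @Sentence.Realize _ V (toStr R) φ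

/-- uniformly definable conditions on a structure `(V, R)` and `r` elements -/
def Def (b r : ℕ) (P : ∀ (V : Type), Str b V → (Fin r → V) → Prop) : Prop :=
  ∃ φ : (binLang b).BoundedFormula Empty r, ∀ (V : Type) (R : Str b V) (v : Fin r → V),
    @BoundedFormula.Realize _ V (toStr R) _ _ φ default v ↔ P V R v

/-- definable conditions on a structure -/
def Def0 (b : ℕ) (P : ∀ (V : Type), Str b V → Prop) : Prop := Def b 0 (fun V R _ => P V R)

/-- definable conditions on one element -/
def Def1 (b : ℕ) (P : ∀ (V : Type), Str b V → V → Prop) : Prop := Def b 1 (fun V R v => P V R (v 0))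

/-- definable conditions on two elements -/
def Def2 (b : ℕ) (P : ∀ (V : Type), Str b V → V → V → Prop) : Prop :=
  Def b 2 (fun V R v => P V R (v 0) (v 1))

/-- definable conditions on three elements -/
def Def3 (b : ℕ) (P : ∀ (V : Type), Str b V → V → V → V → Prop) : Prop :=
  Def b 3 (fun V R v => P V R (v 0) (v 1) (v 2))

namespace Def

variable {b r : ℕ}

lemma congr {P Q : ∀ (V : Type), Str b V → (Fin r → V) → Prop} (h : Def b r P)
    (hPQ : ∀ V R v, Q V R v ↔ P V R v) : Def b r Q := by
  obtain ⟨ψ, h⟩ := h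
  exact ⟨ψ, fun M R v => (h M R v).trans (hPQ M R v).symm⟩

lemma const (p : Prop) : Def b r (fun _ _ _ => p) := by
  by_cases hp : p
  · refine ⟨⊤, fun M R v => ?_⟩
    let _ := toStr R
    simp [hp]
  · refine ⟨⊥, fun M R v => ?_⟩
    let _ := toStr R
    simp [hp]

lemma eq (i j : Fin r) : Def b r (fun _ _ v => v i = v j) := by
  refine ⟨(Term.var (Sum.inr i)).bdEqual (Term.var (Sum.inr j)), fun M R v => ?_⟩
  let _ := toStr R
  simp [BoundedFormula.realize_bdEqual]

lemma rel (s : Fin b) (i j : Fin r) : Def b r (fun _ R v => R s (v i) (v j)) := by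
  let ρ : (binLang b).Relations 2 := (⟨s, rfl⟩ : {t : Fin b // 2 = 2})
  refine ⟨Relations.boundedFormula (L := binLang b) ρ
    (fun k : Fin 2 => Term.var (Sum.inr (if k = 0 then i else j))), fun M R v => ?_⟩
  let _ := toStr R
  rw [BoundedFormula.realize_rel]
  rfl

lemma not {P : ∀ (V : Type), Str b V → (Fin r → V) → Prop} (h : Def b r P) :
    Def b r (fun V R v => ¬ P V R v) := by
  obtain ⟨ψ, h⟩ := h
  refine ⟨ψ.not, fun M R v => ?_⟩
  let _ := toStr R
  rw [BoundedFormula.realize_not, h]

lemma and {P Q : ∀ (V : Type), Str b V → (Fin r → V) → Prop} (h : Def b r P)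
    (h' : Def b r Q) : Def b r (fun V R v => P V R v ∧ Q V R v) := by
  obtain ⟨ψ, h⟩ := h
  obtain ⟨ψ', h'⟩ := h'
  refine ⟨ψ ⊓ ψ', fun M R v => ?_⟩
  let _ := toStr R
  rw [BoundedFormula.realize_inf, h, h']

lemma or {P Q : ∀ (V : Type), Str b V → (Fin r → V) → Prop} (h : Def b r P)
    (h' : Def b r Q) : Def b r (fun V R v => P V R v ∨ Q V R v) :=
  (h.not.and h'.not).not.congr (fun V R v => by tauto)

lemma imp {P Q : ∀ (V : Type), Str b V → (Fin r → V) → Prop} (h : Def b r P)
    (h' : Def b r Q) : Def b r (fun V R v => P V R v → Q V R v) :=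
  (h.not.or h').congr (fun V R v => by tauto)

lemma iff {P Q : ∀ (V : Type), Str b V → (Fin r → V) → Prop} (h : Def b r P)
    (h' : Def b r Q) : Def b r (fun V R v => (P V R v ↔ Q V R v)) :=
  ((h.imp h').and (h'.imp h)).congr (fun V R v => by tauto)

lemma all {P : ∀ (V : Type), Str b V → (Fin r → V) → V → Prop}
    (h : Def b (r + 1) (fun V R v => P V R (fun i => v i.castSucc) (v (Fin.last r)))) :
    Def b r (fun V R v => ∀ x : V, P V R v x) := by
  obtain ⟨ψ, h⟩ := h
  refine ⟨ψ.all, fun M R v => ?_⟩
  let _ := toStr R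
  rw [BoundedFormula.realize_all]
  refine forall_congr' (fun x => ?_)
  rw [h]
  simp only [Fin.snoc_castSucc, Fin.snoc_last]

lemma ex {P : ∀ (V : Type), Str b V → (Fin r → V) → V → Prop}
    (h : Def b (r + 1) (fun V R v => P V R (fun i => v i.castSucc) (v (Fin.last r)))) :
    Def b r (fun V R v => ∃ x : V, P V R v x) := by
  obtain ⟨ψ, h⟩ := h
  refine ⟨ψ.ex, fun M R v => ?_⟩
  let _ := toStr R
  rw [BoundedFormula.realize_ex]
  refine exists_congr (fun x => ?_)
  rw [h]
  simp only [Fin.snoc_castSucc, Fin.snoc_last]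

lemma all_finset {γ : Type} (s : Finset γ)
    {P : γ → ∀ (V : Type), Str b V → (Fin r → V) → Prop} (h : ∀ c ∈ s, Def b r (P c)) :
    Def b r (fun V R v => ∀ c ∈ s, P c V R v) := by
  classical
  induction s using Finset.induction_on with
  | empty => exact (Def.const True).congr (fun V R v => by simp)
  | insert c s hc ih =>
    refine ((h c (Finset.mem_insert_self c s)).and
      (ih (fun d hd => h d (Finset.mem_insert_of_mem hd)))).congr (fun V R v => ?_)
    simp only [Finset.forall_mem_insert]

lemma all_fin {γ : Type} [Finite γ] {P : γ → ∀ (V : Type), Str b V → (Fin r → V) → Prop}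
    (h : ∀ c, Def b r (P c)) : Def b r (fun V R v => ∀ c, P c V R v) := by
  have := Fintype.ofFinite γ
  exact (all_finset Finset.univ (fun c _ => h c)).congr (fun V R v => by simp)

lemma ex_fin {γ : Type} [Finite γ] {P : γ → ∀ (V : Type), Str b V → (Fin r → V) → Prop}
    (h : ∀ c, Def b r (P c)) : Def b r (fun V R v => ∃ c, P c V R v) := by
  refine (Def.all_fin (P := fun c V R v => ¬ P c V R v) (fun c => (h c).not)).not.congr
    (fun V R v => ?_)
  push Not
  rfl

/-- renaming of variables -/
lemma ren {r' : ℕ} {P : ∀ (V : Type), Str b V → (Fin r → V) → Prop} (h : Def b r P)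
    (e : Fin r → Fin r') : Def b r' (fun V R v => P V R (fun i => v (e i))) := by
  obtain ⟨ψ, h⟩ := h
  refine ⟨(BoundedFormula.relabel (fun x : Empty ⊕ Fin r =>
    (Sum.inr (Sum.elim Empty.elim e x) : Empty ⊕ Fin r')) ψ.toFormula :
      (binLang b).BoundedFormula Empty (r' + 0)), fun M R v => ?_⟩
  let _ := toStr R
  have h1 := BoundedFormula.realize_relabel (φ := ψ.toFormula) (g := fun x : Empty ⊕ Fin r =>
    (Sum.inr (Sum.elim Empty.elim e x) : Empty ⊕ Fin r')) (v := (default : Empty → M))
    (xs := (v : Fin (r' + 0) → M))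
  refine h1.trans ?_
  have h2 := BoundedFormula.realize_toFormula ψ (Sum.elim (default : Empty → M) v ∘ fun x : Empty ⊕ Fin r =>
    (Sum.inr (Sum.elim Empty.elim e x) : Empty ⊕ Fin r'))
  refine Iff.trans ?_ (h M R (fun i => v (e i)))
  have e1 : (Sum.elim (default : Empty → M) v ∘ fun x : Empty ⊕ Fin r =>
    (Sum.inr (Sum.elim Empty.elim e x) : Empty ⊕ Fin r')) ∘ Sum.inl = (default : Empty → M) :=
    Subsingleton.elim _ _
  have e2 : (Sum.elim (default : Empty → M) v ∘ fun x : Empty ⊕ Fin r =>
    (Sum.inr (Sum.elim Empty.elim e x) : Empty ⊕ Fin r')) ∘ Sum.inr = fun i => v (e i) := rfl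
  rw [e1, e2] at h2
  refine Iff.trans (Iff.of_eq ?_) h2
  congr 1
  funext i
  exact i.elim0

/-- existential quantification over `k` elements -/
lemma exTuple : ∀ (k : ℕ) {r : ℕ} {P : ∀ (V : Type), Str b V → (Fin r → V) → (Fin k → V) → Prop}
    (_ : Def b (r + k) (fun V R v => P V R (fun i => v (Fin.castAdd k i))
      (fun j => v (Fin.natAdd r j)))), Def b r (fun V R v => ∃ x : Fin k → V, P V R v x)
  | 0, r, P, h => by
    refine h.congr (fun V R v => ?_)
    constructor
    · rintro ⟨x, hx⟩
      have : x = fun j : Fin 0 => v (Fin.natAdd r j) := funext (fun j => j.elim0)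
      rw [this] at hx
      exact hx
    · intro h
      exact ⟨_, h⟩
  | k + 1, r, P, h => by
    have h1 : Def b (r + k) (fun V R v => ∃ y : V, P V R (fun i => v (Fin.castAdd k i))
        (Fin.snoc (fun j => v (Fin.natAdd r j)) y)) := by
      refine Def.ex (h.congr (fun V R v => ?_))
      refine Iff.of_eq (congrArg₂ (P V R) rfl ?_)
      funext j
      refine Fin.lastCases ?_ (fun j => ?_) j
      · simp only [Fin.snoc_last]
        rfl
      · simp only [Fin.snoc_castSucc]
        rfl
    refine (exTuple k (P := fun V R v x => ∃ y : V, P V R v (Fin.snoc x y)) h1).congr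
      (fun V R v => ?_)
    constructor
    · rintro ⟨x, hx⟩
      refine ⟨fun j => x j.castSucc, x (Fin.last k), ?_⟩
      have : (Fin.snoc (fun j => x j.castSucc) (x (Fin.last k)) : Fin (k + 1) → V) = x := by
        funext j
        refine Fin.lastCases ?_ (fun j => ?_) j <;> simp
      rw [this]
      exact hx
    · rintro ⟨x, y, h⟩
      exact ⟨_, h⟩

end Def

section app

variable {b : ℕ}

lemma Def0.app {r : ℕ} {P : ∀ (V : Type), Str b V → Prop} (h : Def0 b P) :
    Def b r (fun V R _ => P V R) := Def.ren h (fun i => i.elim0)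

lemma Def1.app {r : ℕ} {P : ∀ (V : Type), Str b V → V → Prop} (h : Def1 b P) (i : Fin r) :
    Def b r (fun V R v => P V R (v i)) := Def.ren h (fun _ => i)

lemma Def2.app {r : ℕ} {P : ∀ (V : Type), Str b V → V → V → Prop} (h : Def2 b P) (i j : Fin r) :
    Def b r (fun V R v => P V R (v i) (v j)) := Def.ren h ![i, j]

lemma Def3.app {r : ℕ} {P : ∀ (V : Type), Str b V → V → V → V → Prop} (h : Def3 b P)
    (i j k : Fin r) : Def b r (fun V R v => P V R (v i) (v j) (v k)) := Def.ren h ![i, j, k]

/-- there are exactly `c` elements with the property `P` -/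
def Exactly {V : Type} (c : ℕ) (P : V → Prop) : Prop :=
  ∃ f : Fin c → V, Function.Injective f ∧ ∀ x, P x ↔ ∃ i, f i = x

lemma exactly_iff {V : Type} [Finite V] (c : ℕ) (P : V → Prop) :
    Exactly c P ↔ Nat.card {x // P x} = c := by
  constructor
  · rintro ⟨f, hf, h⟩
    have e : {x // P x} ≃ Fin c := by
      refine (Equiv.ofBijective (fun i : Fin c => (⟨f i, (h _).2 ⟨i, rfl⟩⟩ : {x // P x})) ⟨?_, ?_⟩).symm
      · intro i j hij
        exact hf (congrArg Subtype.val hij)
      · rintro ⟨x, hx⟩
        obtain ⟨i, hi⟩ := (h x).1 hx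
        exact ⟨i, Subtype.ext hi⟩
    rw [Nat.card_congr e]
    simp
  · intro h
    have : Finite {x // P x} := inferInstance
    let e : {x // P x} ≃ Fin c := (Finite.equivFin _).trans (finCongr h)
    refine ⟨fun i => (e.symm i).1, fun i j hij => e.symm.injective (Subtype.ext hij), fun x => ?_⟩
    constructor
    · intro hx
      exact ⟨e ⟨x, hx⟩, by simp⟩
    · rintro ⟨i, rfl⟩
      exact (e.symm i).2

lemma Def.exactly {r : ℕ} (c : ℕ) {P : ∀ (V : Type), Str b V → (Fin r → V) → V → Prop}
    (h : Def b (r + 1) (fun V R v => P V R (fun i => v i.castSucc) (v (Fin.last r)))) :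
    Def b r (fun V R v => Exactly c (P V R v)) := by
  unfold Exactly
  refine Def.exTuple c ?_
  refine Def.and ?_ (Def.all (Def.iff ?_ (Def.ex_fin (fun i => Def.eq _ _))))
  · refine (Def.all_fin (γ := Fin c) (P := fun i V R v => ∀ j : Fin c,
      v (Fin.natAdd r i) = v (Fin.natAdd r j) → i = j) (fun i => Def.all_fin (fun j =>
      (Def.eq _ _).imp (Def.const _)))).congr (fun V R v => ?_)
    exact Iff.rfl
  · have h1 := h.ren (Fin.snoc (fun i : Fin r => (Fin.castAdd c i).castSucc) (Fin.last (r + c)) :
      Fin (r + 1) → Fin (r + c + 1))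
    refine h1.congr (fun V R v => ?_)
    simp only [Fin.snoc_castSucc, Fin.snoc_last]

end app

/-- a definable condition is given by a sentence -/
lemma Def0.exists_sentence {b : ℕ} {P : ∀ (V : Type), Str b V → Prop} (h : Def0 b P) :
    ∃ φ : (binLang b).Sentence, ∀ (V : Type) (R : Str b V), Models R φ ↔ P V R := by
  obtain ⟨φ, hφ⟩ := h
  refine ⟨φ, fun V R => ?_⟩
  exact hφ V R default

/-- the truth of a sentence is a definable condition -/
lemma Def0.models {b : ℕ} (φ : (binLang b).Sentence) : Def0 b (fun _ R => Models R φ) := by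
  refine ⟨φ, fun V R v => ?_⟩
  have : v = default := Subsingleton.elim _ _
  rw [this]
  exact Iff.rfl

end Pool.Agent.Helper20.OP
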