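import Pool.Agent.Helper20.OP.Defs

/-!
# Block OP-T4: pumping (combinatorics)

`Der B J t n`: there is a binary tree with `n` leaves whose nodes carry elements of `T`, the leaves
elements of `B`, the root `t`, every inner node `t₀` with sons `t₁`, `t₂` satisfying `J t₁ t₂ t₀`.

Proof of `Der.pump`.  Call `c ≥ 1` a loop of `t` if `Der t m → Der t (m + c)` for all `m`.  For each `t` which
has a loop fix one, `c_t`, and let `p` be the product of the numbers `c_t` (and `1` for the other `t`): every `c_t`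
divides `p`, so `Der t m → Der t (m + p)` for every `t` with a loop.
Claim: for every finite set `Σ ⊆ T`, every `t`, `n` with `Der t n` such that for each `σ ∈ Σ` there is a `c ≥ 1` with
`∀ m, Der t m → Der σ (m + c)`: either `n ≤ 2 ^ (|T| - |Σ|)`, or there are `u` with a loop and `m`, `c` with `n = m + c`,
`Der u m` and `∀ m', Der u m' → Der t (m' + c)`.  Induction on the derivation: if `t ∈ Σ` then `t` has
a loop (take `u = t`, `c = 0`).  If `t ∉ Σ`: a leaf has `n = 1`; for `n = n₁ + n₂` with sons `t₁`, `t₂` apply the induction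
hypothesis to both sons and `Σ ∪ {t}` (the contexts: `Der t₁ m → Der t (m + n₂)`, `n₂ ≥ 1`, and composition with
the given ones; symmetrically for `t₂`); if both are small then `n ≤ 2 · 2 ^ (|T| - |Σ| - 1)`; otherwise
compose the contexts.
With `Σ = ∅` and `n > 2 ^ |T|`: `Der u m`, so `Der u (m + p)`, so `Der t (m + p + c) = Der t (n + p)`.

-/

set_option autoImplicit false

namespace Pool.Agent.Helper20.OP

/-- derivation trees -/
inductive Der {T : Type} (B : T → Prop) (J : T → T → T → Prop) : T → ℕ → Prop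
  | base (t : T) : B t → Der B J t 1
  | step (t₁ t₂ t : T) (n₁ n₂ : ℕ) : J t₁ t₂ t → Der B J t₁ n₁ → Der B J t₂ n₂ →
      Der B J t (n₁ + n₂)

lemma Der.one_le {T : Type} {B : T → Prop} {J : T → T → T → Prop} {t : T} {n : ℕ}
    (h : Der B J t n) : 1 ≤ n := by
  induction h with
  | base t _ => exact le_rfl
  | step t₁ t₂ t n₁ n₂ _ _ _ ih₁ _ => omega

lemma Der.key {T : Type} [Fintype T] [DecidableEq T] {B : T → Prop} {J : T → T → T → Prop} {t : T}
    {n : ℕ} (h : Der B J t n) : ∀ S : Finset T,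
    (∀ s ∈ S, ∃ c : ℕ, 1 ≤ c ∧ ∀ m, Der B J t m → Der B J s (m + c)) →
    n ≤ 2 ^ (Fintype.card T - S.card) ∨ ∃ (u : T) (m c : ℕ), n = m + c ∧ Der B J u m ∧
      (∃ l : ℕ, 1 ≤ l ∧ ∀ m, Der B J u m → Der B J u (m + l)) ∧
      ∀ m, Der B J u m → Der B J t (m + c) := by
  induction h with
  | base t ht => exact fun S _ => Or.inl Nat.one_le_two_pow
  | step t₁ t₂ t n₁ n₂ hJ h₁ h₂ ih₁ ih₂ =>
    intro S hS
    by_cases htS : t ∈ S
    · exact Or.inr ⟨t, n₁ + n₂, 0, rfl, Der.step t₁ t₂ t n₁ n₂ hJ h₁ h₂, hS t htS, fun m hm => hm⟩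
    · have c₁ : ∀ m, Der B J t₁ m → Der B J t (m + n₂) := fun m hm =>
        Der.step t₁ t₂ t m n₂ hJ hm h₂
      have c₂ : ∀ m, Der B J t₂ m → Der B J t (m + n₁) := fun m hm => by
        rw [Nat.add_comm]
        exact Der.step t₁ t₂ t n₁ m hJ h₁ hm
      have hle : (insert t S).card ≤ Fintype.card T := Finset.card_le_univ _
      rw [Finset.card_insert_of_notMem htS] at hle
      have g₁ := ih₁ (insert t S) (by
        intro s hs
        rcases Finset.mem_insert.mp hs with rfl | hs
        · exact ⟨n₂, h₂.one_le, c₁⟩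
        · obtain ⟨c, hc, hc'⟩ := hS s hs
          exact ⟨n₂ + c, by omega, fun m hm => by
            rw [← Nat.add_assoc]
            exact hc' _ (c₁ m hm)⟩)
      have g₂ := ih₂ (insert t S) (by
        intro s hs
        rcases Finset.mem_insert.mp hs with rfl | hs
        · exact ⟨n₁, h₁.one_le, c₂⟩
        · obtain ⟨c, hc, hc'⟩ := hS s hs
          exact ⟨n₁ + c, by omega, fun m hm => by
            rw [← Nat.add_assoc]
            exact hc' _ (c₂ m hm)⟩)
      rw [Finset.card_insert_of_notMem htS] at g₁ g₂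
      rcases g₁ with g₁ | ⟨u, m, c, e, hu, hl, hc⟩
      · rcases g₂ with g₂ | ⟨u, m, c, e, hu, hl, hc⟩
        · left
          have e : Fintype.card T - S.card = Fintype.card T - (S.card + 1) + 1 := by omega
          rw [e, pow_succ]
          omega
        · exact Or.inr ⟨u, m, c + n₁, by omega, hu, hl, fun m' hm' => by
            rw [← Nat.add_assoc]
            exact c₂ _ (hc m' hm')⟩
      · exact Or.inr ⟨u, m, c + n₂, by omega, hu, hl, fun m' hm' => by
          rw [← Nat.add_assoc]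
          exact c₁ _ (hc m' hm')⟩

theorem Der.pump {T : Type} [Finite T] (B : T → Prop) (J : T → T → T → Prop) :
    ∃ p N : ℕ, 1 ≤ p ∧ ∀ t n, N ≤ n → Der B J t n → Der B J t (n + p) := by
  classical
  haveI := Fintype.ofFinite T
  have hc : ∀ t : T, ∃ c : ℕ, 1 ≤ c ∧ ((∃ l : ℕ, 1 ≤ l ∧ ∀ m, Der B J t m → Der B J t (m + l)) →
      ∀ m, Der B J t m → Der B J t (m + c)) := by
    intro t
    by_cases h : ∃ l : ℕ, 1 ≤ l ∧ ∀ m, Der B J t m → Der B J t (m + l)
    · obtain ⟨l, hl, hl'⟩ := h
      exact ⟨l, hl, fun _ => hl'⟩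
    · exact ⟨1, le_rfl, fun h' => absurd h' h⟩
  choose c hc hc' using hc
  have hp : ∀ t, (∃ l : ℕ, 1 ≤ l ∧ ∀ m, Der B J t m → Der B J t (m + l)) →
      ∀ m, Der B J t m → Der B J t (m + ∏ t, c t) := by
    intro t ht m hm
    obtain ⟨k, hk⟩ : c t ∣ ∏ t, c t := Finset.dvd_prod_of_mem c (Finset.mem_univ t)
    rw [hk]
    clear hk
    induction k with
    | zero => simpa using hm
    | succ k ih =>
      rw [Nat.mul_succ, ← Nat.add_assoc]
      exact hc' t ht _ ih
  refine ⟨∏ t, c t, 2 ^ (Fintype.card T) + 1, Finset.one_le_prod' fun t _ => hc t, ?_⟩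
  intro t n hn h
  rcases h.key ∅ (fun s hs => absurd hs (Finset.notMem_empty s)) with h1 | ⟨u, m, d, e, hu, hl, hd⟩
  · rw [Finset.card_empty, Nat.sub_zero] at h1
    omega
  · have h2 := hd _ (hp u hl m hu)
    have e2 : n + ∏ t, c t = m + ∏ t, c t + d := by omega
    rw [e2]
    exact h2

end Pool.Agent.Helper20.OP
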