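import Pool.Agent.Helper20.OP.EF

/-!
# Block OP-T3: uniform sums

`usum c d R S`: the structure on `V ⊕ W` with the relations of `R` on `V`, of `S` on `W`, and with constant
relations between `V` and `W`.

Proof of `EFq.usum`.  Induction on `q`, for all `m₁, m₂, m, g`.  `AtEq` of the sum follows from the `AtEq`s of the
summands (case distinction on `g i`, `g j`).  Step `q + 1`: an element `x` of the sum is `inl x₀` or `inr x₀`.
If it is `inl x₀`, take `y₀` from the first hypothesis and answer `inl y₀`; use the induction hypothesis with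
`a` replaced by `Fin.snoc a x₀`, the same `e` (`EFq q` of `e`, `e'` by `EFq.mono`) and the new `g`:
`Fin.snoc (fun i => Sum.map Fin.castSucc id (g i)) (Sum.inl (Fin.last m₁))`; the two functions
`fun i => Sum.map (Fin.snoc a x₀) e (g' i)` and `Fin.snoc (fun i => Sum.map a e (g i)) (inl x₀)` are equal.
-/

set_option autoImplicit false

namespace Pool.Agent.Helper20.OP

/-- the uniform sum -/
def usum {b : ℕ} {V W : Type} (c d : Fin b → Prop) (R : Str b V) (S : Str b W) : Str b (V ⊕ W) :=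
  fun r x y => match x, y with
    | Sum.inl x, Sum.inl y => R r x y
    | Sum.inr x, Sum.inr y => S r x y
    | Sum.inl _, Sum.inr _ => c r
    | Sum.inr _, Sum.inl _ => d r

private lemma snoc_inl {V W : Type} {m₁ m₂ m : ℕ} (a : Fin m₁ → V) (e : Fin m₂ → W)
    (g : Fin m → Fin m₁ ⊕ Fin m₂) (x : V) :
    (fun i => Sum.map (Fin.snoc a x : Fin (m₁ + 1) → V) e
      ((Fin.snoc (fun i => Sum.map Fin.castSucc id (g i)) (Sum.inl (Fin.last m₁)) :
        Fin (m + 1) → Fin (m₁ + 1) ⊕ Fin m₂) i)) =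
    (Fin.snoc (fun i => Sum.map a e (g i)) (Sum.inl x) : Fin (m + 1) → V ⊕ W) := by
  funext i
  refine Fin.lastCases ?_ (fun j => ?_) i
  · rw [Fin.snoc_last, Fin.snoc_last]
    simp only [Sum.map_inl, Fin.snoc_last]
  · rw [Fin.snoc_castSucc, Fin.snoc_castSucc]
    rcases g j with i₁ | i₂
    · simp only [Sum.map_inl, Fin.snoc_castSucc]
    · simp only [Sum.map_inr, id]

private lemma snoc_inr {V W : Type} {m₁ m₂ m : ℕ} (a : Fin m₁ → V) (e : Fin m₂ → W)
    (g : Fin m → Fin m₁ ⊕ Fin m₂) (x : W) :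
    (fun i => Sum.map a (Fin.snoc e x : Fin (m₂ + 1) → W)
      ((Fin.snoc (fun i => Sum.map id Fin.castSucc (g i)) (Sum.inr (Fin.last m₂)) :
        Fin (m + 1) → Fin m₁ ⊕ Fin (m₂ + 1)) i)) =
    (Fin.snoc (fun i => Sum.map a e (g i)) (Sum.inr x) : Fin (m + 1) → V ⊕ W) := by
  funext i
  refine Fin.lastCases ?_ (fun j => ?_) i
  · rw [Fin.snoc_last, Fin.snoc_last]
    simp only [Sum.map_inr, Fin.snoc_last]
  · rw [Fin.snoc_castSucc, Fin.snoc_castSucc]
    rcases g j with i₁ | i₂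
    · simp only [Sum.map_inl, id]
    · simp only [Sum.map_inr, Fin.snoc_castSucc]

private lemma atEq_usum {b : ℕ} (c d : Fin b → Prop) {V V' W W' : Type} {R : Str b V}
    {R' : Str b V'} {S : Str b W} {S' : Str b W'} {m₁ m₂ m : ℕ} {a : Fin m₁ → V}
    {a' : Fin m₁ → V'} {e : Fin m₂ → W} {e' : Fin m₂ → W'} (g : Fin m → Fin m₁ ⊕ Fin m₂)
    (h : AtEq R R' a a') (h' : AtEq S S' e e') :
    AtEq (OP.usum c d R S) (OP.usum c d R' S') (fun i => Sum.map a e (g i))
      (fun i => Sum.map a' e' (g i)) := by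
  refine ⟨fun i j => ?_, fun r i j => ?_⟩
  · show Sum.map a e (g i) = Sum.map a e (g j) ↔ Sum.map a' e' (g i) = Sum.map a' e' (g j)
    rcases g i with i₁ | i₂ <;> rcases g j with j₁ | j₂
    · simp only [Sum.map_inl, Sum.inl.injEq]
      exact h.1 i₁ j₁
    · simp only [Sum.map_inl, Sum.map_inr, reduceCtorEq]
    · simp only [Sum.map_inl, Sum.map_inr, reduceCtorEq]
    · simp only [Sum.map_inr, Sum.inr.injEq]
      exact h'.1 i₂ j₂
  · show OP.usum c d R S r (Sum.map a e (g i)) (Sum.map a e (g j)) ↔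
      OP.usum c d R' S' r (Sum.map a' e' (g i)) (Sum.map a' e' (g j))
    rcases g i with i₁ | i₂ <;> rcases g j with j₁ | j₂
    · exact h.2 r i₁ j₁
    · exact Iff.rfl
    · exact Iff.rfl
    · exact h'.2 r i₂ j₂

private lemma atEq_of {b q : ℕ} {V W : Type} {R : Str b V} {S : Str b W} {m : ℕ} {a : Fin m → V}
    {c : Fin m → W} (h : EFq q R S a c) : AtEq R S a c := by
  cases q with
  | zero => exact h
  | succ q => exact h.1

theorem EFq.usum {b : ℕ} (c d : Fin b → Prop) (q : ℕ) :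
    ∀ {V V' W W' : Type} {R : Str b V} {R' : Str b V'} {S : Str b W} {S' : Str b W'}
      {m₁ m₂ m : ℕ} {a : Fin m₁ → V} {a' : Fin m₁ → V'} {e : Fin m₂ → W} {e' : Fin m₂ → W'}
      (g : Fin m → Fin m₁ ⊕ Fin m₂), EFq q R R' a a' → EFq q S S' e e' →
      EFq q (OP.usum c d R S) (OP.usum c d R' S') (fun i => Sum.map a e (g i))
        (fun i => Sum.map a' e' (g i)) := by
  induction q with
  | zero =>
    intro V V' W W' R R' S S' m₁ m₂ m a a' e e' g h h'
    exact atEq_usum c d g h h'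
  | succ q ih =>
    intro V V' W W' R R' S S' m₁ m₂ m a a' e e' g h h'
    have hm := EFq.mono (Nat.le_succ q) h
    have hm' := EFq.mono (Nat.le_succ q) h'
    refine ⟨atEq_usum c d g (atEq_of h) (atEq_of h'), fun x => ?_, fun y => ?_⟩
    · rcases x with x | x
      · obtain ⟨y, hy⟩ := h.2.1 x
        refine ⟨Sum.inl y, ?_⟩
        have h1 := ih (Fin.snoc (fun i => Sum.map Fin.castSucc id (g i)) (Sum.inl (Fin.last m₁)) :
          Fin (m + 1) → Fin (m₁ + 1) ⊕ Fin m₂) hy hm'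
        rw [snoc_inl a e g x, snoc_inl a' e' g y] at h1
        exact h1
      · obtain ⟨y, hy⟩ := h'.2.1 x
        refine ⟨Sum.inr y, ?_⟩
        have h1 := ih (Fin.snoc (fun i => Sum.map id Fin.castSucc (g i)) (Sum.inr (Fin.last m₂)) :
          Fin (m + 1) → Fin m₁ ⊕ Fin (m₂ + 1)) hm hy
        rw [snoc_inr a e g x, snoc_inr a' e' g y] at h1
        exact h1
    · rcases y with y | y
      · obtain ⟨x, hx⟩ := h.2.2 y
        refine ⟨Sum.inl x, ?_⟩
        have h1 := ih (Fin.snoc (fun i => Sum.map Fin.castSucc id (g i)) (Sum.inl (Fin.last m₁)) :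
          Fin (m + 1) → Fin (m₁ + 1) ⊕ Fin m₂) hx hm'
        rw [snoc_inl a e g x, snoc_inl a' e' g y] at h1
        exact h1
      · obtain ⟨x, hx⟩ := h'.2.2 y
        refine ⟨Sum.inr x, ?_⟩
        have h1 := ih (Fin.snoc (fun i => Sum.map id Fin.castSucc (g i)) (Sum.inr (Fin.last m₂)) :
          Fin (m + 1) → Fin m₁ ⊕ Fin (m₂ + 1)) hm hx
        rw [snoc_inr a e g x, snoc_inr a' e' g y] at h1
        exact h1

/-- the version without tuples -/
theorem EFq.usum0 {b : ℕ} (c d : Fin b → Prop) (q : ℕ) {V V' W W' : Type} {R : Str b V}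
    {R' : Str b V'} {S : Str b W} {S' : Str b W'} (h : EFq q R R' Fin.elim0 Fin.elim0)
    (h' : EFq q S S' Fin.elim0 Fin.elim0) :
    EFq q (OP.usum c d R S) (OP.usum c d R' S') Fin.elim0 Fin.elim0 := by
  have h1 := EFq.usum c d q (m := 0) Fin.elim0 h h'
  have e1 : (fun i : Fin 0 => Sum.map (Fin.elim0 : Fin 0 → V) (Fin.elim0 : Fin 0 → W)
      ((Fin.elim0 : Fin 0 → Fin 0 ⊕ Fin 0) i)) = Fin.elim0 := funext (fun i => i.elim0)
  have e2 : (fun i : Fin 0 => Sum.map (Fin.elim0 : Fin 0 → V') (Fin.elim0 : Fin 0 → W')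
      ((Fin.elim0 : Fin 0 → Fin 0 ⊕ Fin 0) i)) = Fin.elim0 := funext (fun i => i.elim0)
  rw [e1, e2] at h1
  exact h1

end Pool.Agent.Helper20.OP
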