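import Pool.Agent.Helper20.OP.Defs

/-!
# Block OP-T4b: sets closed under a shift are ultimately periodic

`ultPeriodic_of_add`: for each residue class modulo `p` the set of the elements `≥ N` of `A` in the class is closed
under `+ p`, so from some point on all or no elements of the class are in `A`.  (For instance: the function
`r ↦ ` least element of `A` which is `≥ N` and congruent to `r`, if there is one; take `N'` larger than
all of them.)
-/

set_option autoImplicit false

namespace Pool.Agent.Helper20.OP

theorem ultPeriodic_of_add {A : Set ℕ} {p N : ℕ} (hp : 1 ≤ p)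
    (h : ∀ n, N ≤ n → n ∈ A → n + p ∈ A) : UltPeriodic A := by
  classical
  have hmul : ∀ k n, N ≤ n → n ∈ A → n + k * p ∈ A := by
    intro k
    induction k with
    | zero => intro n _ hn; simpa using hn
    | succ k ih =>
      intro n hn hA
      have h1 := h _ (by omega) (ih n hn hA)
      rwa [Nat.succ_mul, ← add_assoc]
  -- a bound for each class
  have hb : ∀ r : ℕ, ∃ B : ℕ, ∀ n, B ≤ n → n % p = r → n + p ∈ A → n ∈ A := by
    intro r
    by_cases hr : ∃ m, N ≤ m ∧ m ∈ A ∧ m % p = r
    · obtain ⟨m, hm, hmA, hmr⟩ := hr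
      refine ⟨m, fun n hn hnr _ => ?_⟩
      have h1 : m ≡ n [MOD p] := by
        unfold Nat.ModEq
        rw [hmr, hnr]
      obtain ⟨k, hk⟩ := (Nat.modEq_iff_dvd' hn).1 h1
      have h2 : n = m + k * p := by
        rw [mul_comm k p, ← hk]
        omega
      rw [h2]
      exact hmul k m hm hmA
    · refine ⟨N, fun n hn hnr hA => ?_⟩
      exact absurd ⟨n + p, by omega, hA, by rw [Nat.add_mod_right]; exact hnr⟩ hr
  choose B hB using hb
  refine ⟨p, N + ∑ r ∈ Finset.range p, B r, hp, fun n hn => ?_⟩
  have hr : n % p ∈ Finset.range p := Finset.mem_range.2 (Nat.mod_lt _ hp)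
  have h1 : B (n % p) ≤ ∑ r ∈ Finset.range p, B r :=
    Finset.single_le_sum (f := B) (fun _ _ => Nat.zero_le _) hr
  constructor
  · intro hA
    exact h n (by omega) hA
  · intro hA
    exact hB (n % p) n (by omega) rfl hA

end Pool.Agent.Helper20.OP
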