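import Pool.Agent.Helper20.OP.Types
import Pool.Agent.Helper20.OP.Sum
import Pool.Agent.Helper20.OP.Der
import Pool.Agent.Helper20.OP.UltP

/-!
# Block OP-T5: spectra over the structures generated by uniform sums are ultimately periodic

`Gen b V R`: the structure `(V, R)` can be built from one-element structures by uniform sums (up to isomorphism).

Proof of `gen_ultPeriodic`.  Let `q` be the number of `EFq.realize φ` (with `m = 0`; `φ.Realize` for a sentence is
`BoundedFormula.Realize φ default default`), and `T`, `tp` from `exists_types b q 0`.  Let `B t` say: `t = tp V R _`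
for some one-element structure; `J t₁ t₂ t`: there are structures `R`, `S` with types `t₁`, `t₂` and `c`, `d` such that
`usum c d R S` has type `t`.  Then: `Der B J t n` if and only if there is `(V, R)` with `Gen b V R`, `Nat.card V = n`,
`tp V R _ = t`.  (If: induction on `Gen`, `V` is finite; an isomorphic structure has the same type, as isomorphic
structures are `EFq`-equivalent, induction on `q`.  Only if: induction on `Der`, using `EFq.usum0`.)
So `n ∈ sizes Gen φ` if and only if `n ≥ 1` and `Der B J t n` for some `t` in `F`, the set of the types of the structures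
satisfying `φ`.  Apply `Der.pump` and `ultPeriodic_of_add`.
-/

set_option autoImplicit false

namespace Pool.Agent.Helper20.OP

open FirstOrder FirstOrder.Language Pool.Agent.Helper20.Spectra

/-- structures generated by uniform sums -/
inductive Gen (b : ℕ) : (V : Type) → Str b V → Prop
  | one (V : Type) (R : Str b V) : Nat.card V = 1 → Gen b V R
  | sum (V W : Type) (R : Str b V) (S : Str b W) (c d : Fin b → Prop) : Gen b V R → Gen b W S →
      Gen b (V ⊕ W) (usum c d R S)
  | iso (V W : Type) (e : V ≃ W) (R : Str b V) : Gen b V R →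
      Gen b W (fun r x y => R r (e.symm x) (e.symm y))

lemma Gen.finite {b : ℕ} {V : Type} {R : Str b V} (h : Gen b V R) : Finite V ∧ Nonempty V := by
  induction h with
  | one V R h =>
    have h1 : 0 < Nat.card V := by omega
    exact ⟨Nat.finite_of_card_ne_zero (by omega), (Nat.card_pos_iff.1 h1).1⟩
  | sum V W R S c d _ _ ih1 ih2 =>
    obtain ⟨_, ⟨v⟩⟩ := ih1
    obtain ⟨_, _⟩ := ih2
    exact ⟨inferInstance, ⟨Sum.inl v⟩⟩
  | iso V W e R _ ih =>
    obtain ⟨_, ⟨v⟩⟩ := ih
    exact ⟨Finite.of_equiv V e, ⟨e v⟩⟩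

/-- isomorphic structures are equivalent -/
lemma EFq.iso {b : ℕ} (q : ℕ) {V W : Type} (e : V ≃ W) (R : Str b V) {m : ℕ} (a : Fin m → V) :
    EFq q R (fun r (x y : W) => R r (e.symm x) (e.symm y)) a (fun i => e (a i)) := by
  induction q generalizing m with
  | zero => exact ⟨fun i j => by simp, fun r i j => by simp⟩
  | succ q ih =>
    have h1 : ∀ x : V, (fun i => e ((Fin.snoc a x : Fin (m + 1) → V) i)) =
        (Fin.snoc (fun i => e (a i)) (e x) : Fin (m + 1) → W) := by
      intro x
      funext i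
      refine Fin.lastCases ?_ (fun i => ?_) i <;> simp
    refine ⟨⟨fun i j => by simp, fun r i j => by simp⟩, fun x => ⟨e x, ?_⟩, fun y => ⟨e.symm y, ?_⟩⟩
    · have h2 := ih (Fin.snoc a x)
      rw [h1] at h2
      exact h2
    · have h2 := ih (Fin.snoc a (e.symm y))
      rw [h1, e.apply_symm_apply] at h2
      exact h2

theorem gen_ultPeriodic (b : ℕ) (φ : (binLang b).Sentence) :
    UltPeriodic (sizes (fun V R => Gen b V R) φ) := by
  obtain ⟨q, hq⟩ := EFq.realize (φ : (binLang b).BoundedFormula Empty 0)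
  obtain ⟨T, hT, tp, htp⟩ := exists_types b q 0
  let B : T → Prop := fun t => ∃ (V : Type) (R : Str b V), Nat.card V = 1 ∧ tp V R Fin.elim0 = t
  let J : T → T → T → Prop := fun t₁ t₂ t => ∃ (V W : Type) (R : Str b V) (S : Str b W)
    (c d : Fin b → Prop), tp V R Fin.elim0 = t₁ ∧ tp W S Fin.elim0 = t₂ ∧
      tp (V ⊕ W) (usum c d R S) Fin.elim0 = t
  have hiso : ∀ (V W : Type) (e : V ≃ W) (R : Str b V),
      EFq q R (fun r (x y : W) => R r (e.symm x) (e.symm y)) Fin.elim0 Fin.elim0 := by
    intro V W e R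
    have h1 := EFq.iso q e R (Fin.elim0 : Fin 0 → V)
    have h2 : (fun i => e ((Fin.elim0 : Fin 0 → V) i)) = Fin.elim0 := funext (fun i => i.elim0)
    rw [h2] at h1
    exact h1
  have hA : ∀ (V : Type) (R : Str b V), Gen b V R → Der B J (tp V R Fin.elim0) (Nat.card V) := by
    intro V R h
    induction h with
    | one V R h =>
      rw [h]
      exact Der.base _ ⟨V, R, h, rfl⟩
    | sum V W R S c d h1 h2 ih1 ih2 =>
      have := h1.finite.1
      have := h2.finite.1
      rw [Nat.card_sum]
      exact Der.step _ _ _ _ _ ⟨V, W, R, S, c, d, rfl, rfl, rfl⟩ ih1 ih2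
    | iso V W e R _ ih =>
      rw [← Nat.card_congr e, ← (htp _ _ _ _ _ _).2 (hiso V W e R)]
      exact ih
  have hB : ∀ t n, Der B J t n → ∃ (V : Type) (R : Str b V), Gen b V R ∧ Nat.card V = n ∧
      tp V R Fin.elim0 = t := by
    intro t n h
    induction h with
    | base t h =>
      obtain ⟨V, R, h1, h2⟩ := h
      exact ⟨V, R, Gen.one V R h1, h1, h2⟩
    | step t₁ t₂ t n₁ n₂ h _ _ ih1 ih2 =>
      obtain ⟨V₀, W₀, R₀, S₀, c, d, e1, e2, e3⟩ := h
      obtain ⟨V, R, g1, c1, r1⟩ := ih1
      obtain ⟨W, S, g2, c2, r2⟩ := ih2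
      have := g1.finite.1
      have := g2.finite.1
      refine ⟨V ⊕ W, usum c d R S, Gen.sum V W R S c d g1 g2, ?_, ?_⟩
      · rw [Nat.card_sum, c1, c2]
      · rw [← e3, htp]
        exact EFq.usum0 c d q ((htp _ _ _ _ _ _).1 (r1.trans e1.symm))
          ((htp _ _ _ _ _ _).1 (r2.trans e2.symm))
  have hmod : ∀ (V W : Type) (R : Str b V) (S : Str b W), EFq q R S Fin.elim0 Fin.elim0 →
      (Models R φ ↔ Models S φ) := by
    intro V W R S h
    have h1 := hq V W R S _ _ h
    have e1 : (Fin.elim0 : Fin 0 → V) = default := Subsingleton.elim _ _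
    have e2 : (Fin.elim0 : Fin 0 → W) = default := Subsingleton.elim _ _
    rw [e1, e2] at h1
    exact h1
  let F : Set T := {t | ∃ (V : Type) (R : Str b V), tp V R Fin.elim0 = t ∧ Models R φ}
  have hmem : ∀ n, n ∈ sizes (fun V R => Gen b V R) φ ↔ 1 ≤ n ∧ ∃ t ∈ F, Der B J t n := by
    intro n
    constructor
    · rintro ⟨hn, R, h1, h2⟩
      refine ⟨hn, _, ⟨Fin n, R, rfl, h2⟩, ?_⟩
      have h3 := hA _ R h1
      rw [Nat.card_fin] at h3
      exact h3
    · rintro ⟨hn, t, ⟨V₀, R₀, h1, h2⟩, h3⟩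
      obtain ⟨V, R, h4, h5, h6⟩ := hB t n h3
      have := h4.finite.1
      let e : V ≃ Fin n := (Finite.equivFin V).trans (finCongr h5)
      refine ⟨hn, _, Gen.iso V (Fin n) e R h4, ?_⟩
      rw [← hmod _ _ _ _ (hiso V (Fin n) e R)]
      exact (hmod _ _ _ _ ((htp _ _ _ _ _ _).1 (h1.trans h6.symm))).1 h2
  obtain ⟨p, N, hp, hpump⟩ := Der.pump B J
  refine ultPeriodic_of_add (p := p) (N := N) hp (fun n hn hmn => ?_)
  rw [hmem] at hmn ⊢
  obtain ⟨h1, t, ht, h2⟩ := hmn
  exact ⟨by omega, t, ht, hpump t n hn h2⟩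

end Pool.Agent.Helper20.OP
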