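import Pool.Agent.Helper20.OP.EF

/-!
# Block OP-T2: finitely many types

For all `q`, `m` there are a finite type `T` and a map `tp` to `T`, defined for all structures with `b`
binary relations and all `m`-tuples, such that `tp V R a = tp W S c` holds if and only if the `q` round
equivalence holds.

Proof.  Induction on `q` for all `m`.  `q = 0`: `T = (Fin m → Fin m → Prop) × (Fin b → Fin m → Fin m → Prop)`, the pair
of the equality pattern and the relation pattern (finite, as `Prop` is finite).  `q + 1`: with the `T'`, `tp'` of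
`(q, m + 1)` put `T = (the T of (0, m)) × Set T'` and `tp V R a = (the atomic type, {tp' (Fin.snoc a x) | x : V})`;
two such sets are equal if and only if the back-and-forth clauses hold (by the induction hypothesis).
-/

set_option autoImplicit false

namespace Pool.Agent.Helper20.OP

private theorem exists_types_zero (b m : ℕ) : ∃ (T : Type) (_ : Finite T)
    (tp : ∀ (V : Type), Str b V → (Fin m → V) → T),
    ∀ (V W : Type) (R : Str b V) (S : Str b W) (a : Fin m → V) (c : Fin m → W),
      tp V R a = tp W S c ↔ AtEq R S a c := by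
  refine ⟨(Fin m → Fin m → Prop) × (Fin b → Fin m → Fin m → Prop), inferInstance,
    fun V R a => (fun i j => a i = a j, fun r i j => R r (a i) (a j)), ?_⟩
  intro V W R S a c
  rw [Prod.ext_iff]
  constructor
  · rintro ⟨h1, h2⟩
    exact ⟨fun i j => (congrFun (congrFun h1 i) j).to_iff,
      fun r i j => (congrFun (congrFun (congrFun h2 r) i) j).to_iff⟩
  · rintro ⟨h1, h2⟩
    exact ⟨funext fun i => funext fun j => propext (h1 i j),
      funext fun r => funext fun i => funext fun j => propext (h2 r i j)⟩

theorem exists_types (b q m : ℕ) : ∃ (T : Type) (_ : Finite T)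
    (tp : ∀ (V : Type), Str b V → (Fin m → V) → T),
    ∀ (V W : Type) (R : Str b V) (S : Str b W) (a : Fin m → V) (c : Fin m → W),
      tp V R a = tp W S c ↔ EFq q R S a c := by
  induction q generalizing m with
  | zero =>
    obtain ⟨T, hT, tp, h⟩ := exists_types_zero b m
    exact ⟨T, hT, tp, fun V W R S a c => h V W R S a c⟩
  | succ q ih =>
    obtain ⟨T₀, hT₀, tp₀, h₀⟩ := exists_types_zero b m
    obtain ⟨T₁, hT₁, tp₁, h₁⟩ := ih (m + 1)
    refine ⟨T₀ × Set T₁, inferInstance,
      fun V R a => (tp₀ V R a, Set.range fun x : V => tp₁ V R (Fin.snoc a x)), ?_⟩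
    intro V W R S a c
    rw [Prod.ext_iff]
    constructor
    · rintro ⟨e1, e2⟩
      change (Set.range fun x : V => tp₁ V R (Fin.snoc a x)) =
        Set.range fun y : W => tp₁ W S (Fin.snoc c y) at e2
      refine ⟨(h₀ V W R S a c).1 e1, fun x => ?_, fun y => ?_⟩
      · have hx : tp₁ V R (Fin.snoc a x) ∈ Set.range fun y : W => tp₁ W S (Fin.snoc c y) :=
          e2 ▸ Set.mem_range_self x
        obtain ⟨y, hy⟩ := hx
        exact ⟨y, (h₁ V W R S _ _).1 hy.symm⟩
      · have hy : tp₁ W S (Fin.snoc c y) ∈ Set.range fun x : V => tp₁ V R (Fin.snoc a x) :=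
          e2.symm ▸ Set.mem_range_self y
        obtain ⟨x, hx⟩ := hy
        exact ⟨x, (h₁ V W R S _ _).1 hx⟩
    · rintro ⟨e0, e1, e2⟩
      refine ⟨(h₀ V W R S a c).2 e0, Set.Subset.antisymm ?_ ?_⟩
      · rintro _ ⟨x, rfl⟩
        obtain ⟨y, hy⟩ := e1 x
        exact ⟨y, ((h₁ V W R S _ _).2 hy).symm⟩
      · rintro _ ⟨y, rfl⟩
        obtain ⟨x, hx⟩ := e2 y
        exact ⟨x, (h₁ V W R S _ _).2 hx⟩

end Pool.Agent.Helper20.OP
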