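import Pool.Agent.Helper20.OP.Grid

/-!
# Block OP-G1: decoding of grid codes

Proof.  `o`: the corner.  `lt` is irreflexive and transitive on the finite set `V`, so well-founded.  Define partial
elements `z i j : Option V` (or relations `At i j x`): `z 0 0 = o`; `z i (j+1)` = the `RR`-successor of `z i j`; `z (i+1) 0` =
the `UU`-successor of `z i 0`.  For instance as a relation: `At : ℕ → ℕ → V → Prop`, `At i j x`: `x` is obtained from `o` by
`i` steps `UU` followed by `j` steps `RR` (defined by recursion on `j`, then `i`); it is functional.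
(1) `UU x x'`, `At i j x` imply `At (i+1) j x'`: induction on `j`: `j = 0` by definition; `j + 1`: `x` has the
`RR`-predecessor `w` with `At i j w`; `c3` gives `w'` with `UU w w'`, `RR w' x'`; so `At (i+1) j w'`, `At (i+1) (j+1) x'`.
(2) every `x` with `Z x` has `At i j x` for some `i, j`: well-founded induction on `lt`: `x = o`; or it has an
`RR`-predecessor; or a `UU`-predecessor (then use (1)).
(3) `At i (j+1) x` has an `RR`-predecessor; `At i 0 x` has none: induction on `i` (`o` has none; if `UU x x'` and `RR w x'` then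
by `c4` (with `RR w x'`, `UU x x'`) there is an `RR`-predecessor of `x`).  `At (i+1) j x` has a `UU`-predecessor `w` with `At i j w`
(induction on `j`, with `c1`/`c2` and functionality); `At 0 j x` has no `UU`-predecessor (induction on `j`, with `c4`).
(4) `At i j x` and `At i' j' x` imply `i = i'`, `j = j'`: induction on `j` (predecessors are unique), then on `i`.
(5) Existence: `At i j` is inhabited if and only if `At i 0` and `At 0 j` are: only if: `At i (j+1) x` gives
`At i j w`; and by (3) `At (i+1) j x` gives `At i j w`; if: induction with `c1`.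
(6) Let `k`, `n` be the numbers with: `At i 0` inhabited iff `i < k`, `At 0 j` inhabited iff `j < n` (finite by (4);
initial segments).  So `Z` is in bijection with `k × n`.
(7) `D x` for all `At i i x` (induction, `diag`).  With `l := min k n - 1`: the element `At l l` has `D`, so it has an
`RR`-successor iff it has a `UU`-successor; if `k < n` it has the first but not the second; so `k = n =: N`.
`N ≥ 2`, as `o` has an `RR`-successor.
(8) `Tiles W N`: choose a tile of each element (`tot`), `f x y` := the tile of the element `At y x` (column `x`, row `y`).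
(9) `Nat.card V = m N ^ 2 + e`: `V` is the disjoint union of `Ex` and the sets `{v | Own v x}`, `x ∈ Z` (`exactly_iff`).
-/

set_option autoImplicit false

namespace Pool.Agent.Helper20.OP

open Pool.Agent.Helper29.Prefix

/-- `i` steps upwards from `o` -/
private def AtU {V : Type} (UU : V → V → Prop) (o : V) : ℕ → V → Prop
  | 0, x => x = o
  | i + 1, x => ∃ w, AtU UU o i w ∧ UU w x

/-- `i` steps upwards, then `j` steps to the right -/
private def At {V : Type} (RR UU : V → V → Prop) (o : V) (i : ℕ) : ℕ → V → Prop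
  | 0, x => AtU UU o i x
  | j + 1, x => ∃ w, At RR UU o i j w ∧ RR w x

section aux

variable {V Γ : Type} {W : Wang Γ} {m e : ℕ} {Z : V → Prop}
    {lt RR UU : V → V → Prop} {D : V → Prop} {t : V → Γ → Prop} {Own : V → V → Prop}
    {Ex : V → Prop} {o : V}

private lemma at_up (h : GridCode W m e Z lt RR UU D t Own Ex) {i j : ℕ} {x x' : V}
    (hx : At RR UU o i j x) (hu : UU x x') : At RR UU o (i + 1) j x' := by
  induction j generalizing x x' with
  | zero => exact ⟨x, hx, hu⟩
  | succ j ih =>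
    obtain ⟨w, hw, hr⟩ := hx
    obtain ⟨w', h1, h2⟩ := h.c3 w x x' hr hu
    exact ⟨w', ih hw h1, h2⟩

private lemma at_z (h : GridCode W m e Z lt RR UU D t Own Ex) (hz : Z o) {i j : ℕ} {x : V}
    (hx : At RR UU o i j x) : Z x := by
  cases j with
  | zero =>
    cases i with
    | zero => exact (show x = o from hx) ▸ hz
    | succ i => obtain ⟨w, -, hu⟩ := hx; exact (h.uu w x hu).2.1
  | succ j => obtain ⟨w, -, hr⟩ := hx; exact (h.rr w x hr).2.1

private lemma at_ex (h : GridCode W m e Z lt RR UU D t Own Ex) [Finite V]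
    (hc : ∀ x, Z x → x = o ∨ (∃ y, RR y x) ∨ ∃ y, UU y x) (x : V) (hx : Z x) :
    ∃ i j, At RR UU o i j x := by
  haveI : IsTrans V lt := ⟨h.trans⟩
  haveI : Std.Irrefl lt := ⟨h.irr⟩
  have wf : WellFounded lt := Finite.wellFounded_of_trans_of_irrefl lt
  induction x using wf.induction with
  | _ x ih =>
    rcases hc x hx with h0 | ⟨y, hy⟩ | ⟨y, hy⟩
    · exact ⟨0, 0, h0⟩
    · obtain ⟨i, j, hij⟩ := ih y (h.rr y x hy).2.2 (h.rr y x hy).1
      exact ⟨i, j + 1, y, hij, hy⟩
    · obtain ⟨i, j, hij⟩ := ih y (h.uu y x hy).2.2 (h.uu y x hy).1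
      exact ⟨i + 1, j, at_up h hij hy⟩

private lemma no_left (h : GridCode W m e Z lt RR UU D t Own Ex) (ho : ∀ x, ¬ RR x o) {i : ℕ} {x : V}
    (hx : At RR UU o i 0 x) (y : V) : ¬ RR y x := by
  induction i generalizing x y with
  | zero =>
    have h1 : x = o := hx
    rw [h1]; exact ho y
  | succ i ih =>
    obtain ⟨w, hw, hu⟩ := hx
    intro hy
    obtain ⟨x0, h1, -⟩ := h.c4 y w x hy hu
    exact ih hw x0 h1

private lemma up_pred (h : GridCode W m e Z lt RR UU D t Own Ex) {i j : ℕ} {x : V}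
    (hx : At RR UU o (i + 1) j x) : ∃ w, At RR UU o i j w ∧ UU w x := by
  induction j generalizing x with
  | zero => exact hx
  | succ j ih =>
    obtain ⟨u, hu, hr⟩ := hx
    obtain ⟨w, hw, hwu⟩ := ih hu
    obtain ⟨y, h1, h2⟩ := h.c2 w u x hwu hr
    exact ⟨y, ⟨w, hw, h1⟩, h2⟩

private lemma no_down (h : GridCode W m e Z lt RR UU D t Own Ex) (ho : ∀ x, ¬ UU x o) {j : ℕ} {x : V}
    (hx : At RR UU o 0 j x) (y : V) : ¬ UU y x := by
  induction j generalizing x y with
  | zero =>
    have h1 : x = o := hx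
    rw [h1]; exact ho y
  | succ j ih =>
    obtain ⟨w, hw, hr⟩ := hx
    intro hy
    obtain ⟨x0, -, h2⟩ := h.c4 w y x hr hy
    exact ih hw x0 h2

private lemma at_fun (h : GridCode W m e Z lt RR UU D t Own Ex) {i j : ℕ} {x y : V}
    (hx : At RR UU o i j x) (hy : At RR UU o i j y) : x = y := by
  induction j generalizing x y with
  | zero =>
    induction i generalizing x y with
    | zero => exact (show x = o from hx).trans (show y = o from hy).symm
    | succ i ih =>
      obtain ⟨w, hw, hu⟩ := hx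
      obtain ⟨w', hw', hu'⟩ := hy
      have := ih hw hw'
      subst this
      exact h.ufun w x y hu hu'
  | succ j ih =>
    obtain ⟨w, hw, hr⟩ := hx
    obtain ⟨w', hw', hr'⟩ := hy
    have := ih hw hw'
    subst this
    exact h.rfun w x y hr hr'

private lemma at_col (h : GridCode W m e Z lt RR UU D t Own Ex) (ho : ∀ x, ¬ RR x o) {i i' j j' : ℕ} {x : V}
    (hx : At RR UU o i j x) (hy : At RR UU o i' j' x) : j = j' := by
  induction j generalizing x j' with
  | zero =>
    cases j' with
    | zero => rfl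
    | succ j' => obtain ⟨w, -, hr⟩ := hy; exact absurd hr (no_left h ho hx w)
  | succ j ih =>
    obtain ⟨w, hw, hr⟩ := hx
    cases j' with
    | zero => exact absurd hr (no_left h ho hy w)
    | succ j' =>
      obtain ⟨w', hw', hr'⟩ := hy
      have := h.rinj w w' x hr hr'
      subst this
      rw [ih hw hw']

private lemma at_row (h : GridCode W m e Z lt RR UU D t Own Ex) (ho : ∀ x, ¬ UU x o) {i i' j j' : ℕ} {x : V}
    (hx : At RR UU o i j x) (hy : At RR UU o i' j' x) : i = i' := by
  induction i generalizing x i' with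
  | zero =>
    cases i' with
    | zero => rfl
    | succ i' => obtain ⟨w, -, hu⟩ := up_pred h hy; exact absurd hu (no_down h ho hx w)
  | succ i ih =>
    obtain ⟨w, hw, hu⟩ := up_pred h hx
    cases i' with
    | zero => exact absurd hu (no_down h ho hy w)
    | succ i' =>
      obtain ⟨w', hw', hu'⟩ := up_pred h hy
      have := h.uinj w w' x hu hu'
      subst this
      rw [ih hw hw']

private lemma ex_left {i j : ℕ} (hx : ∃ x, At RR UU o i j x) {j' : ℕ} (hj : j' ≤ j) :
    ∃ x, At RR UU o i j' x := by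
  induction j with
  | zero => rw [Nat.le_zero.1 hj]; exact hx
  | succ j ih =>
    rcases Nat.lt_or_ge j' (j + 1) with h1 | h1
    · obtain ⟨x, w, hw, -⟩ := hx
      exact ih ⟨w, hw⟩ (Nat.lt_succ_iff.1 h1)
    · rw [Nat.le_antisymm hj h1]; exact hx

private lemma ex_down (h : GridCode W m e Z lt RR UU D t Own Ex) {i j : ℕ}
    (hx : ∃ x, At RR UU o i j x) {i' : ℕ} (hi : i' ≤ i) : ∃ x, At RR UU o i' j x := by
  induction i with
  | zero => rw [Nat.le_zero.1 hi]; exact hx
  | succ i ih =>
    rcases Nat.lt_or_ge i' (i + 1) with h1 | h1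
    · obtain ⟨x, hx⟩ := hx
      obtain ⟨w, hw, -⟩ := up_pred h hx
      exact ih ⟨w, hw⟩ (Nat.lt_succ_iff.1 h1)
    · rw [Nat.le_antisymm hi h1]; exact hx

private lemma ex_both (h : GridCode W m e Z lt RR UU D t Own Ex) (i j : ℕ)
    (h1 : ∃ x, At RR UU o i 0 x) (h2 : ∃ x, At RR UU o 0 j x) : ∃ x, At RR UU o i j x := by
  induction i generalizing j with
  | zero => exact h2
  | succ i ih =>
    induction j with
    | zero => exact h1
    | succ j ihj =>
      obtain ⟨w', hw'⟩ := ihj (ex_left h2 (Nat.le_succ j))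
      obtain ⟨w, hw, hu⟩ := up_pred h hw'
      obtain ⟨x, u, hu1, hr⟩ := ih (j + 1) (ex_down h h1 (Nat.le_succ i)) h2
      have := at_fun h hu1 hw
      subst this
      obtain ⟨y', hy, -⟩ := h.c1 u x w' hr hu
      exact ⟨y', w', hw', hy⟩

private lemma at_diag (h : GridCode W m e Z lt RR UU D t Own Ex) (hD : D o) {i : ℕ} {x : V}
    (hx : At RR UU o i i x) : D x := by
  induction i generalizing x with
  | zero => exact (show x = o from hx) ▸ hD
  | succ i ih =>
    obtain ⟨y, hy, hu⟩ := up_pred h hx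
    obtain ⟨w, hw, hr⟩ := hy
    exact h.diag w y x (ih hw) hr hu

end aux

theorem GridCode.decode {V Γ : Type} [Finite V] {W : Wang Γ} {m e : ℕ} {Z : V → Prop}
    {lt RR UU : V → V → Prop} {D : V → Prop} {t : V → Γ → Prop} {Own : V → V → Prop}
    {Ex : V → Prop} (h : GridCode W m e Z lt RR UU D t Own Ex) :
    ∃ N, 2 ≤ N ∧ Nat.card V = m * N ^ 2 + e ∧ Tiles W N := by
  classical
  obtain ⟨o, hzo, hDo, hol, hod, ⟨y0, hy0⟩, hoc, hall⟩ := h.corner
  -- the numbers of rows and columns
  have finU : ∃ i, ¬ ∃ x, At RR UU o i 0 x := by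
    by_contra hcon
    push Not at hcon
    choose f hf using hcon
    have hinj : Function.Injective f := by
      intro i i' hii
      exact at_row h hod (hf i) (hii ▸ hf i')
    exact not_injective_infinite_finite f hinj
  have finR : ∃ j, ¬ ∃ x, At RR UU o 0 j x := by
    by_contra hcon
    push Not at hcon
    choose f hf using hcon
    have hinj : Function.Injective f := by
      intro i i' hii
      exact at_col h hol (hf i) (hii ▸ hf i')
    exact not_injective_infinite_finite f hinj
  obtain ⟨k, hk⟩ : ∃ k, ∀ i, (∃ x, At RR UU o i 0 x) ↔ i < k := by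
    refine ⟨Nat.find finU, fun i => ⟨fun hi => ?_, fun hi => ?_⟩⟩
    · by_contra hlt
      exact Nat.find_spec finU (ex_down h hi (not_lt.1 hlt))
    · exact not_not.1 (Nat.find_min finU hi)
  obtain ⟨n, hn⟩ : ∃ n, ∀ j, (∃ x, At RR UU o 0 j x) ↔ j < n := by
    refine ⟨Nat.find finR, fun i => ⟨fun hi => ?_, fun hi => ?_⟩⟩
    · by_contra hlt
      exact Nat.find_spec finR (ex_left hi (not_lt.1 hlt))
    · exact not_not.1 (Nat.find_min finR hi)
  have hE : ∀ i j, (∃ x, At RR UU o i j x) ↔ i < k ∧ j < n := by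
    intro i j
    constructor
    · intro hx
      exact ⟨(hk i).1 (ex_left hx (Nat.zero_le j)), (hn j).1 (ex_down h hx (Nat.zero_le i))⟩
    · rintro ⟨h1, h2⟩
      exact ex_both h i j ((hk i).2 h1) ((hn j).2 h2)
  have h00 : 0 < k ∧ 0 < n := (hE 0 0).1 ⟨o, rfl⟩
  have h01 : 1 < n := ((hE 0 1).1 ⟨y0, o, rfl, hy0⟩).2
  have hkn : k = n := by
    rcases Nat.lt_trichotomy k n with hlt | heq | hlt
    · exfalso
      obtain ⟨l, rfl⟩ : ∃ l, k = l + 1 := ⟨k - 1, by omega⟩
      obtain ⟨x, hx⟩ := (hE l l).2 ⟨by omega, by omega⟩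
      obtain ⟨y, w, hw, hr⟩ := (hE l (l + 1)).2 ⟨by omega, by omega⟩
      have := at_fun h hw hx
      subst this
      obtain ⟨u, hu⟩ := (h.sq w (at_z h hzo hx) (at_diag h hDo hx)).1 ⟨y, hr⟩
      have := (hE (l + 1) l).1 ⟨u, at_up h hx hu⟩
      omega
    · exact heq
    · exfalso
      obtain ⟨l, rfl⟩ : ∃ l, n = l + 1 := ⟨n - 1, by omega⟩
      obtain ⟨x, hx⟩ := (hE l l).2 ⟨by omega, by omega⟩
      obtain ⟨y, hy⟩ := (hE (l + 1) l).2 ⟨by omega, by omega⟩
      obtain ⟨w, hw, hu⟩ := up_pred h hy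
      have := at_fun h hw hx
      subst this
      obtain ⟨u, hr⟩ := (h.sq w (at_z h hzo hx) (at_diag h hDo hx)).2 ⟨y, hu⟩
      have := (hE l (l + 1)).1 ⟨u, w, hx, hr⟩
      omega
  subst hkn
  refine ⟨k, h01, ?_, ?_⟩
  · -- counting
    have hZ : Nat.card {x // Z x} = k * k := by
      have hch : ∀ p : Fin k × Fin k, ∃ x, At RR UU o p.1 p.2 x := fun p =>
        (hE p.1 p.2).2 ⟨p.1.2, p.2.2⟩
      choose g hg using hch
      have hb : Function.Bijective (fun p => (⟨g p, at_z h hzo (hg p)⟩ : {x // Z x})) := by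
        constructor
        · intro p q hpq
          have hpq' : g p = g q := congrArg Subtype.val hpq
          have h1 := at_row h hod (hg p) (hpq' ▸ hg q)
          have h2 := at_col h hol (hg p) (hpq' ▸ hg q)
          exact Prod.ext (Fin.ext h1) (Fin.ext h2)
        · rintro ⟨x, hx⟩
          obtain ⟨i, j, hij⟩ := at_ex h hall x hx
          obtain ⟨h1, h2⟩ := (hE i j).1 ⟨x, hij⟩
          exact ⟨(⟨i, h1⟩, ⟨j, h2⟩), Subtype.ext (at_fun h (hg (⟨i, h1⟩, ⟨j, h2⟩)) hij)⟩
      rw [← Nat.card_congr (Equiv.ofBijective _ hb)]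
      simp
    have hfib : ∀ x : {x // Z x}, Nat.card {v // Own v x.1} = m := fun x =>
      (exactly_iff m _).1 (h.cnt x.1 x.2)
    have hEx : Nat.card {v // Ex v} = e := (exactly_iff e _).1 h.ext
    have hcomp : Nat.card {v // ¬ Ex v} = Nat.card (Σ x : {x // Z x}, {v // Own v x.1}) := by
      have hb : Function.Bijective (fun p : (Σ x : {x // Z x}, {v // Own v x.1}) =>
          (⟨p.2.1, (h.own_z p.2.1 p.1.1 p.2.2).2⟩ : {v // ¬ Ex v})) := by
        constructor
        · rintro ⟨⟨x, hx⟩, ⟨v, hv⟩⟩ ⟨⟨x', hx'⟩, ⟨v', hv'⟩⟩ hpq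
          have hpq' : v = v' := congrArg Subtype.val hpq
          subst hpq'
          have := h.own_un v x x' hv hv'
          subst this
          rfl
        · rintro ⟨v, hv⟩
          rcases h.own v with h1 | ⟨x, hx⟩
          · exact absurd h1 hv
          · exact ⟨⟨⟨x, (h.own_z v x hx).1⟩, ⟨v, hx⟩⟩, rfl⟩
      exact (Nat.card_congr (Equiv.ofBijective _ hb)).symm
    haveI : Fintype {x // Z x} := Fintype.ofFinite _
    have hsig : Nat.card (Σ x : {x // Z x}, {v // Own v x.1}) = k * k * m := by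
      rw [Nat.card_sigma]
      simp only [hfib]
      rw [Finset.sum_const, Finset.card_univ, ← Nat.card_eq_fintype_card, hZ, smul_eq_mul]
    rw [← Nat.card_congr (Equiv.sumCompl Ex), Nat.card_sum, hEx, hcomp, hsig]
    ring
  · -- the tiling
    obtain ⟨γ0, hγ0⟩ := h.tot o hzo
    have hch : ∀ x y : ℕ, ∃ γ : Γ, x < k → y < k → ∃ v, At RR UU o y x v ∧ t v γ := by
      intro x y
      by_cases hxy : x < k ∧ y < k
      · obtain ⟨v, hv⟩ := (hE y x).2 ⟨hxy.2, hxy.1⟩
        obtain ⟨γ, hγ⟩ := h.tot v (at_z h hzo hv)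
        exact ⟨γ, fun _ _ => ⟨v, hv, hγ⟩⟩
      · exact ⟨γ0, fun h1 h2 => absurd ⟨h1, h2⟩ hxy⟩
    choose f hf using hch
    refine ⟨f, ?_, ?_, ?_, ?_, ?_, ?_, ?_⟩
    · intro x y hx hy
      obtain ⟨v, hv, hv1⟩ := hf x y (by omega) hy
      obtain ⟨v', ⟨w, hw, hr⟩, hv1'⟩ := hf (x + 1) y hx hy
      have := at_fun h hw hv
      subst this
      exact h.hR w v' _ _ hr hv1 hv1'
    · intro x y hx hy
      obtain ⟨v, hv, hv1⟩ := hf x y hx (by omega)
      obtain ⟨v', hv', hv1'⟩ := hf x (y + 1) hx hy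
      obtain ⟨w, hw, hu⟩ := up_pred h hv'
      have := at_fun h hw hv
      subst this
      exact h.hU w v' _ _ hu hv1 hv1'
    · intro y hy
      obtain ⟨v, hv, hv1⟩ := hf 0 y (by omega) hy
      exact h.hl v _ (at_z h hzo hv) hv1 (no_left h hol hv)
    · intro y hy
      obtain ⟨v, hv, hv1⟩ := hf (k - 1) y (by omega) hy
      refine h.hr v _ (at_z h hzo hv) hv1 fun w hw => ?_
      have := (hE y (k - 1 + 1)).1 ⟨w, v, hv, hw⟩
      omega
    · intro x hx
      obtain ⟨v, hv, hv1⟩ := hf x 0 hx (by omega)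
      exact h.hb v _ (at_z h hzo hv) hv1 (no_down h hod hv)
    · intro x hx
      obtain ⟨v, hv, hv1⟩ := hf x (k - 1) hx (by omega)
      refine h.ht v _ (at_z h hzo hv) hv1 fun w hw => ?_
      have := (hE (k - 1 + 1) x).1 ⟨w, at_up h hv hw⟩
      omega
    · obtain ⟨v, hv, hv1⟩ := hf 0 0 (by omega) (by omega)
      exact hoc _ ((show v = o from hv) ▸ hv1)

end Pool.Agent.Helper20.OP
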