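import Pool.Agent.Helper20.OP.Coding

/-!
# Square codes

`SqCode`: `I` is a linearly ordered set (`lt`) with `N ≥ 2` elements, the pairs of elements of `I` carry tiles (`t x y γ`:
the pair with first coordinate `x` and second coordinate `y` has the tile `γ`), the tiling is correct; every element
of `V` is in `Ex`, or owned by one element of `I`, or owned by one pair.
-/

set_option autoImplicit false

namespace Pool.Agent.Helper20.OP

open Pool.Agent.Helper29.Prefix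

/-- square codes -/
structure SqCode {V Γ : Type} (W : Wang Γ) (m₁ m₂ e : ℕ) (I : V → Prop) (lt : V → V → Prop)
    (t : V → V → Γ → Prop) (O₁ : V → V → Prop) (O₂ : V → V → V → Prop) (Ex : V → Prop) : Prop where
  irr : ∀ x, I x → ¬ lt x x
  trans : ∀ x y z, I x → I y → I z → lt x y → lt y z → lt x z
  lin : ∀ x y, I x → I y → lt x y ∨ x = y ∨ lt y x
  big : ∃ x y, I x ∧ I y ∧ x ≠ y
  tot : ∀ x y, I x → I y → ∃ γ, t x y γ
  hR : ∀ x x' y γ δ, I x → I x' → I y → lt x x' → (∀ z, I z → ¬ (lt x z ∧ lt z x')) →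
    t x y γ → t x' y δ → W.R γ δ
  hU : ∀ x y y' γ δ, I x → I y → I y' → lt y y' → (∀ z, I z → ¬ (lt y z ∧ lt z y')) →
    t x y γ → t x y' δ → W.U γ δ
  hl : ∀ x y γ, I x → I y → (∀ z, I z → ¬ lt z x) → t x y γ → W.l γ
  hr : ∀ x y γ, I x → I y → (∀ z, I z → ¬ lt x z) → t x y γ → W.r γ
  hb : ∀ x y γ, I x → I y → (∀ z, I z → ¬ lt z y) → t x y γ → W.b γ
  ht : ∀ x y γ, I x → I y → (∀ z, I z → ¬ lt y z) → t x y γ → W.t γ
  hc : ∀ x γ, I x → (∀ z, I z → ¬ lt z x) → t x x γ → W.c γ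
  own : ∀ v, Ex v ∨ (∃ x, O₁ v x) ∨ ∃ x y, O₂ v x y
  own₁ : ∀ v x, O₁ v x → I x ∧ ¬ Ex v ∧ (∀ x', O₁ v x' → x' = x) ∧ ∀ y z, ¬ O₂ v y z
  own₂ : ∀ v x y, O₂ v x y → I x ∧ I y ∧ ¬ Ex v ∧ ∀ x' y', O₂ v x' y' → x' = x ∧ y' = y
  cnt₁ : ∀ x, I x → Exactly m₁ (fun v => O₁ v x)
  cnt₂ : ∀ x y, I x → I y → Exactly m₂ (fun v => O₂ v x y)
  ext : Exactly e Ex

/-- the intended situation: `z i` is the `i`-th element of `I`; `own v` is `none` for `v ∈ Ex`,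
`some (inl i)` if `v` is owned by `z i`, `some (inr (i, j))` if `v` is owned by the pair `(z i, z j)` -/
structure SqStd {V Γ : Type} (W : Wang Γ) (N : ℕ) (f : ℕ → ℕ → Γ) (m₁ m₂ e : ℕ) (I : V → Prop)
    (lt : V → V → Prop) (t : V → V → Γ → Prop) (O₁ : V → V → Prop) (O₂ : V → V → V → Prop)
    (Ex : V → Prop) (z : ℕ → V) (own : V → Option (ℕ ⊕ ℕ × ℕ)) : Prop where
  hN : 2 ≤ N
  tR : ∀ x y, x + 1 < N → y < N → W.R (f x y) (f (x + 1) y)
  tU : ∀ x y, x < N → y + 1 < N → W.U (f x y) (f x (y + 1))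
  tl : ∀ y, y < N → W.l (f 0 y)
  tr : ∀ y, y < N → W.r (f (N - 1) y)
  tb : ∀ x, x < N → W.b (f x 0)
  tt : ∀ x, x < N → W.t (f x (N - 1))
  tc : W.c (f 0 0)
  inj : ∀ i j, i < N → j < N → z i = z j → i = j
  I_iff : ∀ x, I x ↔ ∃ i, i < N ∧ x = z i
  lt_iff : ∀ i j, i < N → j < N → (lt (z i) (z j) ↔ i < j)
  t_iff : ∀ i j γ, i < N → j < N → (t (z i) (z j) γ ↔ γ = f i j)
  O₁_iff : ∀ v x, O₁ v x ↔ ∃ i, i < N ∧ own v = some (Sum.inl i) ∧ x = z i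
  O₂_iff : ∀ v x y, O₂ v x y ↔ ∃ i j, i < N ∧ j < N ∧ own v = some (Sum.inr (i, j)) ∧ x = z i ∧
    y = z j
  own_ex : ∀ v, Ex v → own v = none
  own_some : ∀ v, ¬ Ex v → (∃ i, i < N ∧ own v = some (Sum.inl i)) ∨
    ∃ i j, i < N ∧ j < N ∧ own v = some (Sum.inr (i, j))
  cnt₁ : ∀ i, i < N → Nat.card {v // own v = some (Sum.inl i)} = m₁
  cnt₂ : ∀ i j, i < N → j < N → Nat.card {v // own v = some (Sum.inr (i, j))} = m₂
  ext : Nat.card {v // Ex v} = e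

end Pool.Agent.Helper20.OP
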