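import Pool.Agent.Helper20.OP.Grid

/-!
# Block OP-G2: the intended situation is a grid code

Proof: field by field, `x = z i j` etc. from the characterisations, with `inj`.  The corner is `z 0 0`
(`RR`-successor `z 0 1`, as `N ≥ 2`).  `cnt`, `ext`: `exactly_iff`; `{v | Own v (z i j)} = {v | own v = some (i, j)}`.
-/

set_option autoImplicit false

namespace Pool.Agent.Helper20.OP

open Pool.Agent.Helper29.Prefix

theorem GridStd.code {V Γ : Type} [Finite V] {W : Wang Γ} {N : ℕ} {f : ℕ → ℕ → Γ} {m e : ℕ}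
    {Z : V → Prop} {lt RR UU : V → V → Prop} {D : V → Prop} {t : V → Γ → Prop}
    {Own : V → V → Prop} {Ex : V → Prop} {z : ℕ → ℕ → V} {own : V → Option (ℕ × ℕ)}
    (h : GridStd W N f m e Z lt RR UU D t Own Ex z own) : GridCode W m e Z lt RR UU D t Own Ex := by
  have hN := h.hN
  have hZ : ∀ i j, i < N → j < N → Z (z i j) := fun i j hi hj =>
    (h.Z_iff _).2 ⟨i, j, hi, hj, rfl⟩
  have hRR : ∀ i j, i < N → j + 1 < N → RR (z i j) (z i (j + 1)) := fun i j hi hj =>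
    (h.RR_iff _ _).2 ⟨i, j, hi, hj, rfl, rfl⟩
  have hUU : ∀ i j, i + 1 < N → j < N → UU (z i j) (z (i + 1) j) := fun i j hi hj =>
    (h.UU_iff _ _).2 ⟨i, j, hi, hj, rfl, rfl⟩
  have tt : ∀ i j γ, i < N → j < N → t (z i j) γ → γ = f j i := fun i j γ hi hj ht =>
    (h.t_iff i j γ hi hj).1 ht
  constructor
  · exact h.irr
  · exact h.trans
  · -- rr
    intro x y hxy
    obtain ⟨i, j, hi, hj, rfl, rfl⟩ := (h.RR_iff x y).1 hxy
    exact ⟨hZ i j hi (by omega), hZ i (j + 1) hi hj, h.ltR i j hi hj⟩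
  · -- uu
    intro x y hxy
    obtain ⟨i, j, hi, hj, rfl, rfl⟩ := (h.UU_iff x y).1 hxy
    exact ⟨hZ i j (by omega) hj, hZ (i + 1) j hi hj, h.ltU i j hi hj⟩
  · -- rfun
    intro x y y' h1 h2
    obtain ⟨i, j, hi, hj, rfl, rfl⟩ := (h.RR_iff x y).1 h1
    obtain ⟨i', j', hi', hj', e1, rfl⟩ := (h.RR_iff _ y').1 h2
    obtain ⟨rfl, rfl⟩ := h.inj _ _ _ _ hi (by omega) hi' (by omega) e1
    rfl
  · -- rinj
    intro x x' y h1 h2
    obtain ⟨i, j, hi, hj, rfl, rfl⟩ := (h.RR_iff x y).1 h1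
    obtain ⟨i', j', hi', hj', rfl, e1⟩ := (h.RR_iff x' _).1 h2
    obtain ⟨rfl, e2⟩ := h.inj _ _ _ _ hi hj hi' hj' e1
    obtain rfl : j = j' := by omega
    rfl
  · -- ufun
    intro x y y' h1 h2
    obtain ⟨i, j, hi, hj, rfl, rfl⟩ := (h.UU_iff x y).1 h1
    obtain ⟨i', j', hi', hj', e1, rfl⟩ := (h.UU_iff _ y').1 h2
    obtain ⟨rfl, rfl⟩ := h.inj _ _ _ _ (by omega) hj (by omega) hj' e1
    rfl
  · -- uinj
    intro x x' y h1 h2
    obtain ⟨i, j, hi, hj, rfl, rfl⟩ := (h.UU_iff x y).1 h1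
    obtain ⟨i', j', hi', hj', rfl, e1⟩ := (h.UU_iff x' _).1 h2
    obtain ⟨e2, rfl⟩ := h.inj _ _ _ _ hi hj hi' hj' e1
    obtain rfl : i = i' := by omega
    rfl
  · -- c1
    intro x y x' h1 h2
    obtain ⟨i, j, hi, hj, rfl, rfl⟩ := (h.RR_iff x y).1 h1
    obtain ⟨i', j', hi', hj', e1, rfl⟩ := (h.UU_iff _ x').1 h2
    obtain ⟨rfl, rfl⟩ := h.inj _ _ _ _ hi (by omega) (by omega) hj' e1
    exact ⟨z (i + 1) (j + 1), hRR _ _ hi' hj, hUU _ _ hi' hj⟩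
  · -- c2
    intro x x' y' h1 h2
    obtain ⟨i, j, hi, hj, rfl, rfl⟩ := (h.UU_iff x x').1 h1
    obtain ⟨i', j', hi', hj', e1, rfl⟩ := (h.RR_iff _ y').1 h2
    obtain ⟨rfl, rfl⟩ := h.inj _ _ _ _ hi hj hi' (by omega) e1
    exact ⟨z i (j + 1), hRR _ _ (by omega) hj', hUU _ _ hi hj'⟩
  · -- c3
    intro x y y' h1 h2
    obtain ⟨i, j, hi, hj, rfl, rfl⟩ := (h.RR_iff x y).1 h1
    obtain ⟨i', j', hi', hj', e1, rfl⟩ := (h.UU_iff _ y').1 h2
    obtain ⟨rfl, rfl⟩ := h.inj _ _ _ _ hi hj (by omega) hj' e1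
    exact ⟨z (i + 1) j, hUU _ _ hi' (by omega), hRR _ _ hi' hj⟩
  · -- c4
    intro x' y y' h1 h2
    obtain ⟨i, j, hi, hj, rfl, rfl⟩ := (h.RR_iff x' y').1 h1
    obtain ⟨i', j', hi', hj', rfl, e1⟩ := (h.UU_iff y _).1 h2
    obtain ⟨rfl, rfl⟩ := h.inj _ _ _ _ hi hj hi' hj' e1
    exact ⟨z i' j, hRR _ _ (by omega) hj, hUU _ _ hi (by omega)⟩
  · -- corner
    refine ⟨z 0 0, hZ 0 0 (by omega) (by omega), (h.D_iff 0 0 (by omega) (by omega)).2 rfl, ?_, ?_,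
      ⟨z 0 1, hRR 0 0 (by omega) (by omega)⟩, ?_, ?_⟩
    · intro x hx
      obtain ⟨i, j, hi, hj, -, e1⟩ := (h.RR_iff x _).1 hx
      obtain ⟨-, e2⟩ := h.inj _ _ _ _ (by omega) (by omega) hi hj e1
      omega
    · intro x hx
      obtain ⟨i, j, hi, hj, -, e1⟩ := (h.UU_iff x _).1 hx
      obtain ⟨e2, -⟩ := h.inj _ _ _ _ (by omega) (by omega) hi hj e1
      omega
    · intro γ hγ
      rw [tt 0 0 γ (by omega) (by omega) hγ]
      exact h.tc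
    · intro x hx
      obtain ⟨i, j, hi, hj, rfl⟩ := (h.Z_iff x).1 hx
      rcases Nat.eq_zero_or_pos j with hj0 | hj0
      · rcases Nat.eq_zero_or_pos i with hi0 | hi0
        · exact Or.inl (by rw [hi0, hj0])
        · obtain ⟨i', rfl⟩ : ∃ i', i = i' + 1 := ⟨i - 1, by omega⟩
          exact Or.inr (Or.inr ⟨z i' j, hUU _ _ hi hj⟩)
      · obtain ⟨j', rfl⟩ : ∃ j', j = j' + 1 := ⟨j - 1, by omega⟩
        exact Or.inr (Or.inl ⟨z i j', hRR _ _ hi hj⟩)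
  · -- diag
    intro x y y' hD h1 h2
    obtain ⟨i, j, hi, hj, rfl, rfl⟩ := (h.RR_iff x y).1 h1
    obtain ⟨i', j', hi', hj', e1, rfl⟩ := (h.UU_iff _ y').1 h2
    obtain ⟨rfl, rfl⟩ := h.inj _ _ _ _ hi hj (by omega) hj' e1
    have h3 := (h.D_iff _ _ hi (by omega)).1 hD
    exact (h.D_iff _ _ hi' hj).2 (by omega)
  · -- sq
    intro x hx hD
    obtain ⟨i, j, hi, hj, rfl⟩ := (h.Z_iff x).1 hx
    obtain rfl := (h.D_iff _ _ hi hj).1 hD
    constructor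
    · rintro ⟨y, hy⟩
      obtain ⟨i', j', hi', hj', e1, rfl⟩ := (h.RR_iff _ y).1 hy
      obtain ⟨e2, e3⟩ := h.inj _ _ _ _ hi hj hi' (by omega) e1
      exact ⟨z (i + 1) i, hUU _ _ (by omega) hj⟩
    · rintro ⟨y, hy⟩
      obtain ⟨i', j', hi', hj', e1, rfl⟩ := (h.UU_iff _ y).1 hy
      obtain ⟨e2, e3⟩ := h.inj _ _ _ _ hi hj (by omega) hj' e1
      exact ⟨z i (i + 1), hRR _ _ hi (by omega)⟩
  · -- tot
    intro x hx
    obtain ⟨i, j, hi, hj, rfl⟩ := (h.Z_iff x).1 hx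
    exact ⟨f j i, (h.t_iff _ _ _ hi hj).2 rfl⟩
  · -- hR
    intro x y γ δ h1 h2 h3
    obtain ⟨i, j, hi, hj, rfl, rfl⟩ := (h.RR_iff x y).1 h1
    rw [tt _ _ _ hi (by omega) h2, tt _ _ _ hi hj h3]
    exact h.tR j i hj hi
  · -- hU
    intro x y γ δ h1 h2 h3
    obtain ⟨i, j, hi, hj, rfl, rfl⟩ := (h.UU_iff x y).1 h1
    rw [tt _ _ _ (by omega) hj h2, tt _ _ _ hi hj h3]
    exact h.tU j i hj hi
  · -- hl
    intro x γ hx h2 h3
    obtain ⟨i, j, hi, hj, rfl⟩ := (h.Z_iff x).1 hx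
    rw [tt _ _ _ hi hj h2]
    rcases Nat.eq_zero_or_pos j with hj0 | hj0
    · rw [hj0]
      exact h.tl i hi
    · obtain ⟨j', rfl⟩ : ∃ j', j = j' + 1 := ⟨j - 1, by omega⟩
      exact absurd (hRR _ _ hi hj) (h3 _)
  · -- hr
    intro x γ hx h2 h3
    obtain ⟨i, j, hi, hj, rfl⟩ := (h.Z_iff x).1 hx
    rw [tt _ _ _ hi hj h2]
    rcases Nat.lt_or_ge (j + 1) N with hj0 | hj0
    · exact absurd (hRR _ _ hi hj0) (h3 _)
    · obtain rfl : j = N - 1 := by omega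
      exact h.tr i hi
  · -- hb
    intro x γ hx h2 h3
    obtain ⟨i, j, hi, hj, rfl⟩ := (h.Z_iff x).1 hx
    rw [tt _ _ _ hi hj h2]
    rcases Nat.eq_zero_or_pos i with hi0 | hi0
    · rw [hi0]
      exact h.tb j hj
    · obtain ⟨i', rfl⟩ : ∃ i', i = i' + 1 := ⟨i - 1, by omega⟩
      exact absurd (hUU _ _ hi hj) (h3 _)
  · -- ht
    intro x γ hx h2 h3
    obtain ⟨i, j, hi, hj, rfl⟩ := (h.Z_iff x).1 hx
    rw [tt _ _ _ hi hj h2]
    rcases Nat.lt_or_ge (i + 1) N with hi0 | hi0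
    · exact absurd (hUU _ _ hi0 hj) (h3 _)
    · obtain rfl : i = N - 1 := by omega
      exact h.tt j hj
  · -- own
    intro v
    by_cases hv : Ex v
    · exact Or.inl hv
    · obtain ⟨i, j, hi, hj, e1⟩ := h.own_some v hv
      exact Or.inr ⟨z i j, (h.Own_iff _ _).2 ⟨i, j, hi, hj, e1, rfl⟩⟩
  · -- own_z
    intro v x hvx
    obtain ⟨i, j, hi, hj, e1, rfl⟩ := (h.Own_iff _ _).1 hvx
    refine ⟨hZ i j hi hj, fun hv => ?_⟩
    rw [h.own_ex v hv] at e1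
    exact absurd e1 (by simp)
  · -- own_un
    intro v x x' h1 h2
    obtain ⟨i, j, hi, hj, e1, rfl⟩ := (h.Own_iff _ _).1 h1
    obtain ⟨i', j', hi', hj', e2, rfl⟩ := (h.Own_iff _ _).1 h2
    rw [e1] at e2
    have e3 := Option.some.inj e2
    rw [Prod.mk.injEq] at e3
    rw [e3.1, e3.2]
  · -- cnt
    intro x hx
    obtain ⟨i, j, hi, hj, rfl⟩ := (h.Z_iff x).1 hx
    rw [exactly_iff, ← h.cnt i j hi hj]
    refine Nat.card_congr (Equiv.subtypeEquivRight fun v => ?_)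
    constructor
    · intro h1
      obtain ⟨i', j', hi', hj', e1, e2⟩ := (h.Own_iff _ _).1 h1
      obtain ⟨rfl, rfl⟩ := h.inj _ _ _ _ hi hj hi' hj' e2
      exact e1
    · intro h1
      exact (h.Own_iff _ _).2 ⟨i, j, hi, hj, h1, rfl⟩
  · -- ext
    rw [exactly_iff]
    exact h.ext

end Pool.Agent.Helper20.OP
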