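import Pool.Agent.Helper20.OP.Sq

/-!
# Block OP-S2: the number of elements of a square code

Proof.  `V` is the disjoint union of `Ex`, of the sets `{v | O₁ v x}` (`x ∈ I`) and of the sets `{v | O₂ v x y}`
(`x, y ∈ I`); `exactly_iff`.  For instance: an equivalence of `V` with
`{v // Ex v} ⊕ (Σ x : {x // I x}, {v // O₁ v x}) ⊕ (Σ p : {x // I x} × {x // I x}, {v // O₂ v p.1 p.2})`, and
`Nat.card_sum`, `Nat.card_sigma`, `Nat.card_prod`.
-/

set_option autoImplicit false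

namespace Pool.Agent.Helper20.OP

open Pool.Agent.Helper29.Prefix

theorem SqCode.card {V Γ : Type} [Finite V] {W : Wang Γ} {m₁ m₂ e : ℕ} {I : V → Prop}
    {lt : V → V → Prop} {t : V → V → Γ → Prop} {O₁ : V → V → Prop} {O₂ : V → V → V → Prop}
    {Ex : V → Prop} (h : SqCode W m₁ m₂ e I lt t O₁ O₂ Ex) :
    Nat.card V = m₂ * Nat.card {x // I x} ^ 2 + m₁ * Nat.card {x // I x} + e := by
  classical
  have hE : Nat.card {v // Ex v} = e := (exactly_iff e _).1 h.ext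
  have h1 : ∀ x, I x → Nat.card {v // O₁ v x} = m₁ :=
    fun x hx => (exactly_iff m₁ _).1 (h.cnt₁ x hx)
  have h2 : ∀ x y, I x → I y → Nat.card {v // O₂ v x y} = m₂ :=
    fun x y hx hy => (exactly_iff m₂ _).1 (h.cnt₂ x y hx hy)
  let g : {v // Ex v} ⊕ ((Σ x : {x // I x}, {v // O₁ v x.1}) ⊕
      (Σ p : {x // I x} × {x // I x}, {v // O₂ v p.1.1 p.2.1})) → V := fun s => match s with
    | Sum.inl v => v.1
    | Sum.inr (Sum.inl v) => v.2.1
    | Sum.inr (Sum.inr v) => v.2.1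
  have hg : Function.Bijective g := by
    constructor
    · rintro (⟨v, hv⟩ | ⟨⟨x, hx⟩, ⟨v, hv⟩⟩ | ⟨⟨⟨x, hx⟩, ⟨y, hy⟩⟩, ⟨v, hv⟩⟩)
        (⟨w, hw⟩ | ⟨⟨x', hx'⟩, ⟨w, hw⟩⟩ | ⟨⟨⟨x', hx'⟩, ⟨y', hy'⟩⟩, ⟨w, hw⟩⟩) hvw
      · obtain rfl : v = w := hvw
        rfl
      · obtain rfl : v = w := hvw
        exact absurd hv (h.own₁ v x' hw).2.1
      · obtain rfl : v = w := hvw
        exact absurd hv (h.own₂ v x' y' hw).2.2.1
      · obtain rfl : v = w := hvw
        exact absurd hw (h.own₁ v x hv).2.1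
      · obtain rfl : v = w := hvw
        obtain rfl := (h.own₁ v x hv).2.2.1 x' hw
        rfl
      · obtain rfl : v = w := hvw
        exact absurd hw ((h.own₁ v x hv).2.2.2 x' y')
      · obtain rfl : v = w := hvw
        exact absurd hw (h.own₂ v x y hv).2.2.1
      · obtain rfl : v = w := hvw
        exact absurd hv ((h.own₁ v x' hw).2.2.2 x y)
      · obtain rfl : v = w := hvw
        obtain ⟨rfl, rfl⟩ := (h.own₂ v x y hv).2.2.2 x' y' hw
        rfl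
    · intro v
      rcases h.own v with hv | ⟨x, hv⟩ | ⟨x, y, hv⟩
      · exact ⟨Sum.inl ⟨v, hv⟩, rfl⟩
      · exact ⟨Sum.inr (Sum.inl ⟨⟨x, (h.own₁ v x hv).1⟩, ⟨v, hv⟩⟩), rfl⟩
      · exact ⟨Sum.inr (Sum.inr ⟨⟨⟨x, (h.own₂ v x y hv).1⟩, ⟨y, (h.own₂ v x y hv).2.1⟩⟩,
          ⟨v, hv⟩⟩), rfl⟩
  have : Fintype {x // I x} := Fintype.ofFinite _
  have c1 : Nat.card (Σ x : {x // I x}, {v // O₁ v x.1}) = Nat.card {x // I x} * m₁ := by
    rw [Nat.card_sigma, Finset.sum_congr rfl (fun x _ => h1 x.1 x.2), Finset.sum_const,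
      Finset.card_univ, Nat.card_eq_fintype_card, smul_eq_mul]
  have c2 : Nat.card (Σ p : {x // I x} × {x // I x}, {v // O₂ v p.1.1 p.2.1}) =
      Nat.card {x // I x} * Nat.card {x // I x} * m₂ := by
    rw [Nat.card_sigma, Finset.sum_congr rfl (fun p _ => h2 p.1.1 p.2.1 p.1.2 p.2.2),
      Finset.sum_const, Finset.card_univ, Fintype.card_prod, Nat.card_eq_fintype_card, smul_eq_mul]
  rw [← Nat.card_congr (Equiv.ofBijective g hg), Nat.card_sum, Nat.card_sum, c1, c2, hE]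
  ring

end Pool.Agent.Helper20.OP
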