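import Pool.Agent.Helper20.OP.SqTiles
import Pool.Agent.Helper20.OP.SqCard

/-!
# Decoding of square codes
-/

set_option autoImplicit false

namespace Pool.Agent.Helper20.OP

open Pool.Agent.Helper29.Prefix

theorem SqCode.decode {V Γ : Type} [Finite V] {W : Wang Γ} {m₁ m₂ e : ℕ} {I : V → Prop}
    {lt : V → V → Prop} {t : V → V → Γ → Prop} {O₁ : V → V → Prop} {O₂ : V → V → V → Prop}
    {Ex : V → Prop} (h : SqCode W m₁ m₂ e I lt t O₁ O₂ Ex) :
    ∃ N, 2 ≤ N ∧ Nat.card V = m₂ * N ^ 2 + m₁ * N + e ∧ Tiles W N := by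
  refine ⟨Nat.card {x // I x}, ?_, h.card, h.tiles⟩
  obtain ⟨x, y, hx, hy, hxy⟩ := h.big
  have : Nontrivial {x // I x} := ⟨⟨x, hx⟩, ⟨y, hy⟩, fun h => hxy (congrArg Subtype.val h)⟩
  exact Finite.one_lt_card

end Pool.Agent.Helper20.OP
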