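import Pool.Agent.Helper20.OP.GridDec
import Pool.Agent.Helper20.OP.SqDec
import Pool.Agent.Helper20.OP.W.Std
import Pool.Agent.Helper20.OP.W.Dim
import Pool.Agent.Helper20.OP.G.Std
import Pool.Agent.Helper20.OP.G.Bip
import Pool.Agent.Helper20.OP.I.Std
import Pool.Agent.Helper20.OP.H.Std
import Pool.Agent.Helper20.OP.H.Avoid

/-!
# The four codings
-/

set_option autoImplicit false

namespace Pool.Agent.Helper20.OP

open Pool.Agent.Helper20.Spectra Pool.Agent.Helper29.Prefix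

lemma eval_quad (a b c n : ℕ) :
    (Polynomial.C a * Polynomial.X ^ 2 + Polynomial.C b * Polynomial.X + Polynomial.C c :
      Polynomial ℕ).eval n = a * n ^ 2 + b * n + c := by
  simp

lemma strictMono_quad (a b c : ℕ) (ha : 1 ≤ a) : StrictMono (fun n : ℕ =>
    (Polynomial.C a * Polynomial.X ^ 2 + Polynomial.C b * Polynomial.X + Polynomial.C c :
      Polynomial ℕ).eval n) := by
  intro m n hmn
  simp only [eval_quad]
  have h1 : m ^ 2 < n ^ 2 := Nat.pow_lt_pow_left hmn (by norm_num)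
  have h2 : a * m ^ 2 < a * n ^ 2 := Nat.mul_lt_mul_of_pos_left h1 (by omega)
  have h3 : b * m ≤ b * n := Nat.mul_le_mul_left b hmn.le
  omega

theorem coding_width : Coding 1 WidthTwo := by
  intro Γ hΓ T
  obtain ⟨q, ⟨e⟩⟩ := Finite.exists_equiv_fin (Γ × Bool × Bool)
  let c : Fin q → Γ × Bool × Bool := e.symm
  refine ⟨fun _ R => W.Cond c T R, Polynomial.C (2 * q + 1) * Polynomial.X ^ 2 +
    Polynomial.C 0 * Polynomial.X + Polynomial.C 0, W.def_cond c T,
    strictMono_quad _ _ _ (by omega), ?_, ?_⟩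
  · intro V _ R h
    obtain ⟨N, hN, hc, ht⟩ := GridCode.decode h
    exact ⟨N, hN, by rw [eval_quad, hc]; ring, ht⟩
  · intro N hN ht
    obtain ⟨f, hf⟩ := ht
    let κ : ℕ → ℕ → ℕ := fun i j => (e (f j i, decide (i = j), decide (j = N - 1))).1
    have hg : W.Good q κ N := ⟨hN, fun i j _ _ => (e _).2⟩
    refine ⟨W.Pos q κ N, inferInstance, W.pos q κ N, ?_, W.widthTwo_pos, ?_⟩
    · rw [W.card_pos hg, eval_quad]; ring
    · exact W.cond_pos c hg f hf (fun i j _ _ => e.symm_apply_apply _)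

theorem coding_graph : Coding 1 G.BipSix := by
  intro Γ hΓ T
  obtain ⟨q, ⟨e⟩⟩ := Finite.exists_equiv_fin (Γ × Bool × Bool)
  let c : Fin q → Γ × Bool × Bool := e.symm
  refine ⟨fun _ R => G.Cond c T R, Polynomial.C (q + 3) * Polynomial.X ^ 2 +
    Polynomial.C 3 * Polynomial.X + Polynomial.C 0, G.def_cond c T,
    strictMono_quad _ _ _ (by omega), ?_, ?_⟩
  · intro V _ R h
    obtain ⟨N, hN, hc, ht⟩ := SqCode.decode h
    exact ⟨N, hN, by rw [eval_quad, hc], ht⟩
  · intro N hN ht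
    obtain ⟨f, hf⟩ := ht
    let κ : ℕ → ℕ → ℕ := fun i j => (e (f i j, decide (i < j), decide (i = j))).1
    have hg : G.Good q κ N := ⟨hN, fun i j _ _ => (e _).2⟩
    refine ⟨G.Ver q N, inferInstance, G.gr q κ N, ?_, G.bipSix_gr, ?_⟩
    · rw [G.card_ver, eval_quad]; ring
    · exact G.cond_gr c hg f hf (fun i j _ _ => e.symm_apply_apply _)

theorem coding_interval : Coding 1 I.Interval := by
  intro Γ hΓ T
  obtain ⟨q, ⟨e⟩⟩ := Finite.exists_equiv_fin (Γ × Bool)
  let c : Fin q → Γ × Bool := e.symm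
  refine ⟨fun _ R => I.Cond c T R, Polynomial.C (q + 1) * Polynomial.X ^ 2 +
    Polynomial.C 3 * Polynomial.X + Polynomial.C 4, I.def_cond c T,
    strictMono_quad _ _ _ (by omega), ?_, ?_⟩
  · intro V _ R h
    obtain ⟨N, hN, hc, ht⟩ := SqCode.decode h
    exact ⟨N, hN, by rw [eval_quad, hc], ht⟩
  · intro N hN ht
    obtain ⟨f, hf⟩ := ht
    let κ : ℕ → ℕ → ℕ := fun i j => (e (f i j, decide (i = j))).1
    have hg : I.Good q κ N := ⟨hN, fun i j _ _ => (e _).2⟩
    refine ⟨I.Elt q N, inferInstance, I.ivo q κ N, ?_, I.interval_ivo q κ N, ?_⟩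
    · rw [I.card_elt, eval_quad]
    · exact I.cond_ivo c hg f hf (fun i j _ _ => e.symm_apply_apply _)

theorem coding_spiral : Coding 2 Spiral := by
  intro Γ hΓ T
  obtain ⟨q, ⟨e⟩⟩ := Finite.exists_equiv_fin (Γ × Bool × Bool)
  let c : Fin q → Γ × Bool × Bool := e.symm
  refine ⟨fun _ R => H.Cond c T R, Polynomial.C (q + 3) * Polynomial.X ^ 2 +
    Polynomial.C 0 * Polynomial.X + Polynomial.C 1, H.def_cond c T,
    strictMono_quad _ _ _ (by omega), ?_, ?_⟩
  · rintro V _ R ⟨z, h⟩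
    obtain ⟨N, hN, hc, ht⟩ := GridCode.decode h
    exact ⟨N, hN, by rw [eval_quad, hc]; ring, ht⟩
  · intro N hN ht
    obtain ⟨f, hf⟩ := ht
    let κ : ℕ → ℕ := fun u =>
      (e (f (u % N) (u / N), decide (u / N = u % N), decide (u % N = N - 1))).1
    have hg : H.Good q κ N := ⟨hN, fun u _ => (e _).2⟩
    refine ⟨H.Elt q κ N, inferInstance, H.spi q κ N, ?_, H.spiral_spi hg, ?_⟩
    · rw [H.card_elt hg, eval_quad]; ring
    · exact H.cond_spi c hg f hf (fun u _ => e.symm_apply_apply _)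

end Pool.Agent.Helper20.OP
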