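import Pool.Agent.Helper20.OP.Coding

/-!
# Grid codes

`GridCode`: conditions on relations `Z`, `lt`, `RR` (right neighbour), `UU` (upper neighbour), `D` (diagonal), `t` (tile),
`Own` and a set `Ex` on a finite set `V`, which imply that `Z` is an `N × N` grid with a correct tiling, and that `V`
has `m N² + e` elements (every element outside `Ex` is owned by exactly one element of `Z`, and each element of `Z`
owns exactly `m` elements).  `GridStd`: the intended situation.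
-/

set_option autoImplicit false

namespace Pool.Agent.Helper20.OP

open Pool.Agent.Helper29.Prefix

/-- grid codes -/
structure GridCode {V Γ : Type} (W : Wang Γ) (m e : ℕ) (Z : V → Prop) (lt RR UU : V → V → Prop)
    (D : V → Prop) (t : V → Γ → Prop) (Own : V → V → Prop) (Ex : V → Prop) : Prop where
  irr : ∀ x, ¬ lt x x
  trans : ∀ x y z, lt x y → lt y z → lt x z
  rr : ∀ x y, RR x y → Z x ∧ Z y ∧ lt x y
  uu : ∀ x y, UU x y → Z x ∧ Z y ∧ lt x y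
  rfun : ∀ x y y', RR x y → RR x y' → y = y'
  rinj : ∀ x x' y, RR x y → RR x' y → x = x'
  ufun : ∀ x y y', UU x y → UU x y' → y = y'
  uinj : ∀ x x' y, UU x y → UU x' y → x = x'
  c1 : ∀ x y x', RR x y → UU x x' → ∃ y', RR x' y' ∧ UU y y'
  c2 : ∀ x x' y', UU x x' → RR x' y' → ∃ y, RR x y ∧ UU y y'
  c3 : ∀ x y y', RR x y → UU y y' → ∃ x', UU x x' ∧ RR x' y'
  c4 : ∀ x' y y', RR x' y' → UU y y' → ∃ x, RR x y ∧ UU x x'
  corner : ∃ o, Z o ∧ D o ∧ (∀ x, ¬ RR x o) ∧ (∀ x, ¬ UU x o) ∧ (∃ y, RR o y) ∧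
    (∀ γ, t o γ → W.c γ) ∧ ∀ x, Z x → x = o ∨ (∃ y, RR y x) ∨ ∃ y, UU y x
  diag : ∀ x y y', D x → RR x y → UU y y' → D y'
  sq : ∀ x, Z x → D x → ((∃ y, RR x y) ↔ ∃ y, UU x y)
  tot : ∀ x, Z x → ∃ γ, t x γ
  hR : ∀ x y γ δ, RR x y → t x γ → t y δ → W.R γ δ
  hU : ∀ x y γ δ, UU x y → t x γ → t y δ → W.U γ δ
  hl : ∀ x γ, Z x → t x γ → (∀ y, ¬ RR y x) → W.l γ
  hr : ∀ x γ, Z x → t x γ → (∀ y, ¬ RR x y) → W.r γ
  hb : ∀ x γ, Z x → t x γ → (∀ y, ¬ UU y x) → W.b γ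
  ht : ∀ x γ, Z x → t x γ → (∀ y, ¬ UU x y) → W.t γ
  own : ∀ v, Ex v ∨ ∃ x, Own v x
  own_z : ∀ v x, Own v x → Z x ∧ ¬ Ex v
  own_un : ∀ v x x', Own v x → Own v x' → x = x'
  cnt : ∀ x, Z x → Exactly m (fun v => Own v x)
  ext : Exactly e Ex

/-- the intended situation: `z i j` is the cell in row `i` and column `j`, `f x y` the tile in column `x`
and row `y`, `own v` the cell owning `v` -/
structure GridStd {V Γ : Type} (W : Wang Γ) (N : ℕ) (f : ℕ → ℕ → Γ) (m e : ℕ) (Z : V → Prop)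
    (lt RR UU : V → V → Prop) (D : V → Prop) (t : V → Γ → Prop) (Own : V → V → Prop)
    (Ex : V → Prop) (z : ℕ → ℕ → V) (own : V → Option (ℕ × ℕ)) : Prop where
  hN : 2 ≤ N
  tR : ∀ x y, x + 1 < N → y < N → W.R (f x y) (f (x + 1) y)
  tU : ∀ x y, x < N → y + 1 < N → W.U (f x y) (f x (y + 1))
  tl : ∀ y, y < N → W.l (f 0 y)
  tr : ∀ y, y < N → W.r (f (N - 1) y)
  tb : ∀ x, x < N → W.b (f x 0)
  tt : ∀ x, x < N → W.t (f x (N - 1))
  tc : W.c (f 0 0)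
  inj : ∀ i j i' j', i < N → j < N → i' < N → j' < N → z i j = z i' j' → i = i' ∧ j = j'
  Z_iff : ∀ x, Z x ↔ ∃ i j, i < N ∧ j < N ∧ x = z i j
  RR_iff : ∀ x y, RR x y ↔ ∃ i j, i < N ∧ j + 1 < N ∧ x = z i j ∧ y = z i (j + 1)
  UU_iff : ∀ x y, UU x y ↔ ∃ i j, i + 1 < N ∧ j < N ∧ x = z i j ∧ y = z (i + 1) j
  irr : ∀ x, ¬ lt x x
  trans : ∀ x y z, lt x y → lt y z → lt x z
  ltR : ∀ i j, i < N → j + 1 < N → lt (z i j) (z i (j + 1))
  ltU : ∀ i j, i + 1 < N → j < N → lt (z i j) (z (i + 1) j)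
  D_iff : ∀ i j, i < N → j < N → (D (z i j) ↔ i = j)
  t_iff : ∀ i j γ, i < N → j < N → (t (z i j) γ ↔ γ = f j i)
  Own_iff : ∀ v x, Own v x ↔ ∃ i j, i < N ∧ j < N ∧ own v = some (i, j) ∧ x = z i j
  own_ex : ∀ v, Ex v → own v = none
  own_some : ∀ v, ¬ Ex v → ∃ i j, i < N ∧ j < N ∧ own v = some (i, j)
  cnt : ∀ i j, i < N → j < N → Nat.card {v // own v = some (i, j)} = m
  ext : Nat.card {v // Ex v} = e

end Pool.Agent.Helper20.OP
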