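import Pool.Agent.Helper20.OP.Grid

/-!
# Block OP-G3: grid codes are definable

If all the relations are definable (with `r` parameters) then so is the condition `GridCode` (as a condition on the
structure and the parameters).

Proof.  Write `GridCode` as a conjunction of its fields (a lemma `GridCode ↔ ... ∧ ...`), and use the closure lemmas of
`Def`.  Prove first the application lemmas: from `h : DefP2 ...` get
`Def b r' (fun V R v => P V R (fun i => v (g i)) (v i) (v j))` for all `g : Fin r → Fin r'`, `i j : Fin r'`, by `Def.ren`.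
The conditions `∀ γ`, `∃ γ` over the finite type `Γ` are `Def.all_fin`, `Def.ex_fin`; `W.R γ δ` etc. are `Def.const`;
`Exactly` is `Def.exactly`.
-/

set_option autoImplicit false

namespace Pool.Agent.Helper20.OP

open Pool.Agent.Helper29.Prefix

/-- definable with `r` parameters, one element -/
def DefP1 (b r : ℕ) (P : ∀ V : Type, Str b V → (Fin r → V) → V → Prop) : Prop :=
  Def b (r + 1) (fun V R v => P V R (fun i => v i.castSucc) (v (Fin.last r)))

/-- definable with `r` parameters, two elements -/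
def DefP2 (b r : ℕ) (P : ∀ V : Type, Str b V → (Fin r → V) → V → V → Prop) : Prop :=
  Def b (r + 2) (fun V R v => P V R (fun i => v i.castSucc.castSucc) (v (Fin.last r).castSucc)
    (v (Fin.last (r + 1))))

lemma DefP1.app {b r r' : ℕ} {P : ∀ V : Type, Str b V → (Fin r → V) → V → Prop}
    (h : DefP1 b r P) (g : Fin r → Fin r') (i : Fin r') :
    Def b r' (fun V R v => P V R (fun k => v (g k)) (v i)) := by
  refine (Def.ren h (Fin.snoc g i : Fin (r + 1) → Fin r')).congr (fun V R v => ?_)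
  simp only [Fin.snoc_castSucc, Fin.snoc_last]

lemma DefP2.app {b r r' : ℕ} {P : ∀ V : Type, Str b V → (Fin r → V) → V → V → Prop}
    (h : DefP2 b r P) (g : Fin r → Fin r') (i j : Fin r') :
    Def b r' (fun V R v => P V R (fun k => v (g k)) (v i) (v j)) := by
  refine (Def.ren h (Fin.snoc (Fin.snoc g i : Fin (r + 1) → Fin r') j :
    Fin (r + 2) → Fin r')).congr (fun V R v => ?_)
  obtain ⟨F, hF⟩ : ∃ F : Fin (r + 2) → Fin r',
      F = Fin.snoc (Fin.snoc g i : Fin (r + 1) → Fin r') j := ⟨_, rfl⟩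
  have e1 : ∀ k : Fin r, F k.castSucc.castSucc = g k := fun k => by
    rw [hF, Fin.snoc_castSucc, Fin.snoc_castSucc]
  have e2 : F (Fin.last r).castSucc = i := by rw [hF, Fin.snoc_castSucc, Fin.snoc_last]
  have e3 : F (Fin.last (r + 1)) = j := by rw [hF]; exact Fin.snoc_last _ _
  rw [← hF]
  beta_reduce
  rw [e2, e3]
  simp only [e1]

lemma gridCode_iff {V Γ : Type} (W : Wang Γ) (m e : ℕ) (Z : V → Prop) (lt RR UU : V → V → Prop)
    (D : V → Prop) (t : V → Γ → Prop) (Own : V → V → Prop) (Ex : V → Prop) :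
    GridCode W m e Z lt RR UU D t Own Ex ↔
    (∀ x, ¬ lt x x) ∧
    (∀ x y z, lt x y → lt y z → lt x z) ∧
    (∀ x y, RR x y → Z x ∧ Z y ∧ lt x y) ∧
    (∀ x y, UU x y → Z x ∧ Z y ∧ lt x y) ∧
    (∀ x y y', RR x y → RR x y' → y = y') ∧
    (∀ x x' y, RR x y → RR x' y → x = x') ∧
    (∀ x y y', UU x y → UU x y' → y = y') ∧
    (∀ x x' y, UU x y → UU x' y → x = x') ∧
    (∀ x y x', RR x y → UU x x' → ∃ y', RR x' y' ∧ UU y y') ∧
    (∀ x x' y', UU x x' → RR x' y' → ∃ y, RR x y ∧ UU y y') ∧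
    (∀ x y y', RR x y → UU y y' → ∃ x', UU x x' ∧ RR x' y') ∧
    (∀ x' y y', RR x' y' → UU y y' → ∃ x, RR x y ∧ UU x x') ∧
    (∃ o, Z o ∧ D o ∧ (∀ x, ¬ RR x o) ∧ (∀ x, ¬ UU x o) ∧ (∃ y, RR o y) ∧
      (∀ γ, t o γ → W.c γ) ∧ ∀ x, Z x → x = o ∨ (∃ y, RR y x) ∨ ∃ y, UU y x) ∧
    (∀ x y y', D x → RR x y → UU y y' → D y') ∧
    (∀ x, Z x → D x → ((∃ y, RR x y) ↔ ∃ y, UU x y)) ∧
    (∀ x, Z x → ∃ γ, t x γ) ∧
    (∀ x y, ∀ γ δ, RR x y → t x γ → t y δ → W.R γ δ) ∧
    (∀ x y, ∀ γ δ, UU x y → t x γ → t y δ → W.U γ δ) ∧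
    (∀ x, ∀ γ, Z x → t x γ → (∀ y, ¬ RR y x) → W.l γ) ∧
    (∀ x, ∀ γ, Z x → t x γ → (∀ y, ¬ RR x y) → W.r γ) ∧
    (∀ x, ∀ γ, Z x → t x γ → (∀ y, ¬ UU y x) → W.b γ) ∧
    (∀ x, ∀ γ, Z x → t x γ → (∀ y, ¬ UU x y) → W.t γ) ∧
    (∀ v, Ex v ∨ ∃ x, Own v x) ∧
    (∀ v x, Own v x → Z x ∧ ¬ Ex v) ∧
    (∀ v x x', Own v x → Own v x' → x = x') ∧
    (∀ x, Z x → Exactly m (fun v => Own v x)) ∧
    Exactly e Ex :=
  ⟨fun h => ⟨h.irr, h.trans, h.rr, h.uu, h.rfun, h.rinj, h.ufun, h.uinj, h.c1, h.c2, h.c3, h.c4,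
    h.corner, h.diag, h.sq, h.tot, h.hR, h.hU, h.hl, h.hr, h.hb, h.ht, h.own, h.own_z, h.own_un,
    h.cnt, h.ext⟩,
  fun ⟨h1, h2, h3, h4, h5, h6, h7, h8, h9, h10, h11, h12, h13, h14, h15, h16, h17, h18, h19, h20,
    h21, h22, h23, h24, h25, h26, h27⟩ =>
    ⟨h1, h2, h3, h4, h5, h6, h7, h8, h9, h10, h11, h12, h13, h14, h15, h16, h17, h18, h19, h20,
    h21, h22, h23, h24, h25, h26, h27⟩⟩

theorem def_gridCode {b r : ℕ} {Γ : Type} [Finite Γ] (W : Wang Γ) (m e : ℕ)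
    {Z : ∀ V : Type, Str b V → (Fin r → V) → V → Prop}
    {lt RR UU : ∀ V : Type, Str b V → (Fin r → V) → V → V → Prop}
    {D : ∀ V : Type, Str b V → (Fin r → V) → V → Prop}
    {t : ∀ V : Type, Str b V → (Fin r → V) → V → Γ → Prop}
    {Own : ∀ V : Type, Str b V → (Fin r → V) → V → V → Prop}
    {Ex : ∀ V : Type, Str b V → (Fin r → V) → V → Prop}
    (hZ : DefP1 b r Z) (hlt : DefP2 b r lt) (hRR : DefP2 b r RR) (hUU : DefP2 b r UU)
    (hD : DefP1 b r D) (ht : ∀ γ, DefP1 b r (fun V R v x => t V R v x γ)) (hOwn : DefP2 b r Own)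
    (hEx : DefP1 b r Ex) :
    Def b r (fun V R v => GridCode W m e (Z V R v) (lt V R v) (RR V R v) (UU V R v) (D V R v)
      (t V R v) (Own V R v) (Ex V R v)) := by
  have aZ := fun (r' : ℕ) (g : Fin r → Fin r') i => hZ.app g i
  have aD := fun (r' : ℕ) (g : Fin r → Fin r') i => hD.app g i
  have aEx := fun (r' : ℕ) (g : Fin r → Fin r') i => hEx.app g i
  have alt := fun (r' : ℕ) (g : Fin r → Fin r') i j => hlt.app g i j
  have aRR := fun (r' : ℕ) (g : Fin r → Fin r') i j => hRR.app g i j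
  have aUU := fun (r' : ℕ) (g : Fin r → Fin r') i j => hUU.app g i j
  have aOwn := fun (r' : ℕ) (g : Fin r → Fin r') i j => hOwn.app g i j
  have at' := fun (r' : ℕ) (γ : Γ) (g : Fin r → Fin r') i => (ht γ).app g i
  refine Def.congr ?_ (fun V R v => gridCode_iff W m e (Z V R v) (lt V R v) (RR V R v) (UU V R v)
    (D V R v) (t V R v) (Own V R v) (Ex V R v))
  repeat' first
    | exact Def.const _
    | exact Def.eq _ _
    | exact aZ _ _ _
    | exact aD _ _ _
    | exact aEx _ _ _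
    | exact alt _ _ _ _
    | exact aRR _ _ _ _
    | exact aUU _ _ _ _
    | exact aOwn _ _ _ _
    | exact at' _ _ _ _
    | refine Def.not ?_
    | refine Def.and ?_ ?_
    | refine Def.or ?_ ?_
    | refine Def.iff ?_ ?_
    | refine Def.imp ?_ ?_
    | refine Def.all ?_
    | refine Def.ex ?_
    | refine Def.all_fin (fun _ => ?_)
    | refine Def.ex_fin (fun _ => ?_)
    | refine Def.exactly _ ?_

/-- without parameters -/
theorem def_gridCode0 {b : ℕ} {Γ : Type} [Finite Γ] (W : Wang Γ) (m e : ℕ)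
    {Z : ∀ V : Type, Str b V → V → Prop}
    {lt RR UU : ∀ V : Type, Str b V → V → V → Prop}
    {D : ∀ V : Type, Str b V → V → Prop}
    {t : ∀ V : Type, Str b V → V → Γ → Prop}
    {Own : ∀ V : Type, Str b V → V → V → Prop}
    {Ex : ∀ V : Type, Str b V → V → Prop}
    (hZ : Def1 b Z) (hlt : Def2 b lt) (hRR : Def2 b RR) (hUU : Def2 b UU)
    (hD : Def1 b D) (ht : ∀ γ, Def1 b (fun V R x => t V R x γ)) (hOwn : Def2 b Own)
    (hEx : Def1 b Ex) :
    Def0 b (fun V R => GridCode W m e (Z V R) (lt V R) (RR V R) (UU V R) (D V R)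
      (t V R) (Own V R) (Ex V R)) :=
  def_gridCode (r := 0) W m e (Z := fun V R _ => Z V R) (lt := fun V R _ => lt V R)
    (RR := fun V R _ => RR V R) (UU := fun V R _ => UU V R) (D := fun V R _ => D V R)
    (t := fun V R _ => t V R) (Own := fun V R _ => Own V R) (Ex := fun V R _ => Ex V R)
    hZ hlt hRR hUU hD ht hOwn hEx

end Pool.Agent.Helper20.OP
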