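import Pool.Agent.Helper20.OP.Defs

/-!
# Block OP-P1: graph patterns

A graph on `Fin s` which is not an induced subgraph of the path `P₄` contains a (not necessarily induced) cycle of
length 3, 4 or 5, or its complement does.

Proof.  Suppose neither `G` nor its complement `H` has one.  (1) `s ≤ 4`: otherwise a finite check over the
graphs on five vertices.  (2) `s = 4`, `s = 3`: finite checks over the graphs; the others embed in `P₄`; `s ≤ 2`: clear.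
(Written by helper17.)
-/

set_option autoImplicit false

namespace Pool.Agent.Helper20.OP

/-- closed walks of length 3 or 5, or a cycle of length 4 -/
def HasShort {V : Type} (G : V → V → Prop) : Prop :=
  (∃ a b c, G a b ∧ G b c ∧ G c a) ∨
  (∃ a b c d, a ≠ c ∧ b ≠ d ∧ G a b ∧ G b c ∧ G c d ∧ G d a) ∨
  ∃ a b c d e, G a b ∧ G b c ∧ G c d ∧ G d e ∧ G e a

/-- the path with four vertices -/
def pathB (x y : Fin 4) : Bool := decide (x.1 + 1 = y.1 ∨ y.1 + 1 = x.1)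

/-- five vertices -/
def chkFive (p01 p02 p03 p04 p12 p13 p14 p23 p24 p34 : Bool) : Bool :=
  (p01 && p12 && p02) ||
  (p01 && p13 && p03) ||
  (p01 && p14 && p04) ||
  (p02 && p23 && p03) ||
  (p02 && p24 && p04) ||
  (p03 && p34 && p04) ||
  (p12 && p23 && p13) ||
  (p12 && p24 && p14) ||
  (p13 && p34 && p14) ||
  (p23 && p34 && p24) ||
  (!p01 && !p12 && !p02) ||
  (!p01 && !p13 && !p03) ||
  (!p01 && !p14 && !p04) ||
  (!p02 && !p23 && !p03) ||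
  (!p02 && !p24 && !p04) ||
  (!p03 && !p34 && !p04) ||
  (!p12 && !p23 && !p13) ||
  (!p12 && !p24 && !p14) ||
  (!p13 && !p34 && !p14) ||
  (!p23 && !p34 && !p24) ||
  (p01 && p12 && p23 && p34 && p04) ||
  (p01 && p12 && p24 && p34 && p03) ||
  (p01 && p13 && p23 && p24 && p04) ||
  (p01 && p13 && p34 && p24 && p02) ||
  (p01 && p14 && p24 && p23 && p03) ||
  (p01 && p14 && p34 && p23 && p02) ||
  (p02 && p12 && p13 && p34 && p04) ||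
  (p02 && p12 && p14 && p34 && p03) ||
  (p02 && p23 && p13 && p14 && p04) ||
  (p02 && p24 && p14 && p13 && p03) ||
  (p03 && p13 && p12 && p24 && p04) ||
  (p03 && p23 && p12 && p14 && p04)

set_option maxRecDepth 100000 in
theorem chkFive_true : ∀ p01 p02 p03 p04 p12 p13 p14 p23 p24 p34 : Bool, chkFive p01 p02 p03 p04 p12 p13 p14 p23 p24 p34 = true := by
  decide

theorem five {V : Type} (G : V → V → Prop) (hs : ∀ x y, G x y → G y x) (v : Fin 5 → V)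
    (hv : Function.Injective v) : HasShort G ∨ HasShort (fun x y => x ≠ y ∧ ¬ G x y) := by
  classical
  have hne : ∀ i j : Fin 5, i ≠ j → v i ≠ v j := fun i j h h1 => h (hv h1)
  have hs' : ∀ x y, ¬ G x y → ¬ G y x := fun x y h h1 => h (hs _ _ h1)
  have key := chkFive_true (decide (G (v 0) (v 1))) (decide (G (v 0) (v 2))) (decide (G (v 0) (v 3))) (decide (G (v 0) (v 4))) (decide (G (v 1) (v 2))) (decide (G (v 1) (v 3))) (decide (G (v 1) (v 4))) (decide (G (v 2) (v 3))) (decide (G (v 2) (v 4))) (decide (G (v 3) (v 4)))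
  simp only [chkFive, Bool.or_eq_true, Bool.and_eq_true, decide_eq_true_eq, Bool.not_eq_true', decide_eq_false_iff_not,
    or_assoc] at key
  rcases key with h | h | h | h | h | h | h | h | h | h | h | h | h | h | h | h | h | h | h | h | h | h | h | h | h | h | h | h | h | h | h | h
  · exact Or.inl (Or.inl ⟨v 0, v 1, v 2, h.1.1, h.1.2, hs _ _ h.2⟩)
  · exact Or.inl (Or.inl ⟨v 0, v 1, v 3, h.1.1, h.1.2, hs _ _ h.2⟩)
  · exact Or.inl (Or.inl ⟨v 0, v 1, v 4, h.1.1, h.1.2, hs _ _ h.2⟩)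
  · exact Or.inl (Or.inl ⟨v 0, v 2, v 3, h.1.1, h.1.2, hs _ _ h.2⟩)
  · exact Or.inl (Or.inl ⟨v 0, v 2, v 4, h.1.1, h.1.2, hs _ _ h.2⟩)
  · exact Or.inl (Or.inl ⟨v 0, v 3, v 4, h.1.1, h.1.2, hs _ _ h.2⟩)
  · exact Or.inl (Or.inl ⟨v 1, v 2, v 3, h.1.1, h.1.2, hs _ _ h.2⟩)
  · exact Or.inl (Or.inl ⟨v 1, v 2, v 4, h.1.1, h.1.2, hs _ _ h.2⟩)
  · exact Or.inl (Or.inl ⟨v 1, v 3, v 4, h.1.1, h.1.2, hs _ _ h.2⟩)
  · exact Or.inl (Or.inl ⟨v 2, v 3, v 4, h.1.1, h.1.2, hs _ _ h.2⟩)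
  · exact Or.inr (Or.inl ⟨v 0, v 1, v 2, ⟨hne _ _ (by decide), h.1.1⟩, ⟨hne _ _ (by decide), h.1.2⟩,
      ⟨hne _ _ (by decide), hs' _ _ h.2⟩⟩)
  · exact Or.inr (Or.inl ⟨v 0, v 1, v 3, ⟨hne _ _ (by decide), h.1.1⟩, ⟨hne _ _ (by decide), h.1.2⟩,
      ⟨hne _ _ (by decide), hs' _ _ h.2⟩⟩)
  · exact Or.inr (Or.inl ⟨v 0, v 1, v 4, ⟨hne _ _ (by decide), h.1.1⟩, ⟨hne _ _ (by decide), h.1.2⟩,
      ⟨hne _ _ (by decide), hs' _ _ h.2⟩⟩)
  · exact Or.inr (Or.inl ⟨v 0, v 2, v 3, ⟨hne _ _ (by decide), h.1.1⟩, ⟨hne _ _ (by decide), h.1.2⟩,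
      ⟨hne _ _ (by decide), hs' _ _ h.2⟩⟩)
  · exact Or.inr (Or.inl ⟨v 0, v 2, v 4, ⟨hne _ _ (by decide), h.1.1⟩, ⟨hne _ _ (by decide), h.1.2⟩,
      ⟨hne _ _ (by decide), hs' _ _ h.2⟩⟩)
  · exact Or.inr (Or.inl ⟨v 0, v 3, v 4, ⟨hne _ _ (by decide), h.1.1⟩, ⟨hne _ _ (by decide), h.1.2⟩,
      ⟨hne _ _ (by decide), hs' _ _ h.2⟩⟩)
  · exact Or.inr (Or.inl ⟨v 1, v 2, v 3, ⟨hne _ _ (by decide), h.1.1⟩, ⟨hne _ _ (by decide), h.1.2⟩,
      ⟨hne _ _ (by decide), hs' _ _ h.2⟩⟩)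
  · exact Or.inr (Or.inl ⟨v 1, v 2, v 4, ⟨hne _ _ (by decide), h.1.1⟩, ⟨hne _ _ (by decide), h.1.2⟩,
      ⟨hne _ _ (by decide), hs' _ _ h.2⟩⟩)
  · exact Or.inr (Or.inl ⟨v 1, v 3, v 4, ⟨hne _ _ (by decide), h.1.1⟩, ⟨hne _ _ (by decide), h.1.2⟩,
      ⟨hne _ _ (by decide), hs' _ _ h.2⟩⟩)
  · exact Or.inr (Or.inl ⟨v 2, v 3, v 4, ⟨hne _ _ (by decide), h.1.1⟩, ⟨hne _ _ (by decide), h.1.2⟩,
      ⟨hne _ _ (by decide), hs' _ _ h.2⟩⟩)
  · exact Or.inl (Or.inr (Or.inr ⟨v 0, v 1, v 2, v 3, v 4, h.1.1.1.1, h.1.1.1.2, h.1.1.2, h.1.2, hs _ _ h.2⟩))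
  · exact Or.inl (Or.inr (Or.inr ⟨v 0, v 1, v 2, v 4, v 3, h.1.1.1.1, h.1.1.1.2, h.1.1.2, hs _ _ h.1.2, hs _ _ h.2⟩))
  · exact Or.inl (Or.inr (Or.inr ⟨v 0, v 1, v 3, v 2, v 4, h.1.1.1.1, h.1.1.1.2, hs _ _ h.1.1.2, h.1.2, hs _ _ h.2⟩))
  · exact Or.inl (Or.inr (Or.inr ⟨v 0, v 1, v 3, v 4, v 2, h.1.1.1.1, h.1.1.1.2, h.1.1.2, hs _ _ h.1.2, hs _ _ h.2⟩))
  · exact Or.inl (Or.inr (Or.inr ⟨v 0, v 1, v 4, v 2, v 3, h.1.1.1.1, h.1.1.1.2, hs _ _ h.1.1.2, h.1.2, hs _ _ h.2⟩))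
  · exact Or.inl (Or.inr (Or.inr ⟨v 0, v 1, v 4, v 3, v 2, h.1.1.1.1, h.1.1.1.2, hs _ _ h.1.1.2, hs _ _ h.1.2, hs _ _ h.2⟩))
  · exact Or.inl (Or.inr (Or.inr ⟨v 0, v 2, v 1, v 3, v 4, h.1.1.1.1, hs _ _ h.1.1.1.2, h.1.1.2, h.1.2, hs _ _ h.2⟩))
  · exact Or.inl (Or.inr (Or.inr ⟨v 0, v 2, v 1, v 4, v 3, h.1.1.1.1, hs _ _ h.1.1.1.2, h.1.1.2, hs _ _ h.1.2, hs _ _ h.2⟩))
  · exact Or.inl (Or.inr (Or.inr ⟨v 0, v 2, v 3, v 1, v 4, h.1.1.1.1, h.1.1.1.2, hs _ _ h.1.1.2, h.1.2, hs _ _ h.2⟩))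
  · exact Or.inl (Or.inr (Or.inr ⟨v 0, v 2, v 4, v 1, v 3, h.1.1.1.1, h.1.1.1.2, hs _ _ h.1.1.2, h.1.2, hs _ _ h.2⟩))
  · exact Or.inl (Or.inr (Or.inr ⟨v 0, v 3, v 1, v 2, v 4, h.1.1.1.1, hs _ _ h.1.1.1.2, h.1.1.2, h.1.2, hs _ _ h.2⟩))
  · exact Or.inl (Or.inr (Or.inr ⟨v 0, v 3, v 2, v 1, v 4, h.1.1.1.1, hs _ _ h.1.1.1.2, hs _ _ h.1.1.2, h.1.2, hs _ _ h.2⟩))

/-- short cycles on four vertices -/
def shortFour (p01 p02 p03 p12 p13 p23 : Bool) : Bool :=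
  (p01 && p12 && p02) ||
  (p01 && p13 && p03) ||
  (p02 && p23 && p03) ||
  (p12 && p23 && p13) ||
  (!p01 && !p12 && !p02) ||
  (!p01 && !p13 && !p03) ||
  (!p02 && !p23 && !p03) ||
  (!p12 && !p23 && !p13) ||
  (p01 && p12 && p23 && p03) ||
  (p01 && p13 && p23 && p02) ||
  (p02 && p12 && p13 && p03) ||
  (!p01 && !p12 && !p23 && !p03) ||
  (!p01 && !p13 && !p23 && !p02) ||
  (!p02 && !p12 && !p13 && !p03)

/-- the adjacency of a graph on four vertices -/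
def adjFour (p01 p02 p03 p12 p13 p23 : Bool) (x y : Fin 4) : Bool :=
  match x, y with
  | 0, 1 => p01
  | 1, 0 => p01
  | 0, 2 => p02
  | 2, 0 => p02
  | 0, 3 => p03
  | 3, 0 => p03
  | 1, 2 => p12
  | 2, 1 => p12
  | 1, 3 => p13
  | 3, 1 => p13
  | 2, 3 => p23
  | 3, 2 => p23
  | _, _ => false

set_option maxRecDepth 100000 in
theorem four_true : ∀ p01 p02 p03 p12 p13 p23 : Bool, shortFour p01 p02 p03 p12 p13 p23 = true ∨
    ∃ g ∈ ([![0, 1, 2, 3], ![0, 1, 3, 2], ![0, 2, 1, 3], ![0, 2, 3, 1], ![0, 3, 1, 2], ![0, 3, 2, 1], ![1, 0, 2, 3], ![1, 0, 3, 2], ![1, 2, 0, 3], ![1, 2, 3, 0], ![1, 3, 0, 2], ![1, 3, 2, 0]] : List (Fin 4 → Fin 4)),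
      (∀ x y, g x = g y → x = y) ∧ ∀ x y : Fin 4, adjFour p01 p02 p03 p12 p13 p23 x y = pathB (g x) (g y) := by
  decide

theorem adjFour_eq (G : Fin 4 → Fin 4 → Prop) [DecidableRel G] (hi : ∀ x, ¬ G x x) (hs : ∀ x y, G x y → G y x) (x y : Fin 4) :
    G x y ↔ adjFour (decide (G 0 1)) (decide (G 0 2)) (decide (G 0 3)) (decide (G 1 2)) (decide (G 1 3)) (decide (G 2 3)) x y = true := by
  have hs1 : ∀ x y, G x y ↔ G y x := fun x y => ⟨hs x y, hs y x⟩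
  fin_cases x <;> fin_cases y <;> simp [adjFour, hi] <;> exact hs1 _ _

theorem four (G : Fin 4 → Fin 4 → Prop) (hi : ∀ x, ¬ G x x) (hs : ∀ x y, G x y → G y x) :
    (HasShort G ∨ HasShort (fun x y => x ≠ y ∧ ¬ G x y)) ∨
      ∃ g : Fin 4 → Fin 4, Function.Injective g ∧ ∀ x y, G x y ↔ pathB (g x) (g y) = true := by
  classical
  have hs' : ∀ x y, ¬ G x y → ¬ G y x := fun x y h h1 => h (hs _ _ h1)
  rcases four_true (decide (G 0 1)) (decide (G 0 2)) (decide (G 0 3)) (decide (G 1 2)) (decide (G 1 3)) (decide (G 2 3)) with key | ⟨g, _, hg, hg2⟩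
  · left
    simp only [shortFour, Bool.or_eq_true, Bool.and_eq_true, decide_eq_true_eq, Bool.not_eq_true', decide_eq_false_iff_not,
      or_assoc] at key
    rcases key with h | h | h | h | h | h | h | h | h | h | h | h | h | h
    · exact Or.inl (Or.inl ⟨0, 1, 2, h.1.1, h.1.2, hs _ _ h.2⟩)
    · exact Or.inl (Or.inl ⟨0, 1, 3, h.1.1, h.1.2, hs _ _ h.2⟩)
    · exact Or.inl (Or.inl ⟨0, 2, 3, h.1.1, h.1.2, hs _ _ h.2⟩)
    · exact Or.inl (Or.inl ⟨1, 2, 3, h.1.1, h.1.2, hs _ _ h.2⟩)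
    · exact Or.inr (Or.inl ⟨0, 1, 2, ⟨by decide, h.1.1⟩, ⟨by decide, h.1.2⟩, ⟨by decide, hs' _ _ h.2⟩⟩)
    · exact Or.inr (Or.inl ⟨0, 1, 3, ⟨by decide, h.1.1⟩, ⟨by decide, h.1.2⟩, ⟨by decide, hs' _ _ h.2⟩⟩)
    · exact Or.inr (Or.inl ⟨0, 2, 3, ⟨by decide, h.1.1⟩, ⟨by decide, h.1.2⟩, ⟨by decide, hs' _ _ h.2⟩⟩)
    · exact Or.inr (Or.inl ⟨1, 2, 3, ⟨by decide, h.1.1⟩, ⟨by decide, h.1.2⟩, ⟨by decide, hs' _ _ h.2⟩⟩)
    · exact Or.inl (Or.inr (Or.inl ⟨0, 1, 2, 3, by decide, by decide, h.1.1.1, h.1.1.2, h.1.2, hs _ _ h.2⟩))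
    · exact Or.inl (Or.inr (Or.inl ⟨0, 1, 3, 2, by decide, by decide, h.1.1.1, h.1.1.2, hs _ _ h.1.2, hs _ _ h.2⟩))
    · exact Or.inl (Or.inr (Or.inl ⟨0, 2, 1, 3, by decide, by decide, h.1.1.1, hs _ _ h.1.1.2, h.1.2, hs _ _ h.2⟩))
    · exact Or.inr (Or.inr (Or.inl ⟨0, 1, 2, 3, by decide, by decide, ⟨by decide, h.1.1.1⟩, ⟨by decide, h.1.1.2⟩, ⟨by decide, h.1.2⟩, ⟨by decide, hs' _ _ h.2⟩⟩))
    · exact Or.inr (Or.inr (Or.inl ⟨0, 1, 3, 2, by decide, by decide, ⟨by decide, h.1.1.1⟩, ⟨by decide, h.1.1.2⟩, ⟨by decide, hs' _ _ h.1.2⟩, ⟨by decide, hs' _ _ h.2⟩⟩))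
    · exact Or.inr (Or.inr (Or.inl ⟨0, 2, 1, 3, by decide, by decide, ⟨by decide, h.1.1.1⟩, ⟨by decide, hs' _ _ h.1.1.2⟩, ⟨by decide, h.1.2⟩, ⟨by decide, hs' _ _ h.2⟩⟩))
  · right
    refine ⟨g, fun x y h => hg x y h, fun x y => ?_⟩
    rw [← hg2 x y]
    exact adjFour_eq G hi hs x y

/-- the adjacency of a graph on three vertices -/
def adjThree (p01 p02 p12 : Bool) (x y : Fin 3) : Bool :=
  match x, y with
  | 0, 1 => p01
  | 1, 0 => p01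
  | 0, 2 => p02
  | 2, 0 => p02
  | 1, 2 => p12
  | 2, 1 => p12
  | _, _ => false

set_option maxRecDepth 100000 in
theorem three_true : ∀ p01 p02 p12 : Bool, (p01 && p02 && p12) = true ∨ (!p01 && !p02 && !p12) = true ∨
    ∃ g ∈ ([![0, 2, 3], ![0, 3, 1], ![0, 2, 1], ![0, 1, 3], ![0, 1, 2], ![1, 0, 2]] : List (Fin 3 → Fin 4)),
      (∀ x y, g x = g y → x = y) ∧ ∀ x y : Fin 3, adjThree p01 p02 p12 x y = pathB (g x) (g y) := by
  decide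

theorem adjThree_eq (G : Fin 3 → Fin 3 → Prop) [DecidableRel G] (hi : ∀ x, ¬ G x x) (hs : ∀ x y, G x y → G y x) (x y : Fin 3) :
    G x y ↔ adjThree (decide (G 0 1)) (decide (G 0 2)) (decide (G 1 2)) x y = true := by
  have hs1 : ∀ x y, G x y ↔ G y x := fun x y => ⟨hs x y, hs y x⟩
  fin_cases x <;> fin_cases y <;> simp [adjThree, hi] <;> exact hs1 _ _

theorem three (G : Fin 3 → Fin 3 → Prop) (hi : ∀ x, ¬ G x x) (hs : ∀ x y, G x y → G y x) :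
    (HasShort G ∨ HasShort (fun x y => x ≠ y ∧ ¬ G x y)) ∨
      ∃ g : Fin 3 → Fin 4, Function.Injective g ∧ ∀ x y, G x y ↔ pathB (g x) (g y) = true := by
  classical
  have hs' : ∀ x y, ¬ G x y → ¬ G y x := fun x y h h1 => h (hs _ _ h1)
  rcases three_true (decide (G 0 1)) (decide (G 0 2)) (decide (G 1 2)) with h | h | ⟨g, _, hg, hg2⟩
  · left; left; left
    simp only [Bool.and_eq_true, decide_eq_true_eq] at h
    exact ⟨0, 1, 2, h.1.1, h.2, hs _ _ h.1.2⟩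
  · left; right; left
    simp only [Bool.and_eq_true, Bool.not_eq_true', decide_eq_false_iff_not] at h
    exact ⟨0, 1, 2, ⟨by decide, h.1.1⟩, ⟨by decide, h.2⟩, ⟨by decide, hs' _ _ h.1.2⟩⟩
  · right
    refine ⟨g, fun x y h => hg x y h, fun x y => ?_⟩
    rw [← hg2 x y]
    exact adjThree_eq G hi hs x y

theorem two (G : Fin 2 → Fin 2 → Prop) (hi : ∀ x, ¬ G x x) (hs : ∀ x y, G x y → G y x) :
    ∃ g : Fin 2 → Fin 4, Function.Injective g ∧ ∀ x y, G x y ↔ pathB (g x) (g y) = true := by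
  classical
  by_cases h : G 0 1
  · refine ⟨![0, 1], by decide, fun x y => ?_⟩
    have h' := hs _ _ h
    fin_cases x <;> fin_cases y <;> simp [pathB, hi, h, h']
  · refine ⟨![0, 2], by decide, fun x y => ?_⟩
    have h' : ¬ G 1 0 := fun h1 => h (hs _ _ h1)
    fin_cases x <;> fin_cases y <;> simp [pathB, hi, h, h']

/-- a graph which embeds in the path embeds in every critical structure -/
theorem emb_of_path {s : ℕ} (P : Str Kind.graph.rels (Fin s))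
    (h : ∃ g : Fin s → Fin 4, Function.Injective g ∧ ∀ x y, P (0 : Fin 1) x y ↔ pathB (g x) (g y) = true) :
    ∀ Q, Critical Kind.graph Q → Emb P Q := by
  obtain ⟨g, hg, hg2⟩ := h
  intro Q hQ
  refine ⟨g, hg, fun r x y => ?_⟩
  have hr : r = (0 : Fin 1) := Subsingleton.elim (α := Fin 1) r 0
  subst hr
  have h1 := hg2 x y
  have h2 := hQ (g x) (g y)
  rw [h1]
  unfold pathB
  rw [decide_eq_true_eq]
  exact h2.symm

theorem pat_graph {s : ℕ} (P : Str Kind.graph.rels (Fin s)) (h : Kind.graph.Is P)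
    (hP : ¬ ∀ Q, Critical Kind.graph Q → Emb P Q) :
    HasShort (P (0 : Fin 1)) ∨ HasShort (fun x y => x ≠ y ∧ ¬ P (0 : Fin 1) x y) := by
  obtain ⟨hi, hs⟩ := h
  rcases Nat.lt_or_ge s 5 with h5 | h5
  · match s, P, hi, hs, hP with
    | 0, P, hi, hs, hP =>
      exact absurd (emb_of_path P ⟨fun x => x.elim0, fun x => x.elim0, fun x => x.elim0⟩) hP
    | 1, P, hi, hs, hP =>
      refine absurd (emb_of_path P ⟨fun _ => 0, fun x y _ => Subsingleton.elim x y, fun x y => ?_⟩) hP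
      have e : x = y := Subsingleton.elim x y
      subst e
      constructor
      · intro h1
        exact absurd h1 (hi x)
      · intro h1
        exact absurd h1 (by simp [pathB])
    | 2, P, hi, hs, hP => exact absurd (emb_of_path P (two (P (0 : Fin 1)) hi hs)) hP
    | 3, P, hi, hs, hP =>
      rcases three (P (0 : Fin 1)) hi hs with h1 | h1
      · exact h1
      · exact absurd (emb_of_path P h1) hP
    | 4, P, hi, hs, hP =>
      rcases four (P (0 : Fin 1)) hi hs with h1 | h1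
      · exact h1
      · exact absurd (emb_of_path P h1) hP
    | (n + 5), _, _, _, _ => exact absurd h5 (by omega)
  · exact five (P (0 : Fin 1)) hs (Fin.castLE h5) (Fin.castLE_injective h5)

end Pool.Agent.Helper20.OP
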