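import Mathlib

/-!
# Block OP-T7: graphs without an induced path on four vertices (Seinsche)

Proof.  Induction on the number of vertices.  Two vertices: clear (`A = {x}`).  More: remove a vertex `v`; the rest
`V'` has at least two vertices, so by induction hypothesis there is a split `A`, `V' \ A`; by the symmetry
between `G` and its complement (the complement of `P₄` is `P₄`; the induction is over all graphs) assume that there
are no edges between `A` and `V' \ A` (so both are unions of connected components of `G - v`; refine: let the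
components of `G - v` be the classes of the relation `Relation.ReflTransGen` of `G` on `V'`).  If `v` has no
neighbour in some component `C` of `G - v`, then `C` is a split of `G` (no edges).  If `v` is adjacent to all
vertices of `V'`, then `{v}` is a split (complete).  Otherwise let `w ∈ V'` be a non-neighbour of `v`, `C` its component
in `G - v`.  `v` has a neighbour in `C`; on a walk in `C` from this neighbour to `w` there are adjacent `x, y ∈ C` with
`x` adjacent to `v` and `y` not adjacent to `v`.  There is another component, and a neighbour `z` of `v` in it.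
Then `y, x, v, z` is an induced path.

(Formalisation hint: state the induction for subsets `S : Finset V` of a fixed graph, or for all finite types of
a given cardinality.)
-/

set_option autoImplicit false

namespace Pool.Agent.Helper20.OP

/-- an induced path on four vertices -/
def HasP4 {V : Type} (G : V → V → Prop) : Prop :=
  ∃ a b c d : V, a ≠ b ∧ a ≠ c ∧ a ≠ d ∧ b ≠ c ∧ b ≠ d ∧ c ≠ d ∧ G a b ∧ G b c ∧ G c d ∧
    ¬ G a c ∧ ¬ G a d ∧ ¬ G b d

private def SplitOn26 {V : Type} (G : V → V → Prop) (S A : Set V) : Prop :=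
  A ⊆ S ∧ A.Nonempty ∧ (S \ A).Nonempty ∧
    ((∀ x ∈ A, ∀ y ∈ S \ A, ¬ G x y) ∨ (∀ x ∈ A, ∀ y ∈ S \ A, G x y))

private lemma SplitOn26.compl {V : Type} {G : V → V → Prop} {S A : Set V} (h : SplitOn26 G S A) :
    SplitOn26 (fun x y => ¬ G x y) S A := by
  refine ⟨h.1, h.2.1, h.2.2.1, ?_⟩
  rcases h.2.2.2 with h | h
  · exact Or.inr h
  · exact Or.inl fun x hx y hy h' => h' (h x hx y hy)

private lemma SplitOn26.of_compl {V : Type} {G : V → V → Prop} {S A : Set V}
    (h : SplitOn26 (fun x y => ¬ G x y) S A) : SplitOn26 G S A := by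
  refine ⟨h.1, h.2.1, h.2.2.1, ?_⟩
  rcases h.2.2.2 with h | h
  · exact Or.inr fun x hx y hy => not_not.1 (h x hx y hy)
  · exact Or.inl h

/-- the case in which there is a vertex `w ∈ A` not adjacent to `v` -/
private lemma seinsche_aux_h26 {V : Type} {G : V → V → Prop} (hs : ∀ x y, G x y → G y x)
    (h4 : ¬ HasP4 G) {A B : Set V} {v : V} (hvA : v ∉ A) (hvB : v ∉ B)
    (hd : ∀ x ∈ A, x ∉ B) (hn : ∀ x ∈ A, ∀ y ∈ B, ¬ G x y) {w z : V} (hw : w ∈ A)
    (hwv : ¬ G v w) (hz : z ∈ B) (hzv : G v z) :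
    ∃ C, SplitOn26 G (insert v (A ∪ B)) C := by
  refine ⟨{x | x ∈ A ∧ ¬ G v x}, fun x hx => Or.inr (Or.inl hx.1), ⟨w, hw, hwv⟩,
    ⟨v, Or.inl rfl, fun h => hvA h.1⟩, Or.inl ?_⟩
  rintro x ⟨hx, hxv⟩ y ⟨hy | hy | hy, hyC⟩ hxy
  · rw [hy] at hxy
    exact hxv (hs _ _ hxy)
  · have hyv : G v y := by
      by_contra h
      exact hyC ⟨hy, h⟩
    refine h4 ⟨x, y, v, z, ?_, ?_, ?_, ?_, ?_, ?_, hxy, hs _ _ hyv, hzv, ?_, hn x hx z hz,
      hn y hy z hz⟩
    · rintro rfl
      exact hxv hyv
    · rintro rfl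
      exact hvA hx
    · rintro rfl
      exact hd _ hx hz
    · rintro rfl
      exact hvA hy
    · rintro rfl
      exact hd _ hy hz
    · rintro rfl
      exact hvB hz
    · intro h
      exact hxv (hs _ _ h)
  · exact hn x hx y hy hxy

/-- the step, when there are no edges between `A` and `B` -/
private lemma seinsche_step_h26 {V : Type} {G : V → V → Prop} (hs : ∀ x y, G x y → G y x)
    (h4 : ¬ HasP4 G) {A B : Set V} {v : V} (hvA : v ∉ A) (hvB : v ∉ B) (hA : A.Nonempty)
    (hB : B.Nonempty) (hd : ∀ x ∈ A, x ∉ B) (hn : ∀ x ∈ A, ∀ y ∈ B, ¬ G x y) :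
    ∃ C, SplitOn26 G (insert v (A ∪ B)) C := by
  by_cases h1 : ∃ z ∈ B, G v z
  · obtain ⟨z, hz, hzv⟩ := h1
    by_cases h2 : ∃ z ∈ A, G v z
    · obtain ⟨z', hz', hzv'⟩ := h2
      by_cases h3 : ∃ w ∈ A, ¬ G v w
      · obtain ⟨w, hw, hwv⟩ := h3
        exact seinsche_aux_h26 hs h4 hvA hvB hd hn hw hwv hz hzv
      · by_cases h5 : ∃ w ∈ B, ¬ G v w
        · obtain ⟨w, hw, hwv⟩ := h5
          have h6 := seinsche_aux_h26 hs h4 hvB hvA (fun x hx h => hd x h hx)
            (fun x hx y hy h => hn y hy x hx (hs _ _ h)) hw hwv hz' hzv'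
          rwa [Set.union_comm] at h6
        · refine ⟨{v}, fun x hx => Or.inl hx, ⟨v, rfl⟩, ⟨z, Or.inr (Or.inr hz), ?_⟩, Or.inr ?_⟩
          · rintro rfl
            exact hvB hz
          · rintro x rfl y ⟨hy | hy | hy, hyx⟩
            · exact absurd hy hyx
            · by_contra h
              exact h3 ⟨y, hy, h⟩
            · by_contra h
              exact h5 ⟨y, hy, h⟩
    · refine ⟨A, fun x hx => Or.inr (Or.inl hx), hA, ⟨v, Or.inl rfl, hvA⟩, Or.inl ?_⟩
      rintro x hx y ⟨hy | hy | hy, hyx⟩ hxy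
      · rw [hy] at hxy
        exact h2 ⟨x, hx, hs _ _ hxy⟩
      · exact hyx hy
      · exact hn x hx y hy hxy
  · refine ⟨B, fun x hx => Or.inr (Or.inr hx), hB, ⟨v, Or.inl rfl, hvB⟩, Or.inl ?_⟩
    rintro x hx y ⟨hy | hy | hy, hyx⟩ hxy
    · rw [hy] at hxy
      exact h1 ⟨x, hx, hs _ _ hxy⟩
    · exact hn y hy x hx (hs _ _ hxy)
    · exact hyx hy

private lemma P4_compl_h26 {V : Type} {G : V → V → Prop} (hs : ∀ x y, G x y → G y x)
    (h4 : ¬ HasP4 G) : ¬ HasP4 (fun x y => ¬ G x y) := by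
  rintro ⟨a, b, c, d, hab, hac, had, hbc, hbd, hcd, gab, gbc, gcd, gac, gad, gbd⟩
  rw [not_not] at gac gad gbd
  exact h4 ⟨c, a, d, b, hac.symm, hcd, hbc.symm, had, hab, hbd.symm, hs _ _ gac, gad, hs _ _ gbd,
    gcd, fun h => gbc (hs _ _ h), gab⟩

theorem seinsche {V : Type} [Finite V] (G : V → V → Prop) (hs : ∀ x y, G x y → G y x)
    (h4 : ¬ HasP4 G) (h2 : ∃ x y : V, x ≠ y) :
    ∃ A : Set V, A.Nonempty ∧ Aᶜ.Nonempty ∧
      ((∀ x ∈ A, ∀ y ∈ Aᶜ, ¬ G x y) ∨ (∀ x ∈ A, ∀ y ∈ Aᶜ, G x y)) := by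
  classical
  have key : ∀ s : Finset V, (∃ x ∈ s, ∃ y ∈ s, x ≠ y) → ∃ A, SplitOn26 G (s : Set V) A := by
    intro s
    induction s using Finset.induction_on with
    | empty => rintro ⟨x, hx, _⟩; exact absurd hx (Finset.notMem_empty x)
    | insert v s hv ih =>
      rintro ⟨x, hx, y, hy, hxy⟩
      rw [Finset.coe_insert]
      by_cases h : ∃ x ∈ s, ∃ y ∈ s, x ≠ y
      · obtain ⟨A, hA⟩ := ih h
        have hu : A ∪ ((s : Set V) \ A) = s := Set.union_sdiff_cancel hA.1
        have hvA : v ∉ A := fun h => hv (Finset.mem_coe.1 (hA.1 h))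
        have hvB : v ∉ (s : Set V) \ A := fun h => hv (Finset.mem_coe.1 h.1)
        rcases hA.2.2.2 with h1 | h1
        · have h3 := seinsche_step_h26 hs h4 hvA hvB hA.2.1 hA.2.2.1 (fun x hx h => h.2 hx) h1
          rwa [hu] at h3
        · obtain ⟨C, hC⟩ := seinsche_step_h26 (G := fun x y => ¬ G x y)
            (fun x y h h' => h (hs _ _ h')) (P4_compl_h26 hs h4) hvA hvB hA.2.1 hA.2.2.1
            (fun x hx h => h.2 hx) (fun x hx y hy h => h (h1 x hx y hy))
          rw [hu] at hC
          exact ⟨C, hC.of_compl⟩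
      · have hall : ∀ x ∈ s, ∀ y ∈ s, x = y := by
          intro x hx y hy
          by_contra h'
          exact h ⟨x, hx, y, hy, h'⟩
        have hu : ∃ u, u ∈ s := by
          rcases Finset.mem_insert.1 hx with rfl | hx
          · rcases Finset.mem_insert.1 hy with rfl | hy
            · exact absurd rfl hxy
            · exact ⟨y, hy⟩
          · exact ⟨x, hx⟩
        obtain ⟨u, hu⟩ := hu
        refine ⟨{v}, fun x hx => Or.inl hx, ⟨v, rfl⟩, ⟨u, Or.inr (Finset.mem_coe.2 hu), ?_⟩, ?_⟩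
        · rintro rfl
          exact hv hu
        · by_cases hg : G v u
          · refine Or.inr ?_
            rintro x rfl y ⟨hy | hy, hyx⟩
            · exact absurd hy hyx
            · rw [hall y (Finset.mem_coe.1 hy) u hu]
              exact hg
          · refine Or.inl ?_
            rintro x rfl y ⟨hy | hy, hyx⟩
            · exact absurd hy hyx
            · rw [hall y (Finset.mem_coe.1 hy) u hu]
              exact hg
  have _ := Fintype.ofFinite V
  obtain ⟨x, y, hxy⟩ := h2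
  obtain ⟨A, hA⟩ := key Finset.univ ⟨x, Finset.mem_univ x, y, Finset.mem_univ y, hxy⟩
  rw [Finset.coe_univ] at hA
  have hc : (Set.univ : Set V) \ A = Aᶜ := by
    ext x
    simp
  have h5 := hA.2
  rw [hc] at h5
  exact ⟨A, h5⟩

end Pool.Agent.Helper20.OP
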