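import Pool.Agent.Helper20.OP.Sq

/-!
# Block OP-S3: the intended situation is a square code

`SqStd.code`: field by field, as in the characterisations (`x = z i` etc., `inj`).  Nothing between `z i` and `z j`
and `i < j` mean `j = i + 1`; no smaller element: `i = 0`; no larger element: `i = N - 1`.  `cnt₁`, `cnt₂`, `ext`: `exactly_iff`;
`{v | O₁ v (z i)} = {v | own v = some (inl i)}`, etc.
-/

set_option autoImplicit false

namespace Pool.Agent.Helper20.OP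

open Pool.Agent.Helper29.Prefix

theorem SqStd.code {V Γ : Type} [Finite V] {W : Wang Γ} {N : ℕ} {f : ℕ → ℕ → Γ} {m₁ m₂ e : ℕ}
    {I : V → Prop} {lt : V → V → Prop} {t : V → V → Γ → Prop} {O₁ : V → V → Prop}
    {O₂ : V → V → V → Prop} {Ex : V → Prop} {z : ℕ → V} {own : V → Option (ℕ ⊕ ℕ × ℕ)}
    (h : SqStd W N f m₁ m₂ e I lt t O₁ O₂ Ex z own) : SqCode W m₁ m₂ e I lt t O₁ O₂ Ex := by
  have hN := h.hN
  have hI : ∀ i, i < N → I (z i) := fun i hi => (h.I_iff _).2 ⟨i, hi, rfl⟩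
  have hmin : ∀ i, i < N → (∀ y, I y → ¬ lt y (z i)) → i = 0 := by
    intro i hi h1
    by_contra h2
    exact h1 (z 0) (hI 0 (by omega)) ((h.lt_iff 0 i (by omega) hi).2 (by omega))
  have hmax : ∀ i, i < N → (∀ y, I y → ¬ lt (z i) y) → i = N - 1 := by
    intro i hi h1
    by_contra h2
    exact h1 (z (i + 1)) (hI _ (by omega)) ((h.lt_iff i (i + 1) hi (by omega)).2 (by omega))
  have hsucc : ∀ i j, i < N → j < N → lt (z i) (z j) →
      (∀ y, I y → ¬ (lt (z i) y ∧ lt y (z j))) → j = i + 1 := by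
    intro i j hi hj h1 h2
    have h3 := (h.lt_iff i j hi hj).1 h1
    by_contra h4
    exact h2 (z (i + 1)) (hI _ (by omega)) ⟨(h.lt_iff i (i + 1) hi (by omega)).2 (by omega),
      (h.lt_iff (i + 1) j (by omega) hj).2 (by omega)⟩
  refine
    { irr := ?_, trans := ?_, lin := ?_, big := ?_, tot := ?_, hR := ?_, hU := ?_, hl := ?_,
      hr := ?_, hb := ?_, ht := ?_, hc := ?_, own := ?_, own₁ := ?_, own₂ := ?_, cnt₁ := ?_,
      cnt₂ := ?_, ext := ?_ }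
  · intro x hx
    obtain ⟨i, hi, rfl⟩ := (h.I_iff x).1 hx
    rw [h.lt_iff i i hi hi]
    exact lt_irrefl i
  · intro x y w hx hy hw
    obtain ⟨i, hi, rfl⟩ := (h.I_iff x).1 hx
    obtain ⟨j, hj, rfl⟩ := (h.I_iff y).1 hy
    obtain ⟨l, hl, rfl⟩ := (h.I_iff w).1 hw
    rw [h.lt_iff i j hi hj, h.lt_iff j l hj hl, h.lt_iff i l hi hl]
    exact lt_trans
  · intro x y hx hy
    obtain ⟨i, hi, rfl⟩ := (h.I_iff x).1 hx
    obtain ⟨j, hj, rfl⟩ := (h.I_iff y).1 hy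
    rw [h.lt_iff i j hi hj, h.lt_iff j i hj hi]
    rcases lt_trichotomy i j with h1 | h1 | h1
    · exact Or.inl h1
    · exact Or.inr (Or.inl (congrArg z h1))
    · exact Or.inr (Or.inr h1)
  · refine ⟨z 0, z 1, hI 0 (by omega), hI 1 (by omega), fun h1 => ?_⟩
    have := h.inj 0 1 (by omega) (by omega) h1
    omega
  · intro x y hx hy
    obtain ⟨i, hi, rfl⟩ := (h.I_iff x).1 hx
    obtain ⟨j, hj, rfl⟩ := (h.I_iff y).1 hy
    exact ⟨f i j, (h.t_iff i j _ hi hj).2 rfl⟩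
  · intro x x' y γ δ hx hx' hy h1 h2 h3 h4
    obtain ⟨i, hi, rfl⟩ := (h.I_iff x).1 hx
    obtain ⟨i', hi', rfl⟩ := (h.I_iff x').1 hx'
    obtain ⟨j, hj, rfl⟩ := (h.I_iff y).1 hy
    obtain rfl := hsucc i i' hi hi' h1 h2
    rw [(h.t_iff _ _ _ hi hj).1 h3, (h.t_iff _ _ _ hi' hj).1 h4]
    exact h.tR i j hi' hj
  · intro x y y' γ δ hx hy hy' h1 h2 h3 h4
    obtain ⟨i, hi, rfl⟩ := (h.I_iff x).1 hx
    obtain ⟨j, hj, rfl⟩ := (h.I_iff y).1 hy
    obtain ⟨j', hj', rfl⟩ := (h.I_iff y').1 hy'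
    obtain rfl := hsucc j j' hj hj' h1 h2
    rw [(h.t_iff _ _ _ hi hj).1 h3, (h.t_iff _ _ _ hi hj').1 h4]
    exact h.tU i j hi hj'
  · intro x y γ hx hy h1 h2
    obtain ⟨i, hi, rfl⟩ := (h.I_iff x).1 hx
    obtain ⟨j, hj, rfl⟩ := (h.I_iff y).1 hy
    obtain rfl := hmin i hi h1
    rw [(h.t_iff _ _ _ hi hj).1 h2]
    exact h.tl j hj
  · intro x y γ hx hy h1 h2
    obtain ⟨i, hi, rfl⟩ := (h.I_iff x).1 hx
    obtain ⟨j, hj, rfl⟩ := (h.I_iff y).1 hy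
    obtain rfl := hmax i hi h1
    rw [(h.t_iff _ _ _ hi hj).1 h2]
    exact h.tr j hj
  · intro x y γ hx hy h1 h2
    obtain ⟨i, hi, rfl⟩ := (h.I_iff x).1 hx
    obtain ⟨j, hj, rfl⟩ := (h.I_iff y).1 hy
    obtain rfl := hmin j hj h1
    rw [(h.t_iff _ _ _ hi hj).1 h2]
    exact h.tb i hi
  · intro x y γ hx hy h1 h2
    obtain ⟨i, hi, rfl⟩ := (h.I_iff x).1 hx
    obtain ⟨j, hj, rfl⟩ := (h.I_iff y).1 hy
    obtain rfl := hmax j hj h1
    rw [(h.t_iff _ _ _ hi hj).1 h2]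
    exact h.tt i hi
  · intro x γ hx h1 h2
    obtain ⟨i, hi, rfl⟩ := (h.I_iff x).1 hx
    obtain rfl := hmin i hi h1
    rw [(h.t_iff _ _ _ hi hi).1 h2]
    exact h.tc
  · intro v
    by_cases h1 : Ex v
    · exact Or.inl h1
    rcases h.own_some v h1 with ⟨i, hi, h2⟩ | ⟨i, j, hi, hj, h2⟩
    · exact Or.inr (Or.inl ⟨z i, (h.O₁_iff _ _).2 ⟨i, hi, h2, rfl⟩⟩)
    · exact Or.inr (Or.inr ⟨z i, z j, (h.O₂_iff _ _ _).2 ⟨i, j, hi, hj, h2, rfl, rfl⟩⟩)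
  · intro v x hv
    obtain ⟨i, hi, h1, rfl⟩ := (h.O₁_iff _ _).1 hv
    refine ⟨hI i hi, fun h2 => ?_, fun x' hx' => ?_, fun y w h2 => ?_⟩
    · rw [h.own_ex v h2] at h1
      exact absurd h1 (by simp)
    · obtain ⟨i', hi', h3, rfl⟩ := (h.O₁_iff _ _).1 hx'
      rw [h1] at h3
      have h4 : i = i' := by simpa using h3
      rw [h4]
    · obtain ⟨i', j', hi', hj', h3, -⟩ := (h.O₂_iff _ _ _).1 h2
      rw [h1] at h3
      exact absurd h3 (by simp)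
  · intro v x y hv
    obtain ⟨i, j, hi, hj, h1, rfl, rfl⟩ := (h.O₂_iff _ _ _).1 hv
    refine ⟨hI i hi, hI j hj, fun h2 => ?_, fun x' y' h2 => ?_⟩
    · rw [h.own_ex v h2] at h1
      exact absurd h1 (by simp)
    · obtain ⟨i', j', hi', hj', h3, rfl, rfl⟩ := (h.O₂_iff _ _ _).1 h2
      rw [h1] at h3
      have h4 : i = i' ∧ j = j' := by simpa using h3
      rw [h4.1, h4.2]
      exact ⟨rfl, rfl⟩
  · intro x hx
    obtain ⟨i, hi, rfl⟩ := (h.I_iff x).1 hx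
    rw [exactly_iff, ← h.cnt₁ i hi]
    apply Nat.card_congr
    apply Equiv.subtypeEquivRight
    intro v
    rw [h.O₁_iff]
    constructor
    · rintro ⟨i', hi', h1, h2⟩
      rw [h.inj i i' hi hi' h2]
      exact h1
    · intro h1
      exact ⟨i, hi, h1, rfl⟩
  · intro x y hx hy
    obtain ⟨i, hi, rfl⟩ := (h.I_iff x).1 hx
    obtain ⟨j, hj, rfl⟩ := (h.I_iff y).1 hy
    rw [exactly_iff, ← h.cnt₂ i j hi hj]
    apply Nat.card_congr
    apply Equiv.subtypeEquivRight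
    intro v
    rw [h.O₂_iff]
    constructor
    · rintro ⟨i', j', hi', hj', h1, h2, h3⟩
      rw [h.inj i i' hi hi' h2, h.inj j j' hj hj' h3]
      exact h1
    · intro h1
      exact ⟨i, j, hi, hj, h1, rfl, rfl⟩
  · rw [exactly_iff]
    exact h.ext

end Pool.Agent.Helper20.OP
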