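import Pool.Agent.Helper20.OP.Sq
import Pool.Agent.Helper20.OP.Def

/-!
# Block OP-S4: square codes are definable

Write `SqCode` as the conjunction of its fields (a lemma `SqCode ... ↔ ... ∧ ...`) and use the closure lemmas of `Def`
(`Def.all`, `Def.imp`, `Def.and`, `Def.or`, `Def.not`, `Def.eq`, `Def.ren`, `Def1.app`, `Def2.app`, `Def3.app`, `Def.all_fin`, `Def.ex_fin`,
`Def.const`, `Def.exactly`).  The conditions `∀ γ`, `∃ γ` over the finite type `Γ` are `Def.all_fin`, `Def.ex_fin`.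
-/

set_option autoImplicit false

namespace Pool.Agent.Helper20.OP

open Pool.Agent.Helper29.Prefix

theorem def_sqCode {b : ℕ} {Γ : Type} [Finite Γ] (W : Wang Γ) (m₁ m₂ e : ℕ)
    {I : ∀ V : Type, Str b V → V → Prop}
    {lt : ∀ V : Type, Str b V → V → V → Prop}
    {t : ∀ V : Type, Str b V → V → V → Γ → Prop}
    {O₁ : ∀ V : Type, Str b V → V → V → Prop}
    {O₂ : ∀ V : Type, Str b V → V → V → V → Prop}
    {Ex : ∀ V : Type, Str b V → V → Prop}
    (hI : Def1 b I) (hlt : Def2 b lt) (ht : ∀ γ, Def2 b (fun V R x y => t V R x y γ))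
    (hO₁ : Def2 b O₁) (hO₂ : Def3 b O₂) (hEx : Def1 b Ex) :
    Def0 b (fun V R => SqCode W m₁ m₂ e (I V R) (lt V R) (t V R) (O₁ V R) (O₂ V R) (Ex V R)) := by
  refine Def.congr (P := fun V R _ =>
    (∀ x, I V R x → ¬ lt V R x x) ∧
    (∀ x y z, I V R x → I V R y → I V R z → lt V R x y → lt V R y z → lt V R x z) ∧
    (∀ x y, I V R x → I V R y → lt V R x y ∨ x = y ∨ lt V R y x) ∧
    (∃ x y, I V R x ∧ I V R y ∧ ¬ x = y) ∧
    (∀ x y, I V R x → I V R y → ∃ γ, t V R x y γ) ∧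
    (∀ x x' y γ δ, I V R x → I V R x' → I V R y → lt V R x x' →
      (∀ z, I V R z → ¬ (lt V R x z ∧ lt V R z x')) →
      t V R x y γ → t V R x' y δ → W.R γ δ) ∧
    (∀ x y y' γ δ, I V R x → I V R y → I V R y' → lt V R y y' →
      (∀ z, I V R z → ¬ (lt V R y z ∧ lt V R z y')) →
      t V R x y γ → t V R x y' δ → W.U γ δ) ∧
    (∀ x y γ, I V R x → I V R y → (∀ z, I V R z → ¬ lt V R z x) → t V R x y γ → W.l γ) ∧
    (∀ x y γ, I V R x → I V R y → (∀ z, I V R z → ¬ lt V R x z) → t V R x y γ → W.r γ) ∧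
    (∀ x y γ, I V R x → I V R y → (∀ z, I V R z → ¬ lt V R z y) → t V R x y γ → W.b γ) ∧
    (∀ x y γ, I V R x → I V R y → (∀ z, I V R z → ¬ lt V R y z) → t V R x y γ → W.t γ) ∧
    (∀ x γ, I V R x → (∀ z, I V R z → ¬ lt V R z x) → t V R x x γ → W.c γ) ∧
    (∀ v, Ex V R v ∨ (∃ x, O₁ V R v x) ∨ ∃ x y, O₂ V R v x y) ∧
    (∀ v x, O₁ V R v x → I V R x ∧ ¬ Ex V R v ∧ (∀ x', O₁ V R v x' → x' = x) ∧
      ∀ y z, ¬ O₂ V R v y z) ∧
    (∀ v x y, O₂ V R v x y → I V R x ∧ I V R y ∧ ¬ Ex V R v ∧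
      ∀ x' y', O₂ V R v x' y' → x' = x ∧ y' = y) ∧
    (∀ x, I V R x → Exactly m₁ (fun v => O₁ V R v x)) ∧
    (∀ x y, I V R x → I V R y → Exactly m₂ (fun v => O₂ V R v x y)) ∧
    Exactly e (Ex V R)) ?_
    (fun V R _ => ⟨fun h => ⟨h.irr, h.trans, h.lin, h.big, h.tot, h.hR, h.hU, h.hl, h.hr, h.hb,
      h.ht, h.hc, h.own, h.own₁, h.own₂, h.cnt₁, h.cnt₂, h.ext⟩,
      fun ⟨h1, h2, h3, h4, h5, h6, h7, h8, h9, h10, h11, h12, h13, h14, h15, h16, h17, h18⟩ =>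
        ⟨h1, h2, h3, h4, h5, h6, h7, h8, h9, h10, h11, h12, h13, h14, h15, h16, h17, h18⟩⟩)
  repeat' first
    | exact Def.const _
    | exact hI.app _
    | exact hlt.app _ _
    | exact (ht _).app _ _
    | exact hO₁.app _ _
    | exact hO₂.app _ _ _
    | exact hEx.app _
    | exact Def.eq _ _
    | refine Def.not ?_
    | refine Def.and ?_ ?_
    | refine Def.or ?_ ?_
    | refine Def.imp ?_ ?_
    | refine Def.all ?_
    | refine Def.ex ?_
    | refine Def.all_fin (fun _ => ?_)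
    | refine Def.ex_fin (fun _ => ?_)
    | refine Def.exactly _ ?_

end Pool.Agent.Helper20.OP
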