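import Pool.Agent.Helper20.OP.SqCod
import Pool.Agent.Helper20.OP.SqDef
import Pool.Agent.Helper20.OP.GridDef

/-!
# Square codes: summary of imports
-/
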