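import Pool.Agent.Helper20.OP.Sq

/-!
# Block OP-S1: square codes give tilings

Proof.  `N := Nat.card {x // I x} ≥ 2` (`big`).  The linear order `lt` on the finite set `I` has an order preserving
enumeration `z : Fin N → {x // I x}` (e.g. make it a `LinearOrder` and use `Finset.orderIsoOfFin` or
`Fintype.orderIsoFinOfCardEq`; or: `z` maps `i` to the element with exactly `i` smaller elements).  Choose tiles
(`tot`) and put `f x y` := the tile of `(z x, z y)` (arbitrary outside).  Neighbours: `lt (z i) (z (i+1))` and nothing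
between; `z 0` is the least, `z (N - 1)` the greatest element.
-/

set_option autoImplicit false

namespace Pool.Agent.Helper20.OP

open Pool.Agent.Helper29.Prefix

theorem SqCode.tiles {V Γ : Type} [Finite V] {W : Wang Γ} {m₁ m₂ e : ℕ} {I : V → Prop}
    {lt : V → V → Prop} {t : V → V → Γ → Prop} {O₁ : V → V → Prop} {O₂ : V → V → V → Prop}
    {Ex : V → Prop} (h : SqCode W m₁ m₂ e I lt t O₁ O₂ Ex) : Tiles W (Nat.card {x // I x}) := by
  classical
  let _ : LinearOrder {x // I x} :=
    { le := fun x y => lt x.1 y.1 ∨ x = y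
      lt := fun x y => lt x.1 y.1
      le_refl := fun x => Or.inr rfl
      le_trans := by
        rintro x y z (hxy | rfl) (hyz | rfl)
        · exact Or.inl (h.trans _ _ _ x.2 y.2 z.2 hxy hyz)
        · exact Or.inl hxy
        · exact Or.inl hyz
        · exact Or.inr rfl
      lt_iff_le_not_ge := by
        intro x y
        constructor
        · intro hxy
          refine ⟨Or.inl hxy, ?_⟩
          rintro (hyx | rfl)
          · exact h.irr _ x.2 (h.trans _ _ _ x.2 y.2 x.2 hxy hyx)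
          · exact h.irr _ y.2 hxy
        · rintro ⟨hxy | rfl, h'⟩
          · exact hxy
          · exact absurd (Or.inr rfl) h'
      le_antisymm := by
        rintro x y (hxy | rfl) (hyx | h')
        · exact absurd (h.trans _ _ _ x.2 y.2 x.2 hxy hyx) (h.irr _ x.2)
        · exact h'.symm
        · rfl
        · rfl
      le_total := by
        intro x y
        rcases h.lin x.1 y.1 x.2 y.2 with h' | h' | h'
        · exact Or.inl (Or.inl h')
        · exact Or.inl (Or.inr (Subtype.ext h'))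
        · exact Or.inr (Or.inl h')
      toDecidableLE := Classical.decRel _ }
  have hlt : ∀ x y : {x // I x}, x < y ↔ lt x.1 y.1 := fun x y => Iff.rfl
  have _ : Fintype {x // I x} := Fintype.ofFinite _
  have h1 : 1 < Nat.card {x // I x} := by
    rw [Finite.one_lt_card_iff_nontrivial]
    obtain ⟨x, y, hx, hy, hxy⟩ := h.big
    exact ⟨⟨x, hx⟩, ⟨y, hy⟩, fun h' => hxy (congrArg Subtype.val h')⟩
  obtain ⟨N, hN⟩ : ∃ N, N = Nat.card {x // I x} := ⟨_, rfl⟩
  rw [← hN] at h1 ⊢
  let ι : Fin N ≃o {x // I x} := Fintype.orderIsoFinOfCardEq {x // I x}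
    (by rw [hN, Nat.card_eq_fintype_card])
  choose tile htile using h.tot
  let z : ℕ → {x // I x} := fun i => ι ⟨min i (N - 1), by omega⟩
  have hz : ∀ i j, i < N → j < N → (lt (z i).1 (z j).1 ↔ i < j) := by
    intro i j hi hj
    rw [← hlt]
    show ι _ < ι _ ↔ _
    rw [ι.lt_iff_lt, Fin.mk_lt_mk, min_eq_left (by omega), min_eq_left (by omega)]
  have hs : ∀ x, I x → ∃ i, i < N ∧ x = (z i).1 := by
    intro x hx
    obtain ⟨i, hi⟩ := ι.surjective ⟨x, hx⟩
    refine ⟨i.1, i.2, ?_⟩
    have h2 : z i.1 = ι i := by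
      show ι _ = ι i
      congr 1
      apply Fin.ext
      show min i.1 (N - 1) = i.1
      have := i.2
      omega
    rw [h2, hi]
  have hsucc : ∀ i, i + 1 < N → lt (z i).1 (z (i + 1)).1 ∧
      ∀ y, I y → ¬ (lt (z i).1 y ∧ lt y (z (i + 1)).1) := by
    intro i hi
    refine ⟨(hz _ _ (by omega) hi).2 (by omega), ?_⟩
    rintro y hy ⟨h3, h4⟩
    obtain ⟨k, hk, rfl⟩ := hs y hy
    rw [hz _ _ (by omega) hk] at h3
    rw [hz _ _ hk hi] at h4
    omega
  have hlow : ∀ y, I y → ¬ lt y (z 0).1 := by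
    intro y hy h3
    obtain ⟨k, hk, rfl⟩ := hs y hy
    rw [hz _ _ hk (by omega)] at h3
    omega
  have hup : ∀ y, I y → ¬ lt (z (N - 1)).1 y := by
    intro y hy h3
    obtain ⟨k, hk, rfl⟩ := hs y hy
    rw [hz _ _ (by omega) hk] at h3
    omega
  refine ⟨fun x y => tile (z x).1 (z y).1 (z x).2 (z y).2, ?_, ?_, ?_, ?_, ?_, ?_, ?_⟩
  · intro x y hx _
    exact h.hR _ _ (z y).1 _ _ (z x).2 (z (x + 1)).2 (z y).2 (hsucc x hx).1 (hsucc x hx).2
      (htile _ _ _ _) (htile _ _ _ _)
  · intro x y _ hy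
    exact h.hU (z x).1 _ _ _ _ (z x).2 (z y).2 (z (y + 1)).2 (hsucc y hy).1 (hsucc y hy).2
      (htile _ _ _ _) (htile _ _ _ _)
  · intro y _
    exact h.hl _ (z y).1 _ (z 0).2 (z y).2 hlow (htile _ _ _ _)
  · intro y _
    exact h.hr _ (z y).1 _ (z (N - 1)).2 (z y).2 hup (htile _ _ _ _)
  · intro x _
    exact h.hb (z x).1 _ _ (z x).2 (z 0).2 hlow (htile _ _ _ _)
  · intro x _
    exact h.ht (z x).1 _ _ (z x).2 (z (N - 1)).2 hup (htile _ _ _ _)
  · exact h.hc _ _ (z 0).2 hlow (htile _ _ _ _)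

end Pool.Agent.Helper20.OP
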