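import Pool.Agent.Helper20.OP.WildOf
import Pool.Agent.Helper20.OP.DefKind
import Pool.Agent.Helper20.OP.PatGraph
import Pool.Agent.Helper20.OP.G.Model

/-!
# Block OP-W4: graphs

`wild_of_coding` with the class `K = Omit κ P` (definable by `def_omit`) and a definable `τ`.

By `pat_graph`: if `P` has a short cycle: `C = BipSix`, `τ = id`, `R' = R`: `R` is irreflexive and symmetric; an embedding
of `P` would give a closed walk of length 3 or 5 (impossible: the sides alternate) or a cycle of length 4 in `R`.  If the complement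
of `P` has one: `τ V R = fun _ x y => x ≠ y ∧ ¬ R 0 x y`, `R' = ` the complement of `R` (`τ R' = R`, as `R` is irreflexive).
-/

set_option autoImplicit false

namespace Pool.Agent.Helper20.OP

private theorem no_short24 {V : Type} {R : Str 1 V} (hR : G.BipSix V R) {U : Type}
    {Q : U → U → Prop} (f : U → V) (hf : Function.Injective f)
    (hQ : ∀ x y, Q x y → R 0 (f x) (f y)) : ¬ HasShort Q := by
  obtain ⟨-, ⟨side, hs⟩, h4⟩ := hR
  have hq : ∀ x y, Q x y → side (f x) ≠ side (f y) := fun x y hxy => hs _ _ (hQ x y hxy)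
  rintro (⟨a, b, c, h1, h2, h3⟩ | ⟨a, b, c, d, hac, hbd, h1, h2, h3, h5⟩ |
    ⟨a, b, c, d, e, h1, h2, h3, h5, h6⟩)
  · have k1 := hq _ _ h1
    have k2 := hq _ _ h2
    have k3 := hq _ _ h3
    revert k1 k2 k3
    generalize side (f a) = x
    generalize side (f b) = y
    generalize side (f c) = z
    revert x y z
    decide
  · rcases h4 _ _ _ _ (hQ _ _ h1) (hQ _ _ h2) (hQ _ _ h3) (hQ _ _ h5) with h | h
    · exact hac (hf h)
    · exact hbd (hf h)
  · have k1 := hq _ _ h1
    have k2 := hq _ _ h2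
    have k3 := hq _ _ h3
    have k4 := hq _ _ h5
    have k5 := hq _ _ h6
    revert k1 k2 k3 k4 k5
    generalize side (f a) = x
    generalize side (f b) = y
    generalize side (f c) = z
    generalize side (f d) = u
    generalize side (f e) = v
    cases x <;> cases y <;> cases z <;> cases u <;> cases v <;> simp

private theorem irrefl24 {V : Type} {R : Str 1 V} (hR : G.BipSix V R) (x : V) : ¬ R 0 x x := by
  obtain ⟨-, ⟨side, hs⟩, -⟩ := hR
  exact fun hx => hs x x hx rfl

theorem wild_graph (hG : Coding 1 G.BipSix) {s : ℕ} (P : Str Kind.graph.rels (Fin s))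
    (h : Kind.graph.Is P) (hP : ¬ ∀ Q, Critical Kind.graph Q → Emb P Q) :
    Wild (Omit Kind.graph P) := by
  rcases pat_graph P h hP with h1 | h1
  · refine wild_of_coding hG (K := Omit Kind.graph P) (def_omit _ P) (fun _ R => R)
      (fun r => Def.rel (b := 1) r 0 1) ?_
    intro V _ R hR
    refine ⟨R, ⟨⟨irrefl24 hR, hR.1⟩, ?_⟩, rfl⟩
    rintro ⟨f, hf, he⟩
    exact no_short24 hR f hf (fun x y hxy => (he (0 : Fin 1) x y).1 hxy) h1
  · refine wild_of_coding hG (K := Omit Kind.graph P) (def_omit _ P)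
      (fun _ R => fun _ x y => x ≠ y ∧ ¬ R (0 : Fin 1) x y)
      (fun _ => (Def.eq (b := 1) 0 1).not.and (Def.rel (b := 1) 0 0 1).not) ?_
    intro V _ R hR
    have hirr := irrefl24 hR
    refine ⟨fun _ x y => x ≠ y ∧ ¬ R (0 : Fin 1) x y, ⟨⟨fun x hx => hx.1 rfl, fun x y hxy =>
      ⟨hxy.1.symm, fun h2 => hxy.2 (hR.1 _ _ h2)⟩⟩, ?_⟩, ?_⟩
    · rintro ⟨f, hf, he⟩
      refine no_short24 hR f hf (fun x y hxy => ?_) h1
      by_contra h2
      exact hxy.2 ((he (0 : Fin 1) x y).2 ⟨fun h3 => hxy.1 (hf h3), h2⟩)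
    · funext r x y
      have hr : r = 0 := Subsingleton.elim _ _
      subst hr
      refine propext ⟨fun h2 => ?_, fun h2 => ⟨?_, fun h3 => h3.2 h2⟩⟩
      · by_contra h3
        exact h2.2 ⟨h2.1, h3⟩
      · rintro rfl
        exact hirr x h2

end Pool.Agent.Helper20.OP
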